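import Pool.Agent.Lib.Pe46137h7.OutSemi

/-!
# Digraph classes in which reach sets are unions of two balls of radius five
-/

namespace Pool.Agent.Lib.Pe46137h7

variable {V : Type}

/-- `Within E k a b`: there is a walk from `a` to `b` of length at most `k`. -/
def Within (E : V → V → Prop) : ℕ → V → V → Prop
  | 0, a, b => a = b
  | k + 1, a, b => Within E k a b ∨ ∃ c, Within E k a c ∧ E c b

theorem Within.reach {E : V → V → Prop} : ∀ {k : ℕ} {a b : V}, Within E k a b → Reach E a b := by
  intro k
  induction k with
  | zero => intro a b h; rw [show a = b from h]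
  | succ k ih =>
    intro a b h
    rcases h with h | ⟨c, h1, h2⟩
    · exact ih h
    · exact (ih h1).tail h2

theorem Within.refl {E : V → V → Prop} (k : ℕ) (a : V) : Within E k a a := by
  induction k with
  | zero => rfl
  | succ k ih => exact Or.inl ih

theorem Within.tail {E : V → V → Prop} {k : ℕ} {a b c : V} (h : Within E k a b) (h' : E b c) :
    Within E (k + 1) a c := Or.inr ⟨b, h, h'⟩

theorem Within.mono {E : V → V → Prop} {k l : ℕ} (hkl : k ≤ l) {a b : V}
    (h : Within E k a b) : Within E l a b := by
  obtain ⟨d, rfl⟩ := Nat.exists_eq_add_of_le hkl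
  clear hkl
  induction d with
  | zero => exact h
  | succ d ih => exact Or.inl ih

theorem Within.trans {E : V → V → Prop} {k l : ℕ} {a b c : V} (h : Within E k a b)
    (h' : Within E l b c) : Within E (k + l) a c := by
  induction l generalizing c with
  | zero => rw [← show b = c from h']; exact h
  | succ l ih =>
    rcases h' with h' | ⟨d, h1, h2⟩
    · exact (ih h').mono (by omega)
    · exact (ih h1).tail h2

theorem Within.single {E : V → V → Prop} {a b : V} (h : E a b) : Within E 1 a b :=
  Or.inr ⟨a, rfl, h⟩

/-- **Quasi-kernels** (Chvátal–Lovász): every finite set of vertices contains an independent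
set from which all its vertices are reached within two steps. -/
theorem exists_quasiKernel [DecidableEq V] (E : V → V → Prop) (S : Finset V) :
    ∃ Q ⊆ S, (∀ a ∈ Q, ∀ b ∈ Q, a ≠ b → ¬ E a b) ∧
      ∀ v ∈ S, ∃ q ∈ Q, Within E 2 q v := by
  classical
  induction S using Finset.strongInduction with
  | H S ih =>
    rcases S.eq_empty_or_nonempty with rfl | ⟨v, hv⟩
    · exact ⟨∅, by simp, by simp, by simp⟩
    · -- remove `v` and its out-neighbours
      obtain ⟨Q, hQS, hQ, hdom⟩ := ih (S.filter fun x => x ≠ v ∧ ¬ E v x) (by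
        refine Finset.filter_ssubset.2 ⟨v, hv, by simp⟩)
      have hQS' : Q ⊆ S := hQS.trans (Finset.filter_subset _ _)
      by_cases hin : ∃ q ∈ Q, E q v
      · obtain ⟨q, hq, hqv⟩ := hin
        refine ⟨Q, hQS', hQ, fun x hx => ?_⟩
        by_cases h1 : x = v
        · exact ⟨q, hq, by rw [h1]; exact (Within.single hqv).mono (by omega)⟩
        · by_cases h2 : E v x
          · exact ⟨q, hq, (Within.single hqv).tail h2⟩
          · exact hdom x (Finset.mem_filter.2 ⟨hx, h1, h2⟩)
      · push Not at hin
        refine ⟨insert v Q, Finset.insert_subset hv hQS', ?_, fun x hx => ?_⟩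
        · intro a ha b hb hab
          rcases Finset.mem_insert.1 ha with ha' | ha'
          · rcases Finset.mem_insert.1 hb with hb' | hb'
            · exact absurd (ha'.trans hb'.symm) hab
            · rw [ha']
              exact (Finset.mem_filter.1 (hQS hb')).2.2
          · rcases Finset.mem_insert.1 hb with hb' | hb'
            · rw [hb']
              exact hin a ha'
            · exact hQ a ha' b hb' hab
        · by_cases h1 : x = v
          · exact ⟨v, Finset.mem_insert_self _ _, by rw [h1]; exact Within.refl _ _⟩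
          · by_cases h2 : E v x
            · exact ⟨v, Finset.mem_insert_self _ _, (Within.single h2).mono (by omega)⟩
            · obtain ⟨q, hq, h3⟩ := hdom x (Finset.mem_filter.2 ⟨hx, h1, h2⟩)
              exact ⟨q, Finset.mem_insert_of_mem hq, h3⟩

/-- Every reach set is a union of two balls of radius five. -/
def TwoBalls (E : V → V → Prop) : Prop :=
  ∀ s, ∃ z₁ z₂, ∀ v, Reach E s v ↔ Within E 5 z₁ v ∨ Within E 5 z₂ v

/-- No three pairwise non-adjacent vertices. -/
theorem twoBalls_of_alpha [Finite V] {E : V → V → Prop}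
    (h : ∀ a b c : V, a ≠ b → a ≠ c → b ≠ c → Adj E a b ∨ Adj E a c ∨ Adj E b c) :
    TwoBalls E := by
  classical
  intro s
  have := Fintype.ofFinite V
  obtain ⟨Q, hQS, hQ, hdom⟩ := exists_quasiKernel E (Finset.univ.filter fun v => Reach E s v)
  have hQr : ∀ q ∈ Q, Reach E s q := fun q hq => (Finset.mem_filter.1 (hQS hq)).2
  have hs : s ∈ Finset.univ.filter fun v => Reach E s v := by
    simp only [Finset.mem_filter, Finset.mem_univ, true_and]
    exact .refl
  obtain ⟨z₁, hz₁, _⟩ := hdom s hs
  obtain ⟨z₂, hz₂, hQ2⟩ : ∃ z₂ ∈ Q, ∀ q ∈ Q, q = z₁ ∨ q = z₂ := by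
    by_cases hex : ∃ z₂ ∈ Q, z₂ ≠ z₁
    · obtain ⟨z₂, hz₂, hne⟩ := hex
      refine ⟨z₂, hz₂, fun q hq => ?_⟩
      by_contra hcon
      push Not at hcon
      rcases h z₁ z₂ q hne.symm hcon.1.symm hcon.2.symm with h1 | h1 | h1
      · rcases h1 with h1 | h1
        · exact hQ _ hz₁ _ hz₂ hne.symm h1
        · exact hQ _ hz₂ _ hz₁ hne h1
      · rcases h1 with h1 | h1
        · exact hQ _ hz₁ _ hq hcon.1.symm h1
        · exact hQ _ hq _ hz₁ hcon.1 h1
      · rcases h1 with h1 | h1
        · exact hQ _ hz₂ _ hq hcon.2.symm h1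
        · exact hQ _ hq _ hz₂ hcon.2 h1
    · push Not at hex
      exact ⟨z₁, hz₁, fun q hq => Or.inl (hex q hq)⟩
  refine ⟨z₁, z₂, fun v => ⟨fun hv => ?_, ?_⟩⟩
  · obtain ⟨q, hq, hw⟩ := hdom v (by simpa using hv)
    rcases hQ2 q hq with rfl | rfl
    · exact Or.inl (hw.mono (by omega))
    · exact Or.inr (hw.mono (by omega))
  · rintro (hv | hv)
    · exact (hQr _ hz₁).trans hv.reach
    · exact (hQr _ hz₂).trans hv.reach

/-- No arc together with a vertex adjacent to neither of its ends. -/
theorem twoBalls_of_multipartite [Finite V] {E : V → V → Prop} (hirr : ∀ v, ¬ E v v)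
    (h : ∀ a b c : V, E a b → a ≠ b → c ≠ a → c ≠ b → Adj E c a ∨ Adj E c b) :
    TwoBalls E := by
  classical
  intro s
  have := Fintype.ofFinite V
  obtain ⟨Q, hQS, hQ, hdom⟩ := exists_quasiKernel E (Finset.univ.filter fun v => Reach E s v)
  have hQr : ∀ q ∈ Q, Reach E s q := fun q hq => (Finset.mem_filter.1 (hQS hq)).2
  -- a vertex of the reach set with the largest number of out-neighbours in `Q`
  obtain ⟨y, hy, hmax⟩ := Finset.exists_max_image
    (Finset.univ.filter fun v => Reach E s v) (fun y => (Q.filter fun q => E y q).card)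
    ⟨s, by simp only [Finset.mem_filter, Finset.mem_univ, true_and]; exact .refl⟩
  have hyr : Reach E s y := (Finset.mem_filter.1 hy).2
  have hkey : ∀ q ∈ Q, q ≠ s → Within E 3 y q := by
    intro q hq hqs
    obtain ⟨y', hy', hyq⟩ : ∃ y', Reach E s y' ∧ E y' q := by
      rcases Relation.ReflTransGen.cases_tail (hQr q hq) with h1 | ⟨c, h1, h2⟩
      · exact absurd h1 hqs
      · exact ⟨c, h1, h2⟩
    by_cases hyq' : E y q
    · exact (Within.single hyq').mono (by omega)
    -- `y'` does not dominate some out-neighbour of `y` in `Q`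
    obtain ⟨q', hq', hyq1, hyq2⟩ : ∃ q' ∈ Q, E y q' ∧ ¬ E y' q' := by
      by_contra hcon
      push Not at hcon
      have hlt : (Q.filter fun q => E y q).card < (Q.filter fun q => E y' q).card := by
        apply Finset.card_lt_card
        refine Finset.ssubset_iff_subset_ne.2 ⟨fun x hx => ?_, fun heq => ?_⟩
        · obtain ⟨hx1, hx2⟩ := Finset.mem_filter.1 hx
          exact Finset.mem_filter.2 ⟨hx1, hcon x hx1 hx2⟩
        · have : q ∈ Q.filter fun q => E y' q := Finset.mem_filter.2 ⟨hq, hyq⟩
          rw [← heq] at this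
          exact hyq' (Finset.mem_filter.1 this).2
      exact absurd (hmax y' (by simpa using hy')) (not_le.2 hlt)
    have hy'q : y' ≠ q := fun e => hirr q (e ▸ hyq)
    have hne2 : q' ≠ q := fun e => hyq' (e ▸ hyq1)
    have hne1 : q' ≠ y' := fun e => hQ q' hq' q hq hne2 (e ▸ hyq)
    have hadj : E q' y' := by
      rcases h y' q q' hyq hy'q hne1 hne2 with h1 | h1
      · rcases h1 with h1 | h1
        · exact h1
        · exact absurd h1 hyq2
      · rcases h1 with h1 | h1
        · exact absurd h1 (hQ _ hq' _ hq hne2)
        · exact absurd h1 (hQ _ hq _ hq' hne2.symm)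
    exact ((Within.single hyq1).tail hadj).tail hyq
  refine ⟨y, s, fun v => ⟨fun hv => ?_, ?_⟩⟩
  · obtain ⟨q, hq, hw⟩ := hdom v (by simpa using hv)
    by_cases hqs : q = s
    · subst hqs
      exact Or.inr (hw.mono (by omega))
    · exact Or.inl ((hkey q hq hqs).trans hw)
  · rintro (hv | hv)
    · exact hyr.trans hv.reach
    · exact hv.reach

/-- Chords of shortest paths in quasi-transitive digraphs. -/
theorem chord_of_quasiTransitive {E : V → V → Prop}
    (h : ∀ a b c : V, E a b → E b c → a ≠ c → Adj E a c) {a b : V} {n : ℕ} {p : ℕ → V}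
    (h0 : p 0 = a) (h1 : p n = b) (h2 : ∀ i < n, E (p i) (p (i + 1)))
    (hmin : ∀ m, Walk E m a b → n ≤ m) (hn : n ≠ 3) :
    ∀ d i, 2 ≤ d → i + d ≤ n → E (p (i + d)) (p i) := by
  -- turn adjacency into backward arcs
  have back : ∀ i j, i + 2 ≤ j → j ≤ n → Adj E (p i) (p j) → E (p j) (p i) := by
    intro i j hij hj hadj
    rcases hadj with h3 | h3
    · exact absurd h3 (no_chord h0 h1 h2 hmin hij hj)
    · exact h3
  have ne : ∀ i j, i < j → j ≤ n → p i ≠ p j := fun i j hij hj =>
    path_ne h0 h1 h2 hmin hij hj
  have c2 : ∀ i, i + 2 ≤ n → E (p (i + 2)) (p i) := by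
    intro i hi
    refine back i (i + 2) le_rfl hi ?_
    exact h _ _ _ (h2 i (by omega)) (h2 (i + 1) (by omega)) (ne i (i + 2) (by omega) hi)
  intro d
  induction d using Nat.strong_induction_on with
  | _ d ih =>
    intro i hd hi
    rcases Nat.lt_or_ge d 4 with hd4 | hd4
    · rcases Nat.lt_or_ge d 3 with hd3 | hd3
      · obtain rfl : d = 2 := by omega
        exact c2 i hi
      · obtain rfl : d = 3 := by omega
        rcases Nat.lt_or_ge i 1 with hi1 | hi1
        · obtain rfl : i = 0 := by omega
          have h4 : 4 ≤ n := by omega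
          -- `p 4 → p 2 → p 0`
          have e1 : E (p (0 + 4)) (p 0) := by
            refine back 0 (0 + 4) (by omega) (by omega) ?_
            have := h _ _ _ (c2 2 (by omega)) (c2 0 (by omega)) (ne 0 4 (by omega) h4).symm
            exact this.symm
          refine back 0 (0 + 3) (by omega) hi ?_
          have := h _ _ _ (h2 3 (by omega)) e1 (ne 0 3 (by omega) (by omega)).symm
          exact this.symm
        · obtain ⟨j, rfl⟩ := Nat.exists_eq_add_of_le' hi1
          -- `p (j+4) → p (j+2) → p j → p (j+1)`
          have e1 : E (p (j + 4)) (p j) := by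
            refine back j (j + 4) (by omega) (by omega) ?_
            have := h _ _ _ (c2 (j + 2) (by omega)) (c2 j (by omega))
              (ne j (j + 4) (by omega) (by omega)).symm
            exact this.symm
          refine back (j + 1) (j + 1 + 3) (by omega) hi ?_
          have := h _ _ _ e1 (h2 j (by omega)) (ne (j + 1) (j + 4) (by omega) (by omega)).symm
          exact this.symm
    · -- `p (i+d) → p (i+d-2) → p i`
      have e1 : E (p (i + (d - 2))) (p i) := ih (d - 2) (by omega) i (by omega) (by omega)
      have e2 : E (p (i + d)) (p (i + (d - 2))) := by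
        have := c2 (i + (d - 2)) (by omega)
        rwa [show i + (d - 2) + 2 = i + d by omega] at this
      refine back i (i + d) (by omega) hi ?_
      exact (h _ _ _ e2 e1 (ne i (i + d) (by omega) hi).symm).symm

/-- In a quasi-transitive digraph, if `a` reaches `b` without dominating it then `b` reaches
`a` within three steps, and `a` reaches `b` within three steps unless `b` dominates `a`. -/
theorem within_of_quasiTransitive {E : V → V → Prop}
    (h : ∀ a b c : V, E a b → E b c → a ≠ c → Adj E a c) {a b : V} (hab : Reach E a b)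
    (hne : a ≠ b) (hE : ¬ E a b) : Within E 3 b a ∧ (E b a ∨ Within E 3 a b) := by
  obtain ⟨n, p, h0, h1, h2, hmin⟩ := exists_shortest hab
  have hn0 : n ≠ 0 := by
    rintro rfl
    exact hne (h0.symm.trans h1)
  have hn1 : n ≠ 1 := by
    rintro rfl
    have := h2 0 (by omega)
    rw [h0, zero_add, h1] at this
    exact hE this
  by_cases hn3 : n = 3
  · subst hn3
    have e1 := h2 0 (by omega)
    have e2 := h2 1 (by omega)
    have e3 := h2 2 (by omega)
    rw [h0] at e1
    simp only [zero_add, Nat.reduceAdd] at e1 e2 e3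
    rw [h1] at e3
    have c1 : E (p 2) a := by
      have := h _ _ _ e1 e2 (by
        have := path_ne h0 h1 h2 hmin (i := 0) (j := 2) (by omega) (by omega)
        rwa [h0] at this)
      rcases this with h3 | h3
      · have := no_chord h0 h1 h2 hmin (i := 0) (j := 2) (by omega) (by omega)
        rw [h0] at this
        exact absurd h3 this
      · exact h3
    have c2 : E b (p 1) := by
      have := h _ _ _ e2 e3 (by
        have := path_ne h0 h1 h2 hmin (i := 1) (j := 3) (by omega) (by omega)
        rwa [h1] at this)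
      rcases this with h3 | h3
      · have := no_chord h0 h1 h2 hmin (i := 1) (j := 3) (by omega) (by omega)
        rw [h1] at this
        exact absurd h3 this
      · exact h3
    exact ⟨((Within.single c2).tail e2).tail c1, Or.inr (((Within.single e1).tail e2).tail e3)⟩
  · have := chord_of_quasiTransitive h h0 h1 h2 hmin hn3 n 0 (by omega) (by omega)
    rw [zero_add, h1, h0] at this
    exact ⟨(Within.single this).mono (by omega), Or.inl this⟩

/-- No directed two-path with non-adjacent ends (quasi-transitive digraphs). -/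
theorem twoBalls_of_quasiTransitive [Finite V] {E : V → V → Prop}
    (h : ∀ a b c : V, E a b → E b c → a ≠ c → Adj E a c) : TwoBalls E := by
  classical
  intro s
  have := Fintype.ofFinite V
  -- a quasi-kernel of the strong component of `s`
  obtain ⟨Q, hQS, hQ, hdom⟩ := exists_quasiKernel E
    (Finset.univ.filter fun v => Reach E s v ∧ Reach E v s)
  have hQr : ∀ q ∈ Q, Reach E s q ∧ Reach E q s :=
    fun q hq => (Finset.mem_filter.1 (hQS hq)).2
  have hs : s ∈ Finset.univ.filter fun v => Reach E s v ∧ Reach E v s := by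
    simp only [Finset.mem_filter, Finset.mem_univ, true_and]
    exact ⟨.refl, .refl⟩
  obtain ⟨z, hz, _⟩ := hdom s hs
  have hzQ : ∀ q ∈ Q, Within E 3 z q := by
    intro q hq
    by_cases hqz : z = q
    · rw [hqz]; exact Within.refl _ _
    · have h1 := within_of_quasiTransitive h ((hQr z hz).2.trans (hQr q hq).1) hqz
        (hQ z hz q hq hqz)
      rcases h1.2 with h2 | h2
      · exact absurd h2 (hQ q hq z hz (Ne.symm hqz))
      · exact h2
  refine ⟨z, z, fun v => ⟨fun hv => Or.inl ?_, ?_⟩⟩
  · by_cases hvs : Reach E v s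
    · obtain ⟨q, hq, hw⟩ := hdom v (by simpa using ⟨hv, hvs⟩)
      exact (hzQ q hq).trans hw
    · have hne : z ≠ v := fun e => hvs (e ▸ (hQr z hz).2)
      by_cases hzv : E z v
      · exact (Within.single hzv).mono (by omega)
      · have h1 := within_of_quasiTransitive h ((hQr z hz).2.trans hv) hne hzv
        exact absurd (h1.1.reach.trans (hQr z hz).2) hvs
  · rintro (hv | hv)
    · exact (hQr z hz).1.trans hv.reach
    · exact (hQr z hz).1.trans hv.reach

end Pool.Agent.Lib.Pe46137h7
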