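import Pool.Agent.Lib.Pe46137h7.Defs

/-!
# Definitions: subgraphs and forests of directed spiders
-/

namespace Pool.Agent.Lib.Pe46137h7

/-- The digraph `E` has a subgraph, not necessarily induced, isomorphic to `H`. -/
def HasSub {h : ℕ} (H : Fin h → Fin h → Prop) {V : Type} (E : V → V → Prop) : Prop :=
  ∃ f : Fin h → V, Function.Injective f ∧ ∀ i j, H i j → E (f i) (f j)

/-- The vertices of the infinite directed spider: an infinite path coming in, with last vertex
`tail 0`, and two infinite paths going out. -/
inductive Spider
  | tail (k : ℕ)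
  | left (k : ℕ)
  | right (k : ℕ)

/-- The arcs of the infinite directed spider. -/
inductive Spider.Arc : Spider → Spider → Prop
  | tail (k : ℕ) : Arc (.tail (k + 1)) (.tail k)
  | toLeft : Arc (.tail 0) (.left 0)
  | toRight : Arc (.tail 0) (.right 0)
  | left (k : ℕ) : Arc (.left k) (.left (k + 1))
  | right (k : ℕ) : Arc (.right k) (.right (k + 1))

/-- The disjoint union of infinitely many infinite directed spiders and infinitely many
reversals of infinite directed spiders. -/
def Forest (x y : Bool × ℕ × Spider) : Prop :=
  x.1 = y.1 ∧ x.2.1 = y.2.1 ∧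
    ((x.1 = true ∧ Spider.Arc x.2.2 y.2.2) ∨ (x.1 = false ∧ Spider.Arc y.2.2 x.2.2))

end Pool.Agent.Lib.Pe46137h7
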