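import Pool.Agent.Lib.Pe46137h7.Subdiv

/-!
# Small subgraphs of the subdivided digraph are disjoint unions of spiders
-/

namespace Pool.Agent.Lib.Pe46137h7.Mono

open Pool.Agent.Lib.Pe46137h7

/-- Disjoint unions of spiders with arbitrary index sets. -/
def ForestOn {I : Type} (x y : Bool × I × Spider) : Prop :=
  x.1 = y.1 ∧ x.2.1 = y.2.1 ∧
    ((x.1 = true ∧ Spider.Arc x.2.2 y.2.2) ∨ (x.1 = false ∧ Spider.Arc y.2.2 x.2.2))

section Cut

variable {V : Type} {l : ℕ} (κ : Fin 3 → V → V → ℕ) (top : V → Prop) [DecidablePred top]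
  (sc : V → V) (mn : V)

/-- The vertex of the disjoint union of spiders corresponding to a vertex of the subdivided
digraph, when the lines are cut at the positions `κ`. -/
def img : (Fin 3 × Fin (l + 2)) × V × V → Bool × (V × V) × Spider
  | ((0, k), u, w) =>
    if k.val < κ 0 u w then
      (true, (u, w), if k.val = 0 then .tail 0 else .left (k.val - 1))
    else (true, (u, sc w), .tail (l + 2 - k.val))
  | ((1, k), u, w) =>
    if k.val < κ 1 u w then (true, (u, w), .right k.val)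
    else (false, (u, w), .left (l + 1 - k.val))
  | ((2, k), u, w) =>
    if k.val < κ 2 u w then (false, (u, w), .tail k.val)
    else if top u then (true, (w, mn), .tail (l + 2 - k.val))
    else (false, (sc u, w), .right (l + 1 - k.val))

variable {κ top sc mn}

theorem img_00 {u w : V} {k : Fin (l + 2)} (h : k.val < κ 0 u w) (hk : k.val = 0) :
    img κ top sc mn ((0, k), u, w) = (true, (u, w), .tail 0) := by
  have h' : 0 < κ 0 u w := by omega
  simp [img, h', hk]

theorem img_0 {u w : V} {k : Fin (l + 2)} (h : k.val < κ 0 u w) (hk : 0 < k.val) :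
    img κ top sc mn ((0, k), u, w) = (true, (u, w), .left (k.val - 1)) := by
  have : k.val ≠ 0 := by omega
  simp [img, h, this]

theorem img_0' {u w : V} {k : Fin (l + 2)} (h : κ 0 u w < k.val) :
    img κ top sc mn ((0, k), u, w) = (true, (u, sc w), .tail (l + 2 - k.val)) := by
  have : ¬ k.val < κ 0 u w := by omega
  simp [img, this]

theorem img_1 {u w : V} {k : Fin (l + 2)} (h : k.val < κ 1 u w) :
    img κ top sc mn ((1, k), u, w) = (true, (u, w), .right k.val) := by
  simp [img, h]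

theorem img_1' {u w : V} {k : Fin (l + 2)} (h : κ 1 u w < k.val) :
    img κ top sc mn ((1, k), u, w) = (false, (u, w), .left (l + 1 - k.val)) := by
  have : ¬ k.val < κ 1 u w := by omega
  simp [img, this]

theorem img_2 {u w : V} {k : Fin (l + 2)} (h : k.val < κ 2 u w) :
    img κ top sc mn ((2, k), u, w) = (false, (u, w), .tail k.val) := by
  simp [img, h]

theorem img_2' {u w : V} {k : Fin (l + 2)} (h : κ 2 u w < k.val) (hu : ¬ top u) :
    img κ top sc mn ((2, k), u, w) = (false, (sc u, w), .right (l + 1 - k.val)) := by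
  have : ¬ k.val < κ 2 u w := by omega
  simp [img, this, hu]

theorem img_2'' {u w : V} {k : Fin (l + 2)} (h : κ 2 u w < k.val) (hu : top u) :
    img κ top sc mn ((2, k), u, w) = (true, (w, mn), .tail (l + 2 - k.val)) := by
  have : ¬ k.val < κ 2 u w := by omega
  simp [img, this, hu]

variable (l) in
/-- The inverse of `img`. -/
def unimg (bot : V → Prop) [DecidablePred bot] (pr : V → V) (mx : V) :
    Bool × (V × V) × Spider → (Fin 3 × ℕ) × V × V
  | (true, (u, w), .tail 0) => ((0, 0), u, w)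
  | (true, (u, w), .tail (j + 1)) =>
    if bot w then ((2, l + 1 - j), mx, u) else ((0, l + 1 - j), u, pr w)
  | (true, (u, w), .left j) => ((0, j + 1), u, w)
  | (true, (u, w), .right j) => ((1, j), u, w)
  | (false, (u, w), .tail j) => ((2, j), u, w)
  | (false, (u, w), .left j) => ((1, l + 1 - j), u, w)
  | (false, (u, w), .right j) => ((2, l + 1 - j), pr u, w)

theorem unimg_img [LinearOrder V] {bot : V → Prop} [DecidablePred bot] {pr : V → V} {mx : V}
    (htop : ∀ u, top u → u = mx) (hbot : bot mn)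
    (hsc : ∀ u, ¬ top u → ¬ bot (sc u) ∧ pr (sc u) = u)
    (hκ0 : ∀ u w, top w → κ 0 u w = l + 2) (x : (Fin 3 × Fin (l + 2)) × V × V)
    (hx : x.1.2.val ≠ κ x.1.1 x.2.1 x.2.2) :
    unimg l bot pr mx (img κ top sc mn x) = ((x.1.1, x.1.2.val), x.2) := by
  obtain ⟨⟨τ, k⟩, u, w⟩ := x
  have hk := k.2
  simp only at hx ⊢
  have h3 : τ = 0 ∨ τ = 1 ∨ τ = 2 := by omega
  rcases h3 with rfl | rfl | rfl
  · rcases lt_or_gt_of_ne hx with h | h
    · rcases Nat.eq_zero_or_pos k.val with h0 | h0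
      · rw [img_00 h h0, h0]
        simp only [unimg]
      · rw [img_0 h h0]
        simp only [unimg]
        have e1 : k.val - 1 + 1 = k.val := by omega
        rw [e1]
    · have hw : ¬ top w := by
        intro hw
        rw [hκ0 u w hw] at h
        omega
      rw [img_0' h]
      obtain ⟨j, hj⟩ : ∃ j, l + 2 - k.val = j + 1 := ⟨l + 1 - k.val, by omega⟩
      have e1 : l + 1 - j = k.val := by omega
      rw [hj]
      simp only [unimg, if_neg (hsc w hw).1, (hsc w hw).2, e1]
  · rcases lt_or_gt_of_ne hx with h | h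
    · rw [img_1 h]
      simp only [unimg]
    · rw [img_1' h]
      simp only [unimg]
      have e1 : l + 1 - (l + 1 - k.val) = k.val := by omega
      rw [e1]
  · rcases lt_or_gt_of_ne hx with h | h
    · rw [img_2 h]
      simp only [unimg]
    · by_cases hu : top u
      · rw [img_2'' h hu]
        obtain ⟨j, hj⟩ : ∃ j, l + 2 - k.val = j + 1 := ⟨l + 1 - k.val, by omega⟩
        have e1 : l + 1 - j = k.val := by omega
        rw [hj]
        simp only [unimg, if_pos hbot, e1]
        rw [htop u hu]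
      · rw [img_2' h hu]
        simp only [unimg]
        have e1 : l + 1 - (l + 1 - k.val) = k.val := by omega
        rw [e1, (hsc u hu).2]

theorem forest_of_sarc [LinearOrder V] {E : V → V → Prop}
    (htop : ∀ u, top u ↔ ∀ z, z ≤ u) (hmn : ∀ z, mn ≤ z)
    (hsc : ∀ u u', u ⋖ u' → sc u = u')
    (hκ : ∀ τ u w, 0 < κ τ u w) (hκ0 : ∀ u w, ¬ top w → κ 0 u w < l + 2)
    (hκ1 : ∀ u w, κ 1 u w < l + 2) (hκ2 : ∀ u w, κ 2 u w < l + 2)
    {x y : (Fin 3 × Fin (l + 2)) × V × V} (hx : x.1.2.val ≠ κ x.1.1 x.2.1 x.2.2)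
    (hy : y.1.2.val ≠ κ y.1.1 y.2.1 y.2.2) (h : SArc (l + 2) E x y) :
    ForestOn (img κ top sc mn x) (img κ top sc mn y) := by
  obtain ⟨⟨τ, k⟩, u, w⟩ := x
  obtain ⟨⟨τ', k'⟩, u', w'⟩ := y
  have hk := k.2
  have hk' := k'.2
  unfold SArc at h
  simp only at h hx hy
  rcases h with ⟨⟨rfl, h⟩, rfl, rfl⟩ | ⟨⟨⟨rfl, h1⟩, rfl, h2⟩, rfl, rfl⟩ |
    ⟨⟨⟨rfl, h1⟩, rfl, h2⟩, rfl, h3⟩ | ⟨⟨⟨rfl, h1⟩, rfl, h2⟩, ⟨rfl, rfl⟩, h3⟩ |
    ⟨⟨⟨rfl, h1⟩, rfl, h2⟩, rfl, h3⟩ | ⟨⟨⟨rfl, h1⟩, rfl, h2⟩, rfl, h3, h4⟩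
  · have h3 : τ = 0 ∨ τ = 1 ∨ τ = 2 := by omega
    rcases h3 with rfl | rfl | rfl
    · rcases lt_or_gt_of_ne hx with h4 | h4
      · have h5 : k'.val < κ 0 u w := by omega
        rw [img_0 h5 (by omega)]
        rcases Nat.eq_zero_or_pos k.val with h0 | h0
        · rw [img_00 h4 h0]
          have e1 : k'.val - 1 = 0 := by omega
          rw [e1]
          exact ⟨rfl, rfl, Or.inl ⟨rfl, .toLeft⟩⟩
        · rw [img_0 h4 h0]
          have e1 : k'.val - 1 = k.val - 1 + 1 := by omega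
          rw [e1]
          exact ⟨rfl, rfl, Or.inl ⟨rfl, .left _⟩⟩
      · have h5 : κ 0 u w < k'.val := by omega
        rw [img_0' h4, img_0' h5]
        have e1 : l + 2 - k.val = l + 2 - k'.val + 1 := by omega
        rw [e1]
        exact ⟨rfl, rfl, Or.inl ⟨rfl, .tail _⟩⟩
    · rcases lt_or_gt_of_ne hx with h4 | h4
      · have h5 : k'.val < κ 1 u w := by omega
        rw [img_1 h4, img_1 h5, ← h]
        exact ⟨rfl, rfl, Or.inl ⟨rfl, .right _⟩⟩
      · have h5 : κ 1 u w < k'.val := by omega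
        rw [img_1' h4, img_1' h5]
        have e1 : l + 1 - k.val = l + 1 - k'.val + 1 := by omega
        rw [e1]
        exact ⟨rfl, rfl, Or.inr ⟨rfl, .left _⟩⟩
    · rcases lt_or_gt_of_ne hx with h4 | h4
      · have h5 : k'.val < κ 2 u w := by omega
        rw [img_2 h4, img_2 h5, ← h]
        exact ⟨rfl, rfl, Or.inr ⟨rfl, .tail _⟩⟩
      · have h5 : κ 2 u w < k'.val := by omega
        by_cases hu : top u
        · rw [img_2'' h4 hu, img_2'' h5 hu]
          have e1 : l + 2 - k.val = l + 2 - k'.val + 1 := by omega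
          rw [e1]
          exact ⟨rfl, rfl, Or.inl ⟨rfl, .tail _⟩⟩
        · rw [img_2' h4 hu, img_2' h5 hu]
          have e1 : l + 1 - k.val = l + 1 - k'.val + 1 := by omega
          rw [e1]
          exact ⟨rfl, rfl, Or.inr ⟨rfl, .right _⟩⟩
  · rw [img_00 (by rw [h1]; exact hκ _ _ _) h1, img_1 (by rw [h2]; exact hκ _ _ _), h2]
    exact ⟨rfl, rfl, Or.inl ⟨rfl, .toRight⟩⟩
  · have hw : ¬ top w := by
      rw [htop]
      intro h4
      exact absurd (h4 w') (not_le.2 h3.lt)
    have h4 := hκ0 u w hw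
    rw [img_0' (by omega), img_00 (by rw [h2]; exact hκ _ _ _) h2, hsc w w' h3]
    have e1 : l + 2 - k.val = 0 + 1 := by omega
    rw [e1]
    exact ⟨rfl, rfl, Or.inl ⟨rfl, .tail _⟩⟩
  · have h4 := hκ1 u w
    rw [img_1' (by omega), img_2 (by rw [h2]; exact hκ _ _ _), h2]
    have e1 : l + 1 - k.val = 0 := by omega
    rw [e1]
    exact ⟨rfl, rfl, Or.inr ⟨rfl, .toLeft⟩⟩
  · have hu : ¬ top u := by
      rw [htop]
      intro h4
      exact absurd (h4 u') (not_le.2 h3.lt)
    have h4 := hκ2 u w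
    rw [img_2' (by omega) hu, img_2 (by rw [h2]; exact hκ _ _ _), h2, hsc u u' h3]
    have e1 : l + 1 - k.val = 0 := by omega
    rw [e1]
    exact ⟨rfl, rfl, Or.inr ⟨rfl, .toRight⟩⟩
  · have hu : top u := (htop u).2 h3
    have h5 := hκ2 u w
    rw [img_2'' (by omega) hu, img_00 (by rw [h2]; exact hκ _ _ _) h2]
    have e1 : l + 2 - k.val = 0 + 1 := by omega
    rw [e1, le_antisymm (h4 mn) (hmn w')]
    exact ⟨rfl, rfl, Or.inl ⟨rfl, .tail _⟩⟩

end Cut

/-- **Small subgraphs of the subdivided digraph embed into a disjoint union of spiders.** -/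
theorem hasSub_forest {V : Type} [Finite V] [LinearOrder V] {E : V → V → Prop} {l h : ℕ}
    (hl : h ≤ l) {H : Fin h → Fin h → Prop} (hH : HasSub H ((subdiv l).out E)) :
    HasSub H Forest := by
  classical
  obtain ⟨f, hf1, hf2⟩ := hH
  rcases Nat.eq_zero_or_pos h with rfl | hpos
  · exact ⟨fun i => i.elim0, fun i => i.elim0, fun i => i.elim0⟩
  have hne : Nonempty V := ⟨(f ⟨0, hpos⟩).2.1⟩
  let X : Fin h → (Fin 3 × Fin (l + 2)) × V × V := fun i => (place l (f i).1, (f i).2)
  have hX : Function.Injective X := by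
    intro i j hij
    have h1 : place l (f i).1 = place l (f j).1 := congrArg (fun x => x.1) hij
    have h2 : (f i).2 = (f j).2 := congrArg (fun x => x.2) hij
    exact hf1 (Prod.ext ((place l).injective h1) h2)
  have hXE : ∀ i j, H i j → SArc (l + 2) E (X i) (X j) := fun i j hij =>
    (out_iff _ _).1 (hf2 i j hij)
  obtain ⟨mx, hmx⟩ : ∃ M : V, ∀ z, z ≤ M := Finite.exists_max (id : V → V)
  obtain ⟨mn, hmn⟩ : ∃ M : V, ∀ z, M ≤ z := Finite.exists_min (id : V → V)
  -- successors and predecessors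
  have hex1 : ∀ u : V, ∃ u', ¬ (∀ z, z ≤ u) → u ⋖ u' := by
    intro u
    by_cases hu : ∀ z, z ≤ u
    · exact ⟨u, fun h => absurd hu h⟩
    · have : ¬ IsMax u := fun hm => hu fun z => by
        rcases le_total z u with h | h
        · exact h
        · exact hm h
      obtain ⟨u', hu'⟩ := exists_covBy_of_wellFoundedLT this
      exact ⟨u', fun _ => hu'⟩
  choose sc hsc using hex1
  have hsc' : ∀ u u', u ⋖ u' → sc u = u' := by
    intro u u' h
    have h1 : ¬ ∀ z, z ≤ u := fun h2 => absurd (h2 u') (not_le.2 h.lt)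
    exact (hsc u h1).unique_right h
  have hex2 : ∀ u : V, ∃ u', ∀ v, v ⋖ u → u' = v := by
    intro u
    by_cases hu : ∃ v, v ⋖ u
    · obtain ⟨v, hv⟩ := hu
      exact ⟨v, fun v' hv' => hv.unique_left hv'⟩
    · exact ⟨u, fun v hv => absurd ⟨v, hv⟩ hu⟩
  choose pr hpr using hex2
  -- the cuts
  have hex3 : ∀ (τ : Fin 3) (u w : V), ∃ κ, 0 < κ ∧ κ < l + 2 ∧
      ∀ i, (X i).1.1 = τ → (X i).2 = (u, w) → (X i).1.2.val ≠ κ := by
    intro τ u w
    by_contra hcon
    push Not at hcon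
    have hsub : Finset.Ico 1 (l + 2) ⊆ Finset.univ.image fun i => (X i).1.2.val := by
      intro k hk
      obtain ⟨hk1, hk2⟩ := Finset.mem_Ico.1 hk
      obtain ⟨i, _, _, hi⟩ := hcon k hk1 hk2
      exact Finset.mem_image.2 ⟨i, Finset.mem_univ _, hi⟩
    have h1 := Finset.card_le_card hsub
    have h2 : (Finset.univ.image fun i => (X i).1.2.val).card ≤ h :=
      le_trans Finset.card_image_le (by simp)
    rw [Nat.card_Ico] at h1
    omega
  choose κ' hκ1 hκ2 hκ3 using hex3
  let κ : Fin 3 → V → V → ℕ := fun τ u w => if τ = 0 ∧ ∀ z, z ≤ w then l + 2 else κ' τ u w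
  have hκX : ∀ i, (X i).1.2.val ≠ κ (X i).1.1 (X i).2.1 (X i).2.2 := by
    intro i
    simp only [κ]
    split
    · have := (X i).1.2.2
      omega
    · exact hκ3 _ _ _ i rfl rfl
  have hinj : Function.Injective fun i => img κ (fun u => ∀ z, z ≤ u) sc mn (X i) := by
    intro i j hij
    have key : ∀ i, unimg l (fun u => ∀ z, u ≤ z) pr mx
        (img κ (fun u => ∀ z, z ≤ u) sc mn (X i)) = (((X i).1.1, (X i).1.2.val), (X i).2) := by
      intro i
      refine unimg_img (fun u hu => le_antisymm (hmx u) (hu mx)) hmn ?_ ?_ (X i) (hκX i)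
      · intro u hu
        have h1 := hsc u hu
        exact ⟨fun h2 => absurd (h2 u) (not_le.2 h1.lt), hpr _ _ h1⟩
      · intro u w hw
        simp [κ, hw]
    have h1 := key i
    have h2 := key j
    have h3 : (((X i).1.1, (X i).1.2.val), (X i).2) = (((X j).1.1, (X j).1.2.val), (X j).2) := by
      rw [← h1, ← h2]
      exact congrArg _ hij
    apply hX
    have h4 := congrArg (fun p => p.1.1) h3
    have h5 := congrArg (fun p => p.1.2) h3
    have h6 := congrArg (fun p => p.2) h3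
    exact Prod.ext (Prod.ext h4 (Fin.ext h5)) h6
  obtain ⟨e, he⟩ := exists_injective_nat (V × V)
  refine ⟨fun i => let x := img κ (fun u => ∀ z, z ≤ u) sc mn (X i); (x.1, e x.2.1, x.2.2),
    ?_, ?_⟩
  · intro i j hij
    apply hinj
    simp only [Prod.mk.injEq] at hij
    exact Prod.ext hij.1 (Prod.ext (he hij.2.1) hij.2.2)
  · intro i j hij
    have h1 : ForestOn (img κ (fun u => ∀ z, z ≤ u) sc mn (X i))
        (img κ (fun u => ∀ z, z ≤ u) sc mn (X j)) := by
      refine forest_of_sarc (fun u => Iff.rfl) hmn hsc' ?_ ?_ ?_ ?_ (hκX i) (hκX j) (hXE i j hij)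
      · intro τ u w
        simp only [κ]
        split
        · omega
        · exact hκ1 _ _ _
      · intro u w hw
        simp only [κ, hw, and_false, if_false]
        exact hκ2 _ _ _
      · intro u w
        simp only [κ]
        exact hκ2 _ _ _
      · intro u w
        simp only [κ]
        exact hκ2 _ _ _
    exact ⟨h1.1, congrArg e h1.2.1, h1.2.2⟩

/-- Hardness. -/
theorem subdiv_reduces {m : ℕ} {h : Fin m → ℕ} {H : ∀ k, Fin (h k) → Fin (h k) → Prop} {l : ℕ}
    (hl : ∀ k, h k ≤ l) (hH : ∀ k, ¬ HasSub (H k) Forest) :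
    (subdiv l).Reduces fun _ F => ∀ k, ¬ HasSub (H k) F := by
  intro V _ _ E
  have hsrc : ∀ (s : V) (x : V × V), (s = x.1 ∧ ¬ ∃ k, k < x.2) ↔
      (s = x.1 ∧ ∀ k, x.2 ≤ k) := by
    intro s x
    push Not
    rfl
  have huniq : ∀ s : V, ∃! x : V × V, s = x.1 ∧ ¬ ∃ k, k < x.2 := by
    intro s
    have : Nonempty V := ⟨s⟩
    obtain ⟨i, hi⟩ := Finite.exists_min (id : V → V)
    refine ⟨(s, i), ?_, ?_⟩
    · exact (hsrc s (s, i)).2 ⟨rfl, hi⟩
    · rintro ⟨a, b⟩ hab
      obtain ⟨h1, h2⟩ := (hsrc s (a, b)).1 hab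
      have h1 : s = a := h1
      have h3 : b = i := le_antisymm (h2 i) (hi b)
      rw [← h1, h3]
  refine ⟨fun p q hpq hqp => ?_, fun k hk => hH k (hasSub_forest (hl k) hk),
    fun s => huniq s, fun t => huniq t, ?_⟩
  · rw [out_iff] at hpq hqp
    exact hpq.asymm hqp
  · rintro s t ⟨a, b⟩ ⟨c, d⟩ h1 h2
    have h1 := (hsrc s (a, b)).1 h1
    have h2 := (hsrc t (c, d)).1 h2
    obtain ⟨h3, h4⟩ := h1
    obtain ⟨h5, h6⟩ := h2
    have h3 : s = a := h3
    have h5 : t = c := h5
    subst h3 h5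
    have h7 : b = d := le_antisymm (h4 d) (h6 b)
    subst h7
    rw [out_reach]
    simpa using sarc_reach (E := E) (l := l) h4 s t

end Pool.Agent.Lib.Pe46137h7.Mono
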