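import Pool.Agent.Lib.Pe46137h7.Defs

/-!
# Reachability in digraphs with semicomplete out-neighbourhoods

If any two out-neighbours of a vertex are adjacent then directed reachability can be expressed
by three nested undirected reachability tests.
-/

namespace Pool.Agent.Lib.Pe46137h7

variable {V : Type}

/-- The digraph without the vertices in `X`. -/
def Del (E : V → V → Prop) (X : Set V) (a b : V) : Prop := E a b ∧ a ∉ X ∧ b ∉ X

/-- Directed reachability. -/
abbrev Reach (E : V → V → Prop) : V → V → Prop := Relation.ReflTransGen E

/-- Undirected reachability. -/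
abbrev UReach (E : V → V → Prop) : V → V → Prop :=
  Relation.ReflTransGen fun a b => E a b ∨ E b a

/-- Any two distinct out-neighbours of a vertex are adjacent. -/
def OutSemi (E : V → V → Prop) : Prop := ∀ v a b, E v a → E v b → a ≠ b → Adj E a b

theorem OutSemi.del {E : V → V → Prop} (h : OutSemi E) (X : Set V) : OutSemi (Del E X) := by
  intro v a b ha hb hab
  rcases h v a b ha.1 hb.1 hab with h1 | h1
  · exact Or.inl ⟨h1, ha.2.2, hb.2.2⟩
  · exact Or.inr ⟨h1, hb.2.2, ha.2.2⟩

/-- Walks of length `n`. -/
inductive Walk (E : V → V → Prop) : ℕ → V → V → Prop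
  | nil (a : V) : Walk E 0 a a
  | cons {n : ℕ} {a b c : V} : E a b → Walk E n b c → Walk E (n + 1) a c

theorem reach_iff_walk {E : V → V → Prop} {a b : V} : Reach E a b ↔ ∃ n, Walk E n a b := by
  constructor
  · intro h
    induction h using Relation.ReflTransGen.head_induction_on with
    | refl => exact ⟨0, .nil _⟩
    | head h1 _ ih => obtain ⟨n, hn⟩ := ih; exact ⟨n + 1, .cons h1 hn⟩
  · rintro ⟨n, hn⟩
    induction hn with
    | nil => exact .refl
    | cons h1 _ ih => exact .head h1 ih

/-- **Comparability**: any two vertices reachable from a common vertex are comparable. -/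
theorem OutSemi.comparable {E : V → V → Prop} (h : OutSemi E) {s x y : V}
    (hx : Reach E s x) (hy : Reach E s y) : Reach E x y ∨ Reach E y x := by
  obtain ⟨m, hm⟩ := reach_iff_walk.1 hx
  obtain ⟨n, hn⟩ := reach_iff_walk.1 hy
  clear hx hy
  induction hk : m + n using Nat.strong_induction_on generalizing m n s with
  | _ k ih =>
    cases hm with
    | nil => exact Or.inl (reach_iff_walk.2 ⟨_, hn⟩)
    | @cons m _ a _ hsa hm =>
      cases hn with
      | nil => exact Or.inr (reach_iff_walk.2 ⟨_, .cons hsa hm⟩)
      | @cons n _ b _ hsb hn =>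
        by_cases hab : a = b
        · subst hab
          exact ih (m + n) (by omega) m hm n hn rfl
        · rcases h s a b hsa hsb hab with h1 | h1
          · exact ih (m + (n + 1)) (by omega) m hm (n + 1) (.cons h1 hn) rfl
          · exact ih ((m + 1) + n) (by omega) (m + 1) (.cons h1 hm) n hn rfl

/-- If everything reachable from `t` reaches `t` then directed and undirected reachability
of `t` coincide. -/
theorem OutSemi.reach_of_ureach {E : V → V → Prop} (h : OutSemi E) {t : V}
    (ht : ∀ z, Reach E t z → Reach E z t) {v : V} (hv : UReach E v t) : Reach E v t := by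
  induction hv using Relation.ReflTransGen.head_induction_on with
  | refl => exact .refl
  | @head a b hab _ ih =>
    rcases hab with hab | hab
    · exact .head hab ih
    · rcases h.comparable (.single hab) ih with h1 | h1
      · exact h1
      · exact ht a h1

theorem ureach_of_reach {E : V → V → Prop} {a b : V} (h : Reach E a b) : UReach E a b := by
  induction h with
  | refl => exact .refl
  | tail _ h1 ih => exact ih.tail (Or.inl h1)

/-- `w` is an out-neighbour of `v` that is directly tied back to `v`. -/
def Tied (E : V → V → Prop) (v w : V) : Prop :=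
  E v w ∧ ∃ y, E w y ∧ ¬ E v y ∧ UReach (Del E {z | E v z}) y v

/-- Being in the same strong component, expressed by undirected reachability. -/
def Same (E : V → V → Prop) : V → V → Prop := UReach (Tied E)

theorem Reach.of_del {E : V → V → Prop} {X : Set V} {a b : V} (h : Reach (Del E X) a b) :
    Reach E a b := by
  induction h with
  | refl => exact .refl
  | tail _ h1 ih => exact ih.tail h1.1

/-- A vertex without out-neighbours outside the deleted set reaches only itself. -/
theorem eq_of_reach_sink {E : V → V → Prop} {v z : V}
    (h : Reach (Del E {z | E v z}) v z) : z = v := by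
  rcases Relation.ReflTransGen.cases_head h with h1 | ⟨c, h1, _⟩
  · exact h1.symm
  · exact absurd h1.1 h1.2.2

theorem Tied.reach {E : V → V → Prop} (h : OutSemi E) {v w : V} (hvw : Tied E v w) :
    Reach E w v := by
  obtain ⟨_, y, hwy, _, hy⟩ := hvw
  refine .head hwy (Reach.of_del ((h.del _).reach_of_ureach ?_ hy))
  intro z hz
  rw [eq_of_reach_sink hz]

theorem Same.reach {E : V → V → Prop} (h : OutSemi E) {v w : V} (hvw : Same E v w) :
    Reach E v w ∧ Reach E w v := by
  induction hvw with
  | refl => exact ⟨.refl, .refl⟩
  | @tail a b _ hab ih =>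
    rcases hab with hab | hab
    · exact ⟨ih.1.tail hab.1, (hab.reach h).trans ih.2⟩
    · exact ⟨ih.1.trans (hab.reach h), .head hab.1 ih.2⟩

theorem Same.symm {E : V → V → Prop} {v w : V} (h : Same E v w) : Same E w v := by
  induction h with
  | refl => exact .refl
  | tail _ h1 ih => exact .head h1.symm ih

/-- A shortest path as a function. -/
theorem exists_path {E : V → V → Prop} {a b : V} {n : ℕ} (h : Walk E n a b) :
    ∃ p : ℕ → V, p 0 = a ∧ p n = b ∧ ∀ i < n, E (p i) (p (i + 1)) := by
  induction h with
  | nil a => exact ⟨fun _ => a, rfl, rfl, fun i hi => absurd hi (Nat.not_lt_zero _)⟩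
  | @cons n a b c hab _ ih =>
    obtain ⟨p, h0, h1, h2⟩ := ih
    refine ⟨fun i => if i = 0 then a else p (i - 1), rfl, by simp [h1], ?_⟩
    intro i hi
    by_cases h3 : i = 0
    · subst h3; simpa [h0] using hab
    · have h4 : i + 1 ≠ 0 := by omega
      have h5 : i + 1 - 1 = (i - 1) + 1 := by omega
      simp only [h3, if_false, h4, h5]
      exact h2 (i - 1) (by omega)

theorem walk_of_path {E : V → V → Prop} {p : ℕ → V} {n : ℕ}
    (h : ∀ i < n, E (p i) (p (i + 1))) : ∀ i j, i ≤ j → j ≤ n → Walk E (j - i) (p i) (p j) := by
  intro i j hij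
  obtain ⟨d, rfl⟩ := Nat.exists_eq_add_of_le hij
  clear hij
  induction d generalizing i with
  | zero => intro _; simpa using Walk.nil (p i)
  | succ d ih =>
    intro hn
    have h1 := ih (i + 1) (by omega)
    have h2 : i + 1 + d = i + (d + 1) := by omega
    rw [h2] at h1
    have h3 : i + (d + 1) - (i + 1) = d := by omega
    rw [h3] at h1
    have h4 : i + (d + 1) - i = d + 1 := by omega
    rw [h4]
    exact .cons (h i (by omega)) h1

theorem Walk.append {E : V → V → Prop} {m n : ℕ} {a b c : V} (h1 : Walk E m a b)
    (h2 : Walk E n b c) : Walk E (m + n) a c := by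
  induction h1 with
  | nil => simpa using h2
  | @cons m a b _ hab _ ih =>
    have : m + 1 + n = (m + n) + 1 := by omega
    rw [this]
    exact .cons hab (ih h2)

/-- A walk of minimal length, as a function, with its minimality. -/
theorem exists_shortest {E : V → V → Prop} {a b : V} (h : Reach E a b) :
    ∃ (n : ℕ) (p : ℕ → V), p 0 = a ∧ p n = b ∧ (∀ i < n, E (p i) (p (i + 1))) ∧
      ∀ m, Walk E m a b → n ≤ m := by
  classical
  have hex := reach_iff_walk.1 h
  obtain ⟨p, h0, h1, h2⟩ := exists_path (Nat.find_spec hex)
  exact ⟨Nat.find hex, p, h0, h1, h2, fun m hm => Nat.find_min' hex hm⟩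

/-- On a shortest path there are no forward chords. -/
theorem no_chord {E : V → V → Prop} {a b : V} {n : ℕ} {p : ℕ → V} (h0 : p 0 = a)
    (h1 : p n = b) (h2 : ∀ i < n, E (p i) (p (i + 1))) (hmin : ∀ m, Walk E m a b → n ≤ m)
    {i j : ℕ} (hij : i + 2 ≤ j) (hj : j ≤ n) : ¬ E (p i) (p j) := by
  intro hE
  have w1 := walk_of_path h2 0 i (Nat.zero_le _) (by omega)
  have w2 := walk_of_path h2 j n hj le_rfl
  rw [h0] at w1
  rw [h1] at w2
  have := hmin _ (w1.append (.cons hE w2))
  omega

/-- The vertices of a shortest path are distinct. -/
theorem path_ne {E : V → V → Prop} {a b : V} {n : ℕ} {p : ℕ → V} (h0 : p 0 = a)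
    (h1 : p n = b) (h2 : ∀ i < n, E (p i) (p (i + 1))) (hmin : ∀ m, Walk E m a b → n ≤ m)
    {i j : ℕ} (hij : i < j) (hj : j ≤ n) : p i ≠ p j := by
  intro hE
  have w1 := walk_of_path h2 0 i (Nat.zero_le _) (by omega)
  have w2 := walk_of_path h2 j n hj le_rfl
  rw [h0] at w1
  rw [h1] at w2
  rw [hE] at w1
  have := hmin _ (w1.append w2)
  omega

/-- **Key lemma.**  An arc within a strong component joins vertices related by `Same`. -/
theorem OutSemi.same_of_arc {E : V → V → Prop} (h : OutSemi E) (hirr : ∀ v, ¬ E v v)
    {v w : V} (hvw : E v w) (hr : Reach E w v) : Same E v w := by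
  obtain ⟨n, p, h0, h1, h2, hmin⟩ := exists_shortest hr
  clear hr
  induction n using Nat.strong_induction_on generalizing v w p with
  | _ n ih =>
    classical
    -- the last vertex of the path that is an out-neighbour of `v`
    have hex : ∃ i, i ≤ n ∧ E v (p (n - i)) := ⟨n, le_rfl, by simpa [h0] using hvw⟩
    obtain ⟨hi1, hi2⟩ := Nat.find_spec hex
    set k := Nat.find hex with hk
    have hlast : ∀ j, n - k < j → j ≤ n → ¬ E v (p j) := by
      intro j hj1 hj2 hE
      have := Nat.find_min' hex (m := n - j) ⟨by omega, by
        have : n - (n - j) = j := by omega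
        rwa [this]⟩
      omega
    set i := n - k with hi
    have hin : i < n := by
      rcases Nat.lt_or_ge i n with h3 | h3
      · exact h3
      · exfalso
        have : i = n := by omega
        rw [this, h1] at hi2
        exact hirr v hi2
    -- the part of the path after `p i` avoids the out-neighbours of `v`
    have htail : ∀ (u : V), (∀ j, i < j → j ≤ n → ¬ E u (p j)) →
        ∀ j, i < j → j ≤ n → Reach (Del E {z | E u z}) (p j) v := by
      intro u hu j hj1 hj2
      obtain ⟨d, hd⟩ := Nat.exists_eq_add_of_le hj2
      induction d generalizing j with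
      | zero => rw [show j = n by omega, h1]
      | succ d ihd =>
        refine .head ⟨h2 j (by omega), hu j hj1 hj2, hu (j + 1) (by omega) (by omega)⟩ ?_
        exact ihd (j + 1) (by omega) (by omega) (by omega)
    have htied : Tied E v (p i) := by
      refine ⟨hi2, p (i + 1), h2 i hin, hlast _ (by omega) (by omega), ?_⟩
      exact ureach_of_reach (htail v (fun j hj1 hj2 => hlast j hj1 hj2) (i + 1)
        (by omega) (by omega))
    have hstep : Same E v (p i) := .single (Or.inl htied)
    rcases Nat.lt_or_ge i 1 with hi0 | hi0
    · have : i = 0 := by omega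
      rwa [this, h0] at hstep
    rcases Nat.lt_or_ge i 2 with hi3 | hi3
    · -- `i = 1`
      have hi4 : i = 1 := by omega
      have hwp : E w (p i) := by
        have := h2 0 (by omega)
        rw [h0] at this
        rw [hi4]
        exact this
      have hno : ∀ j, i < j → j ≤ n → ¬ E w (p j) := by
        intro j hj1 hj2
        have := no_chord h0 h1 h2 hmin (i := 0) (j := j) (by omega) hj2
        rwa [h0] at this
      have hwv : ¬ E w v := by
        have := hno n (by omega) le_rfl
        rwa [h1] at this
      have hww : ¬ E w w := hirr w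
      have htied2 : Tied E w (p i) := by
        refine ⟨hwp, p (i + 1), h2 i hin, hno _ (by omega) (by omega), ?_⟩
        have h3 := htail w hno (i + 1) (by omega) (by omega)
        exact ureach_of_reach (h3.tail ⟨hvw, hwv, hww⟩)
      exact Relation.ReflTransGen.trans hstep (.single (Or.inr htied2))
    · -- `i ≥ 2`
      have hne : p 0 ≠ p i := path_ne h0 h1 h2 hmin (by omega) (by omega)
      have hnE : ¬ E (p 0) (p i) := no_chord h0 h1 h2 hmin (by omega) (by omega)
      rw [h0] at hne hnE
      have hpw : E (p i) w := by
        rcases h v w (p i) hvw hi2 hne with h3 | h3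
        · exact absurd h3 hnE
        · exact h3
      -- the initial part of the path is a shortest path from `w` to `p i`
      have hmin' : ∀ m, Walk E m w (p i) → i ≤ m := by
        intro m hm
        have w2 := walk_of_path h2 i n (by omega) le_rfl
        rw [h1] at w2
        have := hmin _ (hm.append w2)
        omega
      have h3 := ih i hin hpw p h0 rfl (fun j hj => h2 j (by omega)) hmin'
      exact Relation.ReflTransGen.trans hstep h3

/-- `Same` is the relation of lying in the same strong component. -/
theorem OutSemi.same_iff {E : V → V → Prop} (h : OutSemi E) (hirr : ∀ v, ¬ E v v) {v w : V} :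
    Same E v w ↔ Reach E v w ∧ Reach E w v := by
  constructor
  · exact Same.reach h
  · rintro ⟨h1, h2⟩
    induction h1 using Relation.ReflTransGen.head_induction_on with
    | refl => exact .refl
    | @head a b hab hbw ih =>
      exact Relation.ReflTransGen.trans (h.same_of_arc hirr hab (hbw.trans h2)) (ih (h2.tail hab))

/-- The exits of the strong component of `t`. -/
def Exit (E : V → V → Prop) (t : V) : Set V := {x | E t x ∧ ¬ Same E t x}

/-- **Directed reachability from undirected reachability.** -/
theorem OutSemi.reach_iff {E : V → V → Prop} (h : OutSemi E) (hirr : ∀ v, ¬ E v v) {s t : V} :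
    Reach E s t ↔ s ∉ Exit E t ∧ UReach (Del E (Exit E t)) s t := by
  have hexit : ∀ x, x ∈ Exit E t → ¬ Reach E x t := fun x hx hxt =>
    hx.2 ((h.same_iff hirr).2 ⟨.single hx.1, hxt⟩)
  constructor
  · intro hst
    refine ⟨fun hs => hexit s hs hst, ureach_of_reach ?_⟩
    induction hst using Relation.ReflTransGen.head_induction_on with
    | refl => exact .refl
    | @head a b hab hbt ih =>
      exact .head ⟨hab, fun ha => hexit a ha (.head hab hbt), fun hb => hexit b hb hbt⟩ ih
  · rintro ⟨_, hst⟩
    refine Reach.of_del ((h.del _).reach_of_ureach ?_ hst)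
    -- the component of `t` is closed after deletion of the exits
    have hdom : ∀ k x, Reach E t k → Reach E k t → E k x → ¬ Reach E x t → E t x := by
      intro k x htk hkt hkx hx
      induction hkt using Relation.ReflTransGen.head_induction_on with
      | refl => exact hkx
      | @head a b hab hbt ih =>
        refine ih (htk.tail hab) ?_
        have hxb : x ≠ b := fun e => hx (e ▸ hbt)
        rcases h a x b hkx hab hxb with h1 | h1
        · exact absurd (.head h1 hbt) hx
        · exact h1
    intro z hz
    have hzt : Reach E z t := by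
      induction hz with
      | refl => exact .refl
      | @tail a b hta hab ih =>
        by_contra hbt
        refine hab.2.2 ⟨hdom a b (Reach.of_del hta) ih hab.1 hbt, fun hs => ?_⟩
        exact hbt ((h.same_iff hirr).1 hs).2
    clear hz
    induction hzt using Relation.ReflTransGen.head_induction_on with
    | refl => exact .refl
    | @head a b hab hbt ih =>
      exact .head ⟨hab, fun ha => hexit a ha (.head hab hbt), fun hb => hexit b hb hbt⟩ ih

end Pool.Agent.Lib.Pe46137h7
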