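import Pool.Agent.Lib.Pe46137h7.Logic

/-!
# Definable relations of higher arity, and replacement of the arc relation
-/

namespace Pool.Agent.Lib.Pe46137h7

/-- Relations of arity `n` on the vertices of digraphs that are expressible in first-order logic
with symmetric transitive closure over the arc relation. -/
def DefN (n : ℕ) (P : ∀ V : Type, (V → V → Prop) → (Fin n → V) → Prop) : Prop :=
  ∃ φ : Fml Unit n, ∀ (V : Type) (E : V → V → Prop) (a : Fin n → V),
    Sat (fun _ => E) φ a ↔ P V E a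

namespace DefN

variable {n m : ℕ} {P Q : ∀ V : Type, (V → V → Prop) → (Fin n → V) → Prop}

theorem congr (h : DefN n P) (hPQ : ∀ V E a, P V E a ↔ Q V E a) : DefN n Q := by
  obtain ⟨φ, hφ⟩ := h
  exact ⟨φ, fun V E a => (hφ V E a).trans (hPQ V E a)⟩

theorem of2 {P : ∀ V : Type, (V → V → Prop) → V → V → Prop} (h : Def2 P) (i j : Fin n) :
    DefN n fun V E a => P V E (a i) (a j) := by
  obtain ⟨φ, hφ⟩ := h
  refine ⟨φ.rename ![i, j], fun V E a => ?_⟩
  have : a ∘ ![i, j] = pair (a i) (a j) := by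
    funext k
    fin_cases k <;> rfl
  rw [sat_rename, this]
  exact hφ V E (a i) (a j)

theorem to2 {P : ∀ V : Type, (V → V → Prop) → V → V → Prop}
    (h : DefN 2 fun V E a => P V E (a 0) (a 1)) : Def2 P := by
  obtain ⟨φ, hφ⟩ := h
  exact ⟨φ, fun V E x y => hφ V E (pair x y)⟩

theorem not (h : DefN n P) : DefN n fun V E a => ¬ P V E a := by
  obtain ⟨φ, hφ⟩ := h
  exact ⟨.neg φ, fun V E a => not_congr (hφ V E a)⟩

theorem and (hP : DefN n P) (hQ : DefN n Q) : DefN n fun V E a => P V E a ∧ Q V E a := by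
  obtain ⟨φ, hφ⟩ := hP
  obtain ⟨ψ, hψ⟩ := hQ
  exact ⟨.and φ ψ, fun V E a => and_congr (hφ V E a) (hψ V E a)⟩

theorem or (hP : DefN n P) (hQ : DefN n Q) : DefN n fun V E a => P V E a ∨ Q V E a :=
  (hP.not.and hQ.not).not.congr fun V E a => by tauto

theorem ex {P : ∀ V : Type, (V → V → Prop) → (Fin (n + 1) → V) → Prop} (h : DefN (n + 1) P) :
    DefN n fun V E a => ∃ v, P V E (ext a v) := by
  obtain ⟨φ, hφ⟩ := h
  exact ⟨.ex φ, fun V E a => exists_congr fun v => hφ V E (ext a v)⟩

theorem rename (h : DefN n P) (f : Fin n → Fin m) : DefN m fun V E a => P V E (a ∘ f) := by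
  obtain ⟨φ, hφ⟩ := h
  refine ⟨φ.rename f, fun V E a => ?_⟩
  rw [sat_rename, hφ]

theorem stc {P : ∀ V : Type, (V → V → Prop) → (Fin (n + 2) → V) → Prop} (h : DefN (n + 2) P)
    (i j : Fin n) : DefN n fun V E a => Relation.ReflTransGen
      (fun p q => P V E (ext (ext a p) q) ∨ P V E (ext (ext a q) p)) (a i) (a j) := by
  obtain ⟨φ, hφ⟩ := h
  refine ⟨.stc φ i j, fun V E a => ?_⟩
  have : (fun p q => Sat (fun _ => E) φ (ext (ext a p) q) ∨
      Sat (fun _ => E) φ (ext (ext a q) p)) =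
      fun p q => P V E (ext (ext a p) q) ∨ P V E (ext (ext a q) p) := by
    funext p q
    rw [hφ, hφ]
  simp only [Sat]
  rw [this]

end DefN

/-! ### Replacing the arc relation by a definable relation with one parameter -/

/-- Replacement of the arc relation by the relation defined by `ψ` from a parameter, which
becomes the first variable. -/
def Fml.sub (ψ : Fml Unit 3) : {n : ℕ} → Fml Unit n → Fml Unit (n + 1)
  | _, .rel _ i j => ψ.rename ![0, i.succ, j.succ]
  | _, .eq i j => .eq i.succ j.succ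
  | _, .neg φ => .neg (Fml.sub ψ φ)
  | _, .and φ χ => .and (Fml.sub ψ φ) (Fml.sub ψ χ)
  | _, .ex φ => .ex (Fml.sub ψ φ)
  | _, .stc φ i j => .stc (Fml.sub ψ φ) i.succ j.succ

/-- A tuple with a parameter in front. -/
def cons {V : Type} {n : ℕ} (p : V) (a : Fin n → V) : Fin (n + 1) → V :=
  Fin.cons (α := fun _ => V) p a

theorem ext_cons {V : Type} {n : ℕ} (p : V) (a : Fin n → V) (v : V) :
    ext (cons p a) v = cons p (ext a v) :=
  (Fin.cons_snoc_eq_snoc_cons (β := V) p a v).symm

theorem sat_sub {V : Type} (E : V → V → Prop) (ψ : Fml Unit 3) {n : ℕ} (φ : Fml Unit n) :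
    ∀ (p : V) (a : Fin n → V), Sat (fun _ => E) (Fml.sub ψ φ) (cons p a) ↔
      Sat (fun _ => fun x y => Sat (fun _ => E) ψ ![p, x, y]) φ a := by
  induction φ with
  | rel r i j =>
    intro p a
    simp only [Fml.sub, Sat]
    rw [sat_rename]
    have : cons p a ∘ ![0, i.succ, j.succ] = ![p, a i, a j] := by
      funext k
      fin_cases k
      · rfl
      · simp [cons]
      · simp [cons]
    rw [this]
  | eq i j =>
    intro p a
    simp [Fml.sub, Sat, cons]
  | neg φ ih => intro p a; exact not_congr (ih p a)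
  | and φ χ ih1 ih2 => intro p a; exact and_congr (ih1 p a) (ih2 p a)
  | ex φ ih =>
    intro p a
    refine exists_congr fun v => ?_
    rw [ext_cons]
    exact ih p (ext a v)
  | stc φ i j ih =>
    intro p a
    have : (fun x y => Sat (fun _ => E) (Fml.sub ψ φ) (ext (ext (cons p a) x) y) ∨
        Sat (fun _ => E) (Fml.sub ψ φ) (ext (ext (cons p a) y) x)) = fun x y =>
        Sat (fun _ => fun x y => Sat (fun _ => E) ψ ![p, x, y]) φ (ext (ext a x) y) ∨
          Sat (fun _ => fun x y => Sat (fun _ => E) ψ ![p, x, y]) φ (ext (ext a y) x) := by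
      funext x y
      rw [ext_cons, ext_cons, ext_cons, ext_cons, ih, ih]
    simp only [Fml.sub, Sat, cons, Fin.cons_succ]
    simp only [cons] at this
    rw [this]

/-- Replacement of the arc relation in a definable binary relation. -/
theorem DefN.sub {P : ∀ V : Type, (V → V → Prop) → V → V → Prop} (hP : Def2 P)
    {Q : ∀ V : Type, (V → V → Prop) → V → V → V → Prop}
    (hQ : DefN 3 fun V E a => Q V E (a 0) (a 1) (a 2)) :
    DefN 3 fun V E a => P V (Q V E (a 0)) (a 1) (a 2) := by
  obtain ⟨φ, hφ⟩ := hP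
  obtain ⟨ψ, hψ⟩ := hQ
  refine ⟨Fml.sub ψ φ, fun V E a => ?_⟩
  have h1 : a = cons (a 0) (pair (a 1) (a 2)) := by
    funext k
    fin_cases k <;> rfl
  have h2 : (fun x y => Sat (fun _ => E) ψ ![a 0, x, y]) = Q V E (a 0) := by
    funext x y
    rw [hψ]
    rfl
  refine Iff.trans ?_ (hφ V (Q V E (a 0)) (a 1) (a 2))
  rw [← h2]
  conv_lhs => rw [h1]
  exact sat_sub E ψ φ (a 0) (pair (a 1) (a 2))

end Pool.Agent.Lib.Pe46137h7
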