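import Mathlib

/-!
# Definitions: digraphs avoiding a digraph, first-order logic with symmetric transitive closure,
# first-order reductions
-/

namespace Pool.Agent.Lib.Pe46137h7

/-! ### Digraphs -/

/-- Adjacency in either direction. -/
def Adj {V : Type} (E : V → V → Prop) (a b : V) : Prop := E a b ∨ E b a

/-- The digraph `E` avoids the digraph `H`: there is no injective map sending arcs of `H` to
arcs of `E` and pairs of distinct non-adjacent vertices of `H` to non-adjacent vertices. -/
def Avoids {h : ℕ} (H : Fin h → Fin h → Prop) {V : Type} (E : V → V → Prop) : Prop :=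
  ¬ ∃ f : Fin h → V, Function.Injective f ∧ (∀ i j, H i j → E (f i) (f j)) ∧
    ∀ i j, i ≠ j → ¬ Adj H i j → ¬ Adj E (f i) (f j)

/-! ### First-order logic with symmetric transitive closure -/

/-- Formulas of first-order logic with symmetric transitive closure, over the set `ρ` of
binary relation symbols, with free variables among the elements of `Fin n`. -/
inductive Fml (ρ : Type) : ℕ → Type
  | rel {n : ℕ} (r : ρ) (i j : Fin n) : Fml ρ n
  | eq {n : ℕ} (i j : Fin n) : Fml ρ n
  | neg {n : ℕ} (φ : Fml ρ n) : Fml ρ n
  | and {n : ℕ} (φ ψ : Fml ρ n) : Fml ρ n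
  | ex {n : ℕ} (φ : Fml ρ (n + 1)) : Fml ρ n
  | stc {n : ℕ} (φ : Fml ρ (n + 2)) (i j : Fin n) : Fml ρ n

/-- Extension of a tuple by one entry at the end. -/
def ext {V : Type} {n : ℕ} (a : Fin n → V) (v : V) : Fin (n + 1) → V :=
  Fin.snoc (α := fun _ => V) a v

/-- Satisfaction.  The formula `ex φ` says that some value of the last variable satisfies `φ`;
`stc φ i j` says that the values of the variables `i` and `j` are joined by a chain in which
any two consecutive vertices, in one of the two orders, satisfy `φ` as values of the last two
variables. -/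
def Sat {ρ V : Type} (R : ρ → V → V → Prop) : {n : ℕ} → Fml ρ n → (Fin n → V) → Prop
  | _, .rel r i j, a => R r (a i) (a j)
  | _, .eq i j, a => a i = a j
  | _, .neg φ, a => ¬ Sat R φ a
  | _, .and φ ψ, a => Sat R φ a ∧ Sat R ψ a
  | _, .ex φ, a => ∃ v, Sat R φ (ext a v)
  | _, .stc φ i j, a => Relation.ReflTransGen
      (fun p q => Sat R φ (ext (ext a p) q) ∨ Sat R φ (ext (ext a q) p)) (a i) (a j)

/-- First-order formulas: those without the closure operator. -/
def Fml.FirstOrder {ρ : Type} : {n : ℕ} → Fml ρ n → Prop
  | _, .rel _ _ _ => True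
  | _, .eq _ _ => True
  | _, .neg φ => φ.FirstOrder
  | _, .and φ ψ => φ.FirstOrder ∧ ψ.FirstOrder
  | _, .ex φ => φ.FirstOrder
  | _, .stc _ _ _ => False

/-! ### First-order reductions -/

/-- The vocabulary of ordered digraphs. -/
inductive OrdVoc
  | arc
  | lt

/-- An ordered digraph as a structure. -/
def ordStr {V : Type} [LinearOrder V] (E : V → V → Prop) : OrdVoc → V → V → Prop
  | .arc => E
  | .lt => fun x y => x < y

/-- A first-order reduction: a two-dimensional first-order interpretation with finitely many
copies, together with first-order definitions of the new source and the new target. -/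
structure Reduction where
  /-- the number of copies -/
  copies : ℕ
  /-- arcs from one copy to another; the variables `0, 1` are the first vertex and the
  variables `2, 3` are the second one -/
  arc : Fin copies → Fin copies → Fml OrdVoc 4
  /-- the new source `(1, 2)` from the old source `0` -/
  src : Fml OrdVoc 3
  /-- the new target `(1, 2)` from the old target `0` -/
  tgt : Fml OrdVoc 3
  /-- the copy holding the new source -/
  srcCopy : Fin copies
  /-- the copy holding the new target -/
  tgtCopy : Fin copies
  arc_fo : ∀ i j, (arc i j).FirstOrder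
  src_fo : src.FirstOrder
  tgt_fo : tgt.FirstOrder

/-- The digraph produced from an ordered digraph. -/
def Reduction.out (r : Reduction) {V : Type} [LinearOrder V] (E : V → V → Prop)
    (p q : Fin r.copies × V × V) : Prop :=
  Sat (ordStr E) (r.arc p.1 q.1) ![p.2.1, p.2.2, q.2.1, q.2.2]

/-- The pair `x` is the new source for the source `s`. -/
def Reduction.IsSrc (r : Reduction) {V : Type} [LinearOrder V] (E : V → V → Prop)
    (s : V) (x : V × V) : Prop := Sat (ordStr E) r.src ![s, x.1, x.2]

/-- The pair `y` is the new target for the target `t`. -/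
def Reduction.IsTgt (r : Reduction) {V : Type} [LinearOrder V] (E : V → V → Prop)
    (t : V) (y : V × V) : Prop := Sat (ordStr E) r.tgt ![t, y.1, y.2]

/-- `r` reduces reachability on all finite digraphs, given with a linear order of the vertices,
to reachability on finite oriented graphs satisfying `C`. -/
def Reduction.Reduces (r : Reduction)
    (C : ∀ W : Type, (W → W → Prop) → Prop) : Prop :=
  ∀ (V : Type) [Finite V] [LinearOrder V] (E : V → V → Prop),
    (∀ p q, r.out E p q → ¬ r.out E q p) ∧ C _ (r.out E) ∧
    (∀ s, ∃! x, r.IsSrc E s x) ∧ (∀ t, ∃! y, r.IsTgt E t y) ∧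
    ∀ s t x y, r.IsSrc E s x → r.IsTgt E t y →
      (Relation.ReflTransGen (r.out E) (r.srcCopy, x) (r.tgtCopy, y) ↔
        Relation.ReflTransGen E s t)

end Pool.Agent.Lib.Pe46137h7
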