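import Pool.Agent.Lib.Pe46137h7.PathsMain

/-!
# First-order reductions from reachability to reachability on restricted digraphs
-/

namespace Pool.Agent.Lib.Pe46137h7

/-- Falsity. -/
def Fml.bot {ρ : Type} {n : ℕ} : Fml ρ (n + 1) := .neg (.eq 0 0)

/-- Disjunction. -/
def Fml.or {ρ : Type} {n : ℕ} (φ ψ : Fml ρ n) : Fml ρ n := .neg (.and (.neg φ) (.neg ψ))

theorem sat_bot {ρ V : Type} (R : ρ → V → V → Prop) {n : ℕ} (a : Fin (n + 1) → V) :
    ¬ Sat R Fml.bot a := fun h => h rfl

theorem sat_or {ρ V : Type} (R : ρ → V → V → Prop) {n : ℕ} (φ ψ : Fml ρ n) (a : Fin n → V) :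
    Sat R (φ.or ψ) a ↔ Sat R φ a ∨ Sat R ψ a := by
  simp only [Fml.or, Sat]
  tauto

/-! ### Triangles for vertices -/

/-- The arc formulas of the reduction replacing every vertex by a directed triangle. -/
def blobArc : Fin 3 → Fin 3 → Fml OrdVoc 4
  | 0, 1 => .and (.eq 0 1) (.and (.eq 2 3) (.eq 0 2))
  | 1, 2 => .and (.eq 0 1) (.and (.eq 2 3) (.eq 0 2))
  | 2, 0 => .and (.eq 0 1) (.and (.eq 2 3) (.or (.eq 0 2) (.rel .arc 0 2)))
  | _, _ => .bot

/-- Every vertex `v` becomes a directed triangle; arcs `u → v` go from the last vertex of the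
triangle of `u` to the first vertex of the triangle of `v`. -/
abbrev blob : Reduction where
  copies := 3
  arc := blobArc
  src := .and (.eq 0 1) (.eq 1 2)
  tgt := .and (.eq 0 1) (.eq 1 2)
  srcCopy := 0
  tgtCopy := 0
  arc_fo := by
    intro i j
    fin_cases i <;> fin_cases j <;> simp [blobArc, Fml.FirstOrder, Fml.bot, Fml.or]
  src_fo := by simp [Fml.FirstOrder]
  tgt_fo := by simp [Fml.FirstOrder]

section Blob

variable {V : Type} [LinearOrder V] {E : V → V → Prop}

theorem blob_out_iff (p q : Fin 3 × V × V) : blob.out E p q ↔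
    p.2.1 = p.2.2 ∧ q.2.1 = q.2.2 ∧
      ((p.1 = 0 ∧ q.1 = 1 ∧ p.2.1 = q.2.1) ∨ (p.1 = 1 ∧ q.1 = 2 ∧ p.2.1 = q.2.1) ∨
        (p.1 = 2 ∧ q.1 = 0 ∧ (p.2.1 = q.2.1 ∨ E p.2.1 q.2.1))) := by
  obtain ⟨i, a, b⟩ := p
  obtain ⟨j, c, d⟩ := q
  unfold Reduction.out
  fin_cases i <;> fin_cases j <;>
    simp [blobArc, Sat, Fml.bot, sat_or, ordStr]

theorem blob_oriented (p q : Fin 3 × V × V) (h : blob.out E p q) : ¬ blob.out E q p := by
  rw [blob_out_iff] at h ⊢
  rintro ⟨_, _, h'⟩
  obtain ⟨_, _, h⟩ := h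
  rcases h with ⟨h1, h2, _⟩ | ⟨h1, h2, _⟩ | ⟨h1, h2, _⟩ <;>
    rcases h' with ⟨h3, h4, _⟩ | ⟨h3, h4, _⟩ | ⟨h3, h4, _⟩ <;>
      first
        | exact absurd (h1.symm.trans h4) (by decide)
        | exact absurd (h2.symm.trans h3) (by decide)

/-- Among any four consecutive arcs there are two consecutive ones inside a triangle. -/
theorem blob_chord (x : ℕ → Fin 3 × V × V) (h : ∀ i < 4, blob.out E (x i) (x (i + 1))) :
    ∃ i, i + 2 ≤ 4 ∧ blob.out E (x (i + 2)) (x i) := by
  have key : ∀ i, i + 2 ≤ 4 → (x i).1 = 0 → blob.out E (x (i + 2)) (x i) := by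
    intro i hi h0
    have h1 := (blob_out_iff _ _).1 (h i (by omega))
    have h2 := (blob_out_iff _ _).1 (h (i + 1) (by omega))
    obtain ⟨h3, h4, h5⟩ := h1
    obtain ⟨_, h6, h7⟩ := h2
    rcases h5 with ⟨_, h9, h10⟩ | ⟨h8, _, _⟩ | ⟨h8, _, _⟩
    · rcases h7 with ⟨h11, _, _⟩ | ⟨_, h12, h13⟩ | ⟨h11, _, _⟩
      · rw [h9] at h11; exact absurd h11 (by decide)
      · rw [blob_out_iff]
        exact ⟨h6, h3, Or.inr (Or.inr ⟨h12, h0, Or.inl (h10.trans h13).symm⟩)⟩
      · rw [h9] at h11; exact absurd h11 (by decide)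
    · rw [h0] at h8; exact absurd h8 (by decide)
    · rw [h0] at h8; exact absurd h8 (by decide)
  have hnext : ∀ i < 4, ((x i).1 = 0 ∧ (x (i + 1)).1 = 1) ∨ ((x i).1 = 1 ∧ (x (i + 1)).1 = 2) ∨
      ((x i).1 = 2 ∧ (x (i + 1)).1 = 0) := by
    intro i hi
    obtain ⟨_, _, h5⟩ := (blob_out_iff _ _).1 (h i hi)
    rcases h5 with ⟨h1, h2, _⟩ | ⟨h1, h2, _⟩ | ⟨h1, h2, _⟩
    · exact Or.inl ⟨h1, h2⟩
    · exact Or.inr (Or.inl ⟨h1, h2⟩)
    · exact Or.inr (Or.inr ⟨h1, h2⟩)
  rcases hnext 0 (by omega) with ⟨h1, _⟩ | ⟨h1, h2⟩ | ⟨h1, h2⟩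
  · exact ⟨0, by omega, key 0 (by omega) h1⟩
  · rcases hnext 1 (by omega) with ⟨h3, _⟩ | ⟨h3, _⟩ | ⟨_, h4⟩
    · simp only [zero_add] at h2
      rw [h2] at h3; exact absurd h3 (by decide)
    · simp only [zero_add] at h2
      rw [h2] at h3; exact absurd h3 (by decide)
    · exact ⟨2, by omega, key 2 (by omega) h4⟩
  · exact ⟨1, by omega, key 1 (by omega) h2⟩

theorem blob_reach (s t : V) :
    Relation.ReflTransGen (blob.out E) (0, s, s) (0, t, t) ↔ Relation.ReflTransGen E s t := by
  constructor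
  · intro h
    have key : ∀ p q : Fin 3 × V × V, Relation.ReflTransGen (blob.out E) p q →
        Relation.ReflTransGen E p.2.1 q.2.1 := by
      intro p q h
      induction h with
      | refl => exact .refl
      | tail _ h1 ih =>
        obtain ⟨_, _, h2⟩ := (blob_out_iff _ _).1 h1
        rcases h2 with ⟨_, _, h3⟩ | ⟨_, _, h3⟩ | ⟨_, _, h3 | h3⟩
        · rwa [← h3]
        · rwa [← h3]
        · rwa [← h3]
        · exact ih.tail h3
    exact key _ _ h
  · intro h
    induction h with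
    | refl => exact .refl
    | @tail b c _ h1 ih =>
      have e1 : blob.out E (0, b, b) (1, b, b) := (blob_out_iff _ _).2 (by simp)
      have e2 : blob.out E (1, b, b) (2, b, b) := (blob_out_iff _ _).2 (by simp)
      have e3 : blob.out E (2, b, b) (0, c, c) := (blob_out_iff _ _).2 (by simp [h1])
      exact ((ih.tail e1).tail e2).tail e3

end Blob

/-- Every digraph with a walk with four arcs whose vertices at distance two along the walk are
distinct and non-adjacent is avoided by the output of `blob`. -/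
theorem blob_reduces {h : ℕ} {H : Fin h → Fin h → Prop} (x : ℕ → Fin h)
    (hx : ∀ i < 4, H (x i) (x (i + 1)))
    (hx2 : ∀ i, i + 2 ≤ 4 → x (i + 2) ≠ x i ∧ ¬ Adj H (x (i + 2)) (x i)) :
    blob.Reduces fun _ F => Avoids H F := by
  intro V _ _ E
  refine ⟨fun p q => blob_oriented p q, ?_, ?_, ?_, ?_⟩
  · rintro ⟨f, _, hf1, hf2⟩
    obtain ⟨i, hi, hE⟩ := blob_chord (fun i => f (x i)) fun i hi => hf1 _ _ (hx i hi)
    exact hf2 _ _ (hx2 i hi).1 (hx2 i hi).2 (Or.inl hE)
  · intro s
    refine ⟨(s, s), ?_, ?_⟩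
    · simp [Reduction.IsSrc, Sat]
    · rintro ⟨a, b⟩ hab
      simp only [Reduction.IsSrc, Sat] at hab
      obtain ⟨h1, h2⟩ := hab
      have h1 : s = a := h1
      have h2 : a = b := h2
      rw [← h2, ← h1]
  · intro s
    refine ⟨(s, s), ?_, ?_⟩
    · simp [Reduction.IsTgt, Sat]
    · rintro ⟨a, b⟩ hab
      simp only [Reduction.IsTgt, Sat] at hab
      obtain ⟨h1, h2⟩ := hab
      have h1 : s = a := h1
      have h2 : a = b := h2
      rw [← h2, ← h1]
  · rintro s t ⟨a, b⟩ ⟨c, d⟩ h1 h2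
    simp only [Reduction.IsSrc, Sat] at h1
    simp only [Reduction.IsTgt, Sat] at h2
    obtain ⟨h3, h4⟩ := h1
    obtain ⟨h5, h6⟩ := h2
    have h3 : s = a := h3
    have h4 : a = b := h4
    have h5 : t = c := h5
    have h6 : c = d := h6
    subst h3 h4 h5 h6
    exact blob_reach s t

/-! ### Layered copies -/

/-- The product with the linear order: `(v, i) → (w, j)` when `j` covers `i` and `v → w` is an
arc or `v = w`. -/
abbrev layer : Reduction where
  copies := 1
  arc := fun _ _ => .and (.or (.rel .arc 0 2) (.eq 0 2))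
    (.and (.rel .lt 1 3) (.neg (.ex (.and (.rel .lt 1 4) (.rel .lt 4 3)))))
  src := .and (.eq 0 1) (.neg (.ex (.rel .lt 3 2)))
  tgt := .and (.eq 0 1) (.neg (.ex (.rel .lt 2 3)))
  srcCopy := 0
  tgtCopy := 0
  arc_fo := by intro i j; simp [Fml.FirstOrder, Fml.or]
  src_fo := by simp [Fml.FirstOrder]
  tgt_fo := by simp [Fml.FirstOrder]

section Layer

variable {V : Type} [LinearOrder V] {E : V → V → Prop}

theorem layer_out_iff (p q : Fin 1 × V × V) : layer.out E p q ↔
    (E p.2.1 q.2.1 ∨ p.2.1 = q.2.1) ∧ p.2.2 < q.2.2 ∧ ¬ ∃ k, p.2.2 < k ∧ k < q.2.2 := by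
  unfold Reduction.out
  simp only [layer, Sat, sat_or]
  rfl

theorem layer_reach_of (s t i j : V)
    (h : Relation.ReflTransGen (layer.out E) (0, s, i) (0, t, j)) :
    Relation.ReflTransGen E s t := by
  have key : ∀ p q : Fin 1 × V × V, Relation.ReflTransGen (layer.out E) p q →
      Relation.ReflTransGen E p.2.1 q.2.1 := by
    intro p q h
    induction h with
    | refl => exact .refl
    | tail _ h1 ih =>
      obtain ⟨h2, _⟩ := (layer_out_iff _ _).1 h1
      rcases h2 with h2 | h2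
      · exact ih.tail h2
      · rwa [← h2]
  exact key _ _ h

theorem layer_reach [Finite V] (s t i j : V) (hi : ∀ k, i ≤ k) (hj : ∀ k, k ≤ j)
    (h : Relation.ReflTransGen E s t) :
    Relation.ReflTransGen (layer.out E) (0, s, i) (0, t, j) := by
  classical
  have := Fintype.ofFinite V
  obtain ⟨d, p, h0, h1, h2, hmin⟩ := exists_shortest h
  obtain ⟨e⟩ : Nonempty (Fin (Fintype.card V) ≃o V) :=
    ⟨Fintype.orderIsoFinOfCardEq V rfl⟩
  have hpos : 0 < Fintype.card V := Fintype.card_pos_iff.2 ⟨s⟩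
  -- a shortest path has at most `card V` vertices
  have hd : d + 1 ≤ Fintype.card V := by
    have hinj : Function.Injective fun a : Fin (d + 1) => p a.val := by
      intro a b hab
      rcases lt_trichotomy a b with h3 | h3 | h3
      · exact absurd hab (path_ne h0 h1 h2 hmin h3 (by omega))
      · exact h3
      · exact absurd hab.symm (path_ne h0 h1 h2 hmin h3 (by omega))
    simpa using Fintype.card_le_of_injective _ hinj
  have hei : e ⟨0, hpos⟩ = i := by
    refine le_antisymm ?_ (hi _)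
    have : (⟨0, hpos⟩ : Fin (Fintype.card V)) ≤ e.symm i := Fin.mk_le_of_le_val (Nat.zero_le _)
    simpa using e.monotone this
  have hej : e ⟨Fintype.card V - 1, by omega⟩ = j := by
    refine le_antisymm (hj _) ?_
    have : e.symm j ≤ (⟨Fintype.card V - 1, by omega⟩ : Fin (Fintype.card V)) := by
      have := (e.symm j).2
      rw [Fin.le_def]
      simp only
      omega
    simpa using e.monotone this
  have key : ∀ k (hk : k < Fintype.card V),
      Relation.ReflTransGen (layer.out E) (0, s, i) (0, p (min k d), e ⟨k, hk⟩) := by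
    intro k
    induction k with
    | zero =>
      intro hk
      rw [Nat.zero_min, h0, hei]
    | succ k ih =>
      intro hk
      refine (ih (by omega)).tail ((layer_out_iff _ _).2 ⟨?_, ?_, ?_⟩)
      · simp only
        rcases Nat.lt_or_ge k d with h3 | h3
        · left
          have := h2 k h3
          rwa [Nat.min_eq_left (by omega), Nat.min_eq_left (by omega)]
        · right
          rw [Nat.min_eq_right h3, Nat.min_eq_right (by omega)]
      · simp only
        exact e.strictMono (Fin.mk_lt_mk.2 (Nat.lt_succ_self k))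
      · rintro ⟨z, hz1, hz2⟩
        simp only at hz1 hz2
        have h3 : (⟨k, by omega⟩ : Fin (Fintype.card V)) < e.symm z := by
          rw [OrderIso.lt_symm_apply]; exact hz1
        have h4 : e.symm z < (⟨k + 1, hk⟩ : Fin (Fintype.card V)) := by
          rw [OrderIso.symm_apply_lt]; exact hz2
        rw [Fin.lt_def] at h3 h4
        simp only at h3 h4
        omega
  have := key (Fintype.card V - 1) (by omega)
  rw [Nat.min_eq_right (by omega), h1, hej] at this
  exact this

end Layer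

/-- Every digraph with a closed walk is avoided by the output of `layer`. -/
theorem layer_reduces {h : ℕ} {H : Fin h → Fin h → Prop} {a : Fin h} {k : ℕ}
    (hw : Walk H (k + 1) a a) : layer.Reduces fun _ F => Avoids H F := by
  intro V _ _ E
  have hlt : ∀ p q : Fin 1 × V × V, layer.out E p q → p.2.2 < q.2.2 := fun p q h =>
    ((layer_out_iff _ _).1 h).2.1
  refine ⟨fun p q h h' => lt_asymm (hlt _ _ h) (hlt _ _ h'), ?_, ?_, ?_, ?_⟩
  · rintro ⟨f, _, hf1, _⟩
    have key : ∀ n (a b : Fin h), Walk H (n + 1) a b → (f a).2.2 < (f b).2.2 := by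
      intro n
      induction n with
      | zero =>
        intro a b hab
        cases hab with
        | cons h1 h2 => cases h2 with
          | nil => exact hlt _ _ (hf1 _ _ h1)
      | succ n ih =>
        intro a b hab
        cases hab with
        | cons h1 h2 => exact (hlt _ _ (hf1 _ _ h1)).trans (ih _ _ h2)
    exact lt_irrefl _ (key _ _ _ hw)
  · intro s
    have : Nonempty V := ⟨s⟩
    obtain ⟨i, hi⟩ := Finite.exists_min (id : V → V)
    refine ⟨(s, i), ?_, ?_⟩
    · refine ⟨rfl, ?_⟩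
      rintro ⟨k, hk⟩
      exact absurd (hi k) (not_le.2 hk)
    · rintro ⟨a, b⟩ ⟨h1, h2⟩
      have h1 : s = a := h1
      have h3 : i = b := by
        refine le_antisymm (hi b) ?_
        by_contra hcon
        exact h2 ⟨i, not_le.1 hcon⟩
      rw [← h1, ← h3]
  · intro s
    have : Nonempty V := ⟨s⟩
    obtain ⟨i, hi⟩ := Finite.exists_max (id : V → V)
    refine ⟨(s, i), ?_, ?_⟩
    · refine ⟨rfl, ?_⟩
      rintro ⟨k, hk⟩
      exact absurd (hi k) (not_le.2 hk)
    · rintro ⟨a, b⟩ ⟨h1, h2⟩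
      have h1 : s = a := h1
      have h3 : b = i := by
        refine le_antisymm (hi b) ?_
        by_contra hcon
        exact h2 ⟨i, not_le.1 hcon⟩
      rw [← h1, h3]
  · rintro s t ⟨a, b⟩ ⟨c, d⟩ ⟨h1, h2⟩ ⟨h3, h4⟩
    have h1 : s = a := h1
    have h3 : t = c := h3
    subst h1 h3
    refine ⟨layer_reach_of _ _ _ _, layer_reach _ _ _ _ (fun k => ?_) (fun k => ?_)⟩
    · by_contra hcon
      exact h2 ⟨k, not_le.1 hcon⟩
    · by_contra hcon
      exact h4 ⟨k, not_le.1 hcon⟩

/-- Hardness for digraphs with out-degree at most one and a walk with four arcs. -/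
theorem exists_reduction {h : ℕ} {H : Fin h → Fin h → Prop}
    (hout : ∀ i j k, H i j → H i k → j = k) {a b : Fin h} (hw : Walk H 4 a b) :
    ∃ r : Reduction, r.Reduces fun _ F => Avoids H F := by
  by_cases hc : ∃ (c : Fin h) (k : ℕ), Walk H (k + 1) c c
  · obtain ⟨c, k, hk⟩ := hc
    exact ⟨layer, layer_reduces hk⟩
  · push Not at hc
    obtain ⟨x, _, _, hx⟩ := exists_path hw
    refine ⟨blob, blob_reduces x hx fun i hi => ⟨fun heq => ?_, fun hadj => ?_⟩⟩
    · have h1 := hx i (by omega)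
      have h2 := hx (i + 1) (by omega)
      have e : i + 1 + 1 = i + 2 := rfl
      rw [e, heq] at h2
      exact hc _ 1 (.cons h1 (.cons h2 (.nil _)))
    · have h1 := hx i (by omega)
      have h2 := hx (i + 1) (by omega)
      have e : i + 1 + 1 = i + 2 := rfl
      rw [e] at h2
      rcases hadj with h3 | h3
      · exact hc _ 2 (.cons h1 (.cons h2 (.cons h3 (.nil _))))
      · have h4 := hout _ _ _ h1 h3
        rw [h4] at h2
        exact hc _ 0 (.cons h2 (.nil _))

end Pool.Agent.Lib.Pe46137h7
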