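import Pool.Agent.Lib.Pe46137h7.SpiderDef

/-!
# From spiders to disjoint unions of spiders
-/

namespace Pool.Agent.Lib.Pe46137h7.Mono

open Pool.Agent.Lib.Pe46137h7

/-- Classes of digraphs with a definable relation that is always contained in reachability and
contains it on the class. -/
def Nice (C : ∀ V : Type, (V → V → Prop) → Prop) : Prop :=
  ∃ P : ∀ V : Type, (V → V → Prop) → V → V → Prop, Def2 P ∧
    (∀ V E s t, P V E s t → Reach E s t) ∧
      ∀ V E, C V E → ∀ s t, Reach E s t → P V E s t

theorem Nice.or {C D : ∀ V : Type, (V → V → Prop) → Prop} (hC : Nice C) (hD : Nice D) :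
    Nice fun V E => C V E ∨ D V E := by
  obtain ⟨P, h1, h2, h3⟩ := hC
  obtain ⟨Q, h4, h5, h6⟩ := hD
  refine ⟨_, h1.or h4, ?_, ?_⟩
  · rintro V E s t (h | h)
    · exact h2 V E s t h
    · exact h5 V E s t h
  · rintro V E (h | h) s t hr
    · exact Or.inl (h3 V E h s t hr)
    · exact Or.inr (h6 V E h s t hr)

theorem Nice.mono {C D : ∀ V : Type, (V → V → Prop) → Prop} (hC : Nice C)
    (h : ∀ V E, D V E → C V E) : Nice D := by
  obtain ⟨P, h1, h2, h3⟩ := hC
  exact ⟨P, h1, h2, fun V E hD => h3 V E (h V E hD)⟩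

theorem reach_rev {V : Type} {E : V → V → Prop} {s t : V} (h : Reach E s t) :
    Reach (fun x y => E y x) t s := by
  induction h with
  | refl => exact .refl
  | tail _ h1 ih => exact .head h1 ih

theorem Nice.rev {C : ∀ V : Type, (V → V → Prop) → Prop} (hC : Nice C) :
    Nice fun V E => C V fun x y => E y x := by
  obtain ⟨P, h1, h2, h3⟩ := hC
  refine ⟨fun V E s t => P V (fun x y => E y x) t s, ?_, ?_, ?_⟩
  · have hQ : DefN 3 fun _ E a => E (a 2) (a 1) := DefN.of2 Def2.arc 2 1
    have h4 : DefN 3 fun V E a => P V (fun x y => E y x) (a 1) (a 2) :=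
      DefN.sub (Q := fun _ E _ x y => E y x) h1 hQ
    have h5 : DefN 2 fun V E a => P V (fun x y => E y x) (a 1) (a 0) := h4.rename ![0, 1, 0]
    exact DefN.to2 h5
  · intro V E s t h
    exact reach_rev (h2 V _ t s h)
  · intro V E hCE s t h
    exact h3 V _ hCE t s (reach_rev h)

/-- The digraph without the arcs at `x`. -/
def Del1 {V : Type} (E : V → V → Prop) (x p q : V) : Prop := E p q ∧ p ≠ x ∧ q ≠ x

theorem Del1.reach {V : Type} {E : V → V → Prop} {x s t : V} (h : Reach (Del1 E x) s t) :
    Reach E s t := by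
  induction h with
  | refl => exact .refl
  | tail _ h1 ih => exact ih.tail h1.1

theorem Del1.eq_of_reach {V : Type} {E : V → V → Prop} {x s : V}
    (h : Reach (Del1 E x) s x) : s = x := by
  rcases Relation.ReflTransGen.cases_tail h with h1 | ⟨b, _, h1⟩
  · exact h1.symm
  · exact absurd rfl h1.2.2

/-- A walk passes through `x` or avoids it. -/
theorem reach_del1 {V : Type} {E : V → V → Prop} (x : V) {s t : V} (h : Reach E s t) :
    Reach (Del1 E x) s t ∨ ((s = x ∨ ∃ b, Reach (Del1 E x) s b ∧ E b x) ∧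
      (t = x ∨ ∃ b, E x b ∧ Reach (Del1 E x) b t)) := by
  induction h with
  | refl => exact Or.inl .refl
  | @tail b t _ hbt ih =>
    by_cases htx : t = x
    · subst htx
      right
      refine ⟨?_, Or.inl rfl⟩
      rcases ih with h1 | ⟨h1, _⟩
      · exact Or.inr ⟨b, h1, hbt⟩
      · exact h1
    · by_cases hbx : b = x
      · subst hbx
        right
        refine ⟨?_, Or.inr ⟨t, hbt, .refl⟩⟩
        rcases ih with h1 | ⟨h1, _⟩
        · exact Or.inl (Del1.eq_of_reach h1)
        · exact h1
      · have hd : Del1 E x b t := ⟨hbt, hbx, htx⟩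
        rcases ih with h1 | ⟨h1, h2⟩
        · exact Or.inl (h1.tail hd)
        · right
          refine ⟨h1, Or.inr ?_⟩
          rcases h2 with h2 | ⟨b', h3, h4⟩
          · exact absurd h2 hbx
          · exact ⟨b', h3, h4.tail hd⟩

theorem Nice.hit {C : ∀ V : Type, (V → V → Prop) → Prop} (hC : Nice C) :
    Nice fun V E => ∃ x, C V (Del1 E x) := by
  obtain ⟨P, h1, h2, h3⟩ := hC
  have hQ : DefN 3 fun _ E a => Del1 E (a 0) (a 1) (a 2) :=
    (DefN.of2 Def2.arc 1 2).and ((DefN.of2 Def2.eq 1 0).not.and (DefN.of2 Def2.eq 2 0).not)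
  have hP : DefN 3 fun V E a => P V (Del1 E (a 0)) (a 1) (a 2) :=
    DefN.sub (Q := fun _ E x p q => Del1 E x p q) h1 hQ
  refine ⟨fun V E s t => ∃ x, P V (Del1 E x) s t ∨
    ((s = x ∨ ∃ b, P V (Del1 E x) s b ∧ E b x) ∧ (t = x ∨ ∃ b, E x b ∧ P V (Del1 E x) b t)),
    ?_, ?_, ?_⟩
  · -- variables: `s = a 0`, `t = a 1`, `x = a 2`, `b = a 3`
    have e1 : DefN 3 fun V E a => P V (Del1 E (a 2)) (a 0) (a 1) := hP.rename ![2, 0, 1]
    have e2 : DefN 4 fun V E a => P V (Del1 E (a 2)) (a 0) (a 3) ∧ E (a 3) (a 2) :=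
      (hP.rename ![2, 0, 3]).and (DefN.of2 Def2.arc 3 2)
    have e3 : DefN 4 fun V E a => E (a 2) (a 3) ∧ P V (Del1 E (a 2)) (a 3) (a 1) :=
      (DefN.of2 Def2.arc 2 3).and (hP.rename ![2, 3, 1])
    have e4 := e1.or (((DefN.of2 Def2.eq 0 2).or e2.ex).and ((DefN.of2 Def2.eq 1 2).or e3.ex))
    exact DefN.to2 e4.ex
  · rintro V E s t ⟨x, h | ⟨h, h'⟩⟩
    · exact Del1.reach (h2 _ _ _ _ h)
    · have hs : Reach E s x := by
        rcases h with rfl | ⟨b, h4, h5⟩
        · exact .refl
        · exact (Del1.reach (h2 _ _ _ _ h4)).tail h5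
      have ht : Reach E x t := by
        rcases h' with rfl | ⟨b, h4, h5⟩
        · exact .refl
        · exact .head h4 (Del1.reach (h2 _ _ _ _ h5))
      exact hs.trans ht
  · rintro V E ⟨x, hx⟩ s t h
    refine ⟨x, ?_⟩
    rcases reach_del1 x h with h4 | ⟨h4, h5⟩
    · exact Or.inl (h3 _ _ hx _ _ h4)
    · right
      constructor
      · rcases h4 with h4 | ⟨b, h6, h7⟩
        · exact Or.inl h4
        · exact Or.inr ⟨b, h3 _ _ hx _ _ h6, h7⟩
      · rcases h5 with h5 | ⟨b, h6, h7⟩
        · exact Or.inl h5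
        · exact Or.inr ⟨b, h6, h3 _ _ hx _ _ h7⟩

/-- The digraphs from which the arcs at no more than `n` vertices can be deleted to get into
the class. -/
def Hit (C : ∀ V : Type, (V → V → Prop) → Prop) : ℕ → ∀ V : Type, (V → V → Prop) → Prop
  | 0, V, E => C V E
  | n + 1, V, E => Hit C n V E ∨ ∃ x, Hit C n V (Del1 E x)

theorem Nice.hitN {C : ∀ V : Type, (V → V → Prop) → Prop} (hC : Nice C) (n : ℕ) :
    Nice (Hit C n) := by
  induction n with
  | zero => exact hC
  | succ n ih => exact ih.or ih.hit

/-- The digraph without the arcs at the vertices in `F`. -/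
def DelF {V : Type} (E : V → V → Prop) (F : Finset V) (p q : V) : Prop :=
  E p q ∧ p ∉ F ∧ q ∉ F

theorem hit_of_delF {C : ∀ V : Type, (V → V → Prop) → Prop} {V : Type} : ∀ (n : ℕ)
    (E : V → V → Prop) (F : Finset V), F.card ≤ n → C V (DelF E F) → Hit C n V E := by
  classical
  intro n
  induction n with
  | zero =>
    intro E F hF h
    obtain rfl : F = ∅ := Finset.card_eq_zero.1 (by omega)
    have : DelF E (∅ : Finset V) = E := by
      funext p q
      simp [DelF]
    rwa [this] at h
  | succ n ih =>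
    intro E F hF h
    rcases F.eq_empty_or_nonempty with rfl | ⟨x, hx⟩
    · exact Or.inl (ih E ∅ (by simp) h)
    · right
      refine ⟨x, ih (Del1 E x) (F.erase x) ?_ ?_⟩
      · rw [Finset.card_erase_of_mem hx]; omega
      · have : DelF (Del1 E x) (F.erase x) = DelF E F := by
          funext p q
          simp only [DelF, Del1, Finset.mem_erase, not_and]
          refine propext ⟨?_, ?_⟩
          · rintro ⟨⟨h1, h2, h3⟩, h4, h5⟩
            exact ⟨h1, fun hp => h4 h2 hp, fun hq => h5 h3 hq⟩
          · rintro ⟨h1, h2, h3⟩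
            exact ⟨⟨h1, fun hp => h2 (hp ▸ hx), fun hq => h3 (hq ▸ hx)⟩, fun _ => h2,
              fun _ => h3⟩
        rwa [this]

/-! ### Spiders as maps -/

/-- The distance of a vertex of the spider from its centre. -/
def dist : Spider → ℕ
  | .tail k => k
  | .left k => k + 1
  | .right k => k + 1

/-- The vertices of the spider at distance at most `c` from the centre. -/
noncomputable def body (c : ℕ) : Finset Spider := by
  classical
  exact (Finset.range (c + 1)).image Spider.tail ∪ (Finset.range c).image Spider.left ∪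
    (Finset.range c).image Spider.right

theorem mem_body {c : ℕ} {a : Spider} (h : dist a ≤ c) : a ∈ body c := by
  classical
  unfold body
  cases a with
  | tail k =>
    refine Finset.mem_union_left _ (Finset.mem_union_left _ (Finset.mem_image_of_mem _ ?_))
    have : k ≤ c := h
    simp; omega
  | left k =>
    refine Finset.mem_union_left _ (Finset.mem_union_right _ (Finset.mem_image_of_mem _ ?_))
    have : k + 1 ≤ c := h
    simp; omega
  | right k =>
    refine Finset.mem_union_right _ (Finset.mem_image_of_mem _ ?_)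
    have : k + 1 ≤ c := h
    simp; omega

/-- `g` maps the part of the spider at distance at most `c` from the centre into `E`. -/
def IsSpider {V : Type} (c : ℕ) (E : V → V → Prop) (g : Spider → V) : Prop :=
  (∀ a b, Spider.Arc a b → dist a ≤ c → dist b ≤ c → E (g a) (g b)) ∧
    ∀ a b, dist a ≤ c → dist b ≤ c → g a = g b → a = b

theorem HasOut.exists_spider {V : Type} {c : ℕ} {E : V → V → Prop} (h : HasOut c E) :
    ∃ g, IsSpider c E g := by
  obtain ⟨q, x, y, h1, h2, h3, h4, h5⟩ := h
  have hq : ∀ i j, i ≤ c → j ≤ c → q i = q j → i = j := by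
    intro i j hi hj heq
    rcases lt_trichotomy i j with h | h | h
    · exact absurd heq (h4 i j h hj).1
    · exact h
    · exact absurd heq.symm (h4 j i h hi).1
  have hx : ∀ i j, i ≤ c → j ≤ c → x i = x j → i = j := by
    intro i j hi hj heq
    rcases lt_trichotomy i j with h | h | h
    · exact absurd heq (h4 i j h hj).2.1
    · exact h
    · exact absurd heq.symm (h4 j i h hi).2.1
  have hy : ∀ i j, i ≤ c → j ≤ c → y i = y j → i = j := by
    intro i j hi hj heq
    rcases lt_trichotomy i j with h | h | h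
    · exact absurd heq (h4 i j h hj).2.2
    · exact h
    · exact absurd heq.symm (h4 j i h hi).2.2
  have hqx : ∀ i j, i ≤ c → 0 < j → j ≤ c → q i ≠ x j := by
    intro i j hi hj hjc heq
    rcases Nat.eq_zero_or_pos i with rfl | hpos
    · rw [h1] at heq
      have := hx 0 j (Nat.zero_le _) hjc heq
      omega
    · exact (h5 i j hpos hi hj hjc).1 heq
  have hqy : ∀ i j, i ≤ c → 0 < j → j ≤ c → q i ≠ y j := by
    intro i j hi hj hjc heq
    rcases Nat.eq_zero_or_pos i with rfl | hpos
    · rw [h2] at heq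
      have := hy 0 j (Nat.zero_le _) hjc heq
      omega
    · exact (h5 i j hpos hi hj hjc).2.1 heq
  have hxy : ∀ i j, 0 < i → i ≤ c → 0 < j → j ≤ c → x i ≠ y j :=
    fun i j hi hic hj hjc => (h5 i j hi hic hj hjc).2.2
  refine ⟨fun a => match a with
    | .tail k => q k
    | .left k => x (k + 1)
    | .right k => y (k + 1), ?_, ?_⟩
  · intro a b hab ha hb
    cases hab with
    | tail k => exact (h3 k ha).1
    | toLeft =>
      have := (h3 0 hb).2.1
      rwa [← h1] at this
    | toRight =>
      have := (h3 0 hb).2.2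
      rwa [← h2] at this
    | left k => exact (h3 (k + 1) hb).2.1
    | right k => exact (h3 (k + 1) hb).2.2
  · intro a b ha hb heq
    cases a with
    | tail k =>
      cases b with
      | tail l => rw [hq k l ha hb heq]
      | left l => exact absurd heq (hqx _ _ ha (Nat.succ_pos _) hb)
      | right l => exact absurd heq (hqy _ _ ha (Nat.succ_pos _) hb)
    | left k =>
      cases b with
      | tail l => exact absurd heq.symm (hqx _ _ hb (Nat.succ_pos _) ha)
      | left l =>
        have := hx _ _ ha hb heq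
        rw [Nat.succ_injective this]
      | right l => exact absurd heq (hxy _ _ (Nat.succ_pos _) ha (Nat.succ_pos _) hb)
    | right k =>
      cases b with
      | tail l => exact absurd heq.symm (hqy _ _ hb (Nat.succ_pos _) ha)
      | left l => exact absurd heq.symm (hxy _ _ (Nat.succ_pos _) hb (Nat.succ_pos _) ha)
      | right l =>
        have := hy _ _ ha hb heq
        rw [Nat.succ_injective this]

/-- The vertices of a spider avoid the deleted vertices. -/
theorem IsSpider.not_mem {V : Type} {c : ℕ} (hc : 0 < c) {E : V → V → Prop} {F : Finset V}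
    {g : Spider → V} (h : IsSpider c (DelF E F) g) {a : Spider} (ha : dist a ≤ c) :
    g a ∉ F := by
  cases a with
  | tail k =>
    cases k with
    | zero => exact (h.1 _ _ .toLeft ha hc).2.1
    | succ k => exact (h.1 _ _ (.tail k) ha (le_trans (Nat.le_succ k) ha)).2.1
  | left k =>
    cases k with
    | zero => exact (h.1 _ _ .toLeft (Nat.zero_le _) ha).2.2
    | succ k => exact (h.1 _ _ (.left k) (le_trans (Nat.le_succ _) ha) ha).2.2
  | right k =>
    cases k with
    | zero => exact (h.1 _ _ .toRight (Nat.zero_le _) ha).2.2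
    | succ k => exact (h.1 _ _ (.right k) (le_trans (Nat.le_succ _) ha) ha).2.2

/-- Spiders of type `true`, reversed spiders of type `false`. -/
def IsSp {V : Type} (c : ℕ) (b : Bool) (E : V → V → Prop) (g : Spider → V) : Prop :=
  (b = true ∧ IsSpider c E g) ∨ (b = false ∧ IsSpider c (fun x y => E y x) g)

theorem IsSp.inj {V : Type} {c : ℕ} {b : Bool} {E : V → V → Prop} {g : Spider → V}
    (h : IsSp c b E g) : ∀ a b, dist a ≤ c → dist b ≤ c → g a = g b → a = b := by
  rcases h with ⟨_, h⟩ | ⟨_, h⟩
  · exact h.2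
  · exact h.2

theorem IsSp.not_mem {V : Type} {c : ℕ} (hc : 0 < c) {b : Bool} {E : V → V → Prop}
    {F : Finset V} {g : Spider → V} (h : IsSp c b (DelF E F) g) {a : Spider}
    (ha : dist a ≤ c) : g a ∉ F := by
  rcases h with ⟨_, h⟩ | ⟨_, h⟩
  · exact h.not_mem hc ha
  · have h' : IsSpider c (DelF (fun x y => E y x) F) g :=
      ⟨fun a b hab ha hb => ⟨(h.1 a b hab ha hb).1, (h.1 a b hab ha hb).2.2,
        (h.1 a b hab ha hb).2.1⟩, h.2⟩
    exact h'.not_mem hc ha

theorem IsSp.of_del {V : Type} {c : ℕ} {b : Bool} {E : V → V → Prop}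
    {F : Finset V} {g : Spider → V} (h : IsSp c b (DelF E F) g) : IsSp c b E g := by
  rcases h with ⟨hb, h⟩ | ⟨hb, h⟩
  · exact Or.inl ⟨hb, fun a b hab ha hb => (h.1 a b hab ha hb).1, h.2⟩
  · exact Or.inr ⟨hb, fun a b hab ha hb => (h.1 a b hab ha hb).1, h.2⟩

/-- Many disjoint spiders of prescribed types. -/
theorem exists_family {V : Type} {c : ℕ} (hc : 0 < c) {E : V → V → Prop} {N : ℕ}
    (h : ∀ (b : Bool) (F : Finset V), F.card ≤ N → ∃ g, IsSp c b (DelF E F) g)
    (τ : ℕ → Bool) : ∀ m, m * (body c).card ≤ N → ∃ G : ℕ → Spider → V,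
      (∀ i < m, IsSp c (τ i) E (G i)) ∧
      ∀ i < m, ∀ j < m, i ≠ j → ∀ a b, dist a ≤ c → dist b ≤ c → G i a ≠ G j b := by
  classical
  intro m
  induction m with
  | zero =>
    intro _
    obtain ⟨g, hg⟩ := h true ∅ (by simp)
    exact ⟨fun _ => g, fun i hi => absurd hi (Nat.not_lt_zero _),
      fun i hi => absurd hi (Nat.not_lt_zero _)⟩
  | succ m ih =>
    intro hm
    have hm' : m * (body c).card ≤ N := by
      rw [Nat.succ_mul] at hm; omega
    obtain ⟨G, hG1, hG2⟩ := ih hm'
    let F : Finset V := (Finset.range m).biUnion fun i => (body c).image (G i)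
    have hF : F.card ≤ N := by
      refine le_trans Finset.card_biUnion_le ?_
      refine le_trans (Finset.sum_le_sum fun i _ => Finset.card_image_le) ?_
      rw [Finset.sum_const, Finset.card_range, smul_eq_mul]
      exact hm'
    obtain ⟨g, hg⟩ := h (τ m) F hF
    have hmem : ∀ i < m, ∀ a, dist a ≤ c → G i a ∈ F := by
      intro i hi a ha
      exact Finset.mem_biUnion.2 ⟨i, Finset.mem_range.2 hi,
        Finset.mem_image_of_mem _ (mem_body ha)⟩
    have hnew : ∀ a, dist a ≤ c → g a ∉ F := fun a ha => hg.not_mem hc ha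
    refine ⟨fun i => if i = m then g else G i, ?_, ?_⟩
    · intro i hi
      by_cases him : i = m
      · subst him; simpa using hg.of_del
      · simpa [him] using hG1 i (by omega)
    · intro i hi j hj hij a b ha hb
      by_cases him : i = m
      · have hjm : j ≠ m := fun h => hij (him.trans h.symm)
        simp only [him, hjm, if_true, if_false]
        intro heq
        exact hnew a ha (heq ▸ hmem j (by omega) b hb)
      · by_cases hjm : j = m
        · simp only [him, hjm, if_true, if_false]
          intro heq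
          exact hnew b hb (heq ▸ hmem i (by omega) a ha)
        · simp only [him, hjm, if_false]
          exact hG2 i (by omega) j (by omega) hij a b ha hb

/-- **Erdős–Pósa type step.**  If `H` is a finite subgraph of a disjoint union of spiders then
in every digraph without `H` one can delete boundedly many vertices so that no spider or no
reversed spider with long legs is left. -/
theorem hit_of_avoids {h : ℕ} {H : Fin h → Fin h → Prop} (hH : HasSub H Forest) :
    ∃ c N, 0 < c ∧ ∀ (V : Type) (E : V → V → Prop), ¬ HasSub H E →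
      Hit (fun _ E => ¬ HasOut c E) N V E ∨
        Hit (fun V E => ¬ HasOut c fun x y : V => E y x) N V E := by
  classical
  obtain ⟨f, hf1, hf2⟩ := hH
  obtain ⟨r, hr⟩ : ∃ r, ∀ i, (f i).2.1 < r :=
    ⟨(Finset.univ.sup fun i => (f i).2.1) + 1, fun i =>
      Nat.lt_succ_of_le (Finset.le_sup (f := fun i => (f i).2.1) (Finset.mem_univ i))⟩
  obtain ⟨c, hc⟩ : ∃ c, ∀ i, dist (f i).2.2 ≤ c :=
    ⟨Finset.univ.sup fun i => dist (f i).2.2, fun i =>
      Finset.le_sup (f := fun i => dist (f i).2.2) (Finset.mem_univ i)⟩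
  refine ⟨c + 1, 2 * r * (body (c + 1)).card, Nat.succ_pos _, ?_⟩
  intro V E hE
  by_contra hcon
  push Not at hcon
  obtain ⟨h1, h2⟩ := hcon
  have hfam : ∀ (b : Bool) (F : Finset V), F.card ≤ 2 * r * (body (c + 1)).card →
      ∃ g, IsSp (c + 1) b (DelF E F) g := by
    intro b F hF
    cases b with
    | true =>
      have : HasOut (c + 1) (DelF E F) := by
        by_contra hno
        exact h1 (hit_of_delF _ E F hF hno)
      obtain ⟨g, hg⟩ := this.exists_spider
      exact ⟨g, Or.inl ⟨rfl, hg⟩⟩
    | false =>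
      have : HasOut (c + 1) (fun x y => DelF E F y x) := by
        by_contra hno
        exact h2 (hit_of_delF _ E F hF hno)
      obtain ⟨g, hg⟩ := this.exists_spider
      exact ⟨g, Or.inr ⟨rfl, hg⟩⟩
  obtain ⟨G, hG1, hG2⟩ := exists_family (Nat.succ_pos c) hfam (fun i => decide (i % 2 = 1))
    (2 * r) le_rfl
  let code : Fin h → ℕ := fun i => 2 * (f i).2.1 + if (f i).1 = true then 1 else 0
  have hcode : ∀ i, code i < 2 * r := by
    intro i
    have := hr i
    simp only [code]
    split <;> omega
  have hcode1 : ∀ i j, code i = code j → (f i).1 = (f j).1 ∧ (f i).2.1 = (f j).2.1 := by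
    intro i j hij
    simp only [code] at hij
    cases hi : (f i).1 <;> cases hj : (f j).1 <;> simp only [hi, hj] at hij ⊢ <;>
      simp at hij ⊢ <;> omega
  have hbit : ∀ (b : Bool) (n : ℕ),
      decide ((2 * n + if b = true then 1 else 0) % 2 = 1) = b := by
    intro b n
    cases b <;> simp [Nat.add_mod]
  have hτ : ∀ i, decide (code i % 2 = 1) = (f i).1 := fun i => hbit _ _
  apply hE
  refine ⟨fun i => G (code i) (f i).2.2, ?_, ?_⟩
  · intro i j hij
    by_cases hcij : code i = code j
    · have h3 := hG1 (code i) (hcode i)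
      have hij' : G (code i) (f i).2.2 = G (code i) (f j).2.2 := by
        have : G (code i) (f i).2.2 = G (code j) (f j).2.2 := hij
        rw [this, hcij]
      have h4 := h3.inj _ _ (le_trans (hc i) (Nat.le_succ c)) (le_trans (hc j) (Nat.le_succ c))
        hij'
      obtain ⟨h5, h6⟩ := hcode1 i j hcij
      exact hf1 (Prod.ext h5 (Prod.ext h6 h4))
    · exact absurd hij (hG2 _ (hcode i) _ (hcode j) hcij _ _
        (le_trans (hc i) (Nat.le_succ c)) (le_trans (hc j) (Nat.le_succ c)))
  · intro i j hij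
    obtain ⟨h3, h4, h5⟩ := hf2 i j hij
    have hcij : code j = code i := by simp only [code]; rw [h3, h4]
    change E (G (code i) (f i).2.2) (G (code j) (f j).2.2)
    rw [hcij]
    have h6 := hG1 (code i) (hcode i)
    rw [hτ] at h6
    rcases h5 with ⟨h7, h8⟩ | ⟨h7, h8⟩
    · rcases h6 with ⟨_, h9⟩ | ⟨h9, _⟩
      · exact h9.1 _ _ h8 (le_trans (hc i) (Nat.le_succ c)) (le_trans (hc j) (Nat.le_succ c))
      · rw [h7] at h9; exact absurd h9 (by decide)
    · rcases h6 with ⟨h9, _⟩ | ⟨_, h9⟩
      · rw [h7] at h9; exact absurd h9 (by decide)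
      · exact h9.1 _ _ h8 (le_trans (hc j) (Nat.le_succ c)) (le_trans (hc i) (Nat.le_succ c))

/-- Reachability on digraphs without a given subgraph of a disjoint union of spiders is
definable. -/
theorem definable_of_forest {h : ℕ} {H : Fin h → Fin h → Prop} (hH : HasSub H Forest) :
    ∃ φ : Fml Unit 2, ∀ (V : Type) (E : V → V → Prop), ¬ HasSub H E →
      ∀ s t, Sat (fun _ => E) φ (pair s t) ↔ Reach E s t := by
  obtain ⟨c, N, hc, hit⟩ := hit_of_avoids hH
  have h1 : Nice fun V E => ¬ HasOut c E :=
    ⟨fun _ E => Capt E c, def_capt c, fun V E s t h => h.reach hc,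
      fun V E hE s t h => capt_of_reach hc hE h⟩
  have h2 : Nice fun V E => ¬ HasOut c fun x y : V => E y x :=
    h1.rev
  obtain ⟨P, ⟨φ, hφ⟩, h4, h5⟩ := (h1.hitN N).or (h2.hitN N)
  refine ⟨φ, fun V E hE s t => ?_⟩
  rw [hφ]
  exact ⟨h4 V E s t, h5 V E (hit V E hE) s t⟩

end Pool.Agent.Lib.Pe46137h7.Mono
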