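import Pool.Agent.Lib.Pe46137h7.Defs

/-!
# First-order logic with symmetric transitive closure

Formulas `Fml ρ n` over binary relation symbols `ρ` with free variables indexed by `Fin n`.
The quantifier and the closure operator bind the last variables.
-/

namespace Pool.Agent.Lib.Pe46137h7

/-- Lifting of a renaming under one binder. -/
def lift1 {n m : ℕ} (f : Fin n → Fin m) : Fin (n + 1) → Fin (m + 1) :=
  Fin.snoc (α := fun _ => Fin (m + 1)) (fun i => (f i).castSucc) (Fin.last m)

theorem ext_castSucc {V : Type} {n : ℕ} (a : Fin n → V) (v : V) (i : Fin n) :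
    ext a v i.castSucc = a i := by
  simp [ext]

theorem ext_last {V : Type} {n : ℕ} (a : Fin n → V) (v : V) :
    ext a v (Fin.last n) = v := by
  simp [ext]

theorem ext_comp_lift1 {V : Type} {n m : ℕ} (f : Fin n → Fin m) (a : Fin m → V) (v : V) :
    ext a v ∘ lift1 f = ext (a ∘ f) v := by
  funext i
  refine Fin.lastCases ?_ (fun i => ?_) i
  · simp [lift1, ext]
  · simp [lift1, ext]

/-- Renaming of the free variables. -/
def Fml.rename {ρ : Type} : {n m : ℕ} → (Fin n → Fin m) → Fml ρ n → Fml ρ m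
  | _, _, f, .rel r i j => .rel r (f i) (f j)
  | _, _, f, .eq i j => .eq (f i) (f j)
  | _, _, f, .neg φ => .neg (φ.rename f)
  | _, _, f, .and φ ψ => .and (φ.rename f) (ψ.rename f)
  | _, _, f, .ex φ => .ex (φ.rename (lift1 f))
  | _, _, f, .stc φ i j => .stc (φ.rename (lift1 (lift1 f))) (f i) (f j)

theorem sat_rename {ρ V : Type} (R : ρ → V → V → Prop) {n : ℕ} (φ : Fml ρ n) :
    ∀ {m : ℕ} (f : Fin n → Fin m) (a : Fin m → V), Sat R (φ.rename f) a ↔ Sat R φ (a ∘ f) := by
  induction φ with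
  | rel r i j => intro m f a; rfl
  | eq i j => intro m f a; rfl
  | neg φ ih => intro m f a; exact not_congr (ih f a)
  | and φ ψ ih1 ih2 => intro m f a; exact and_congr (ih1 f a) (ih2 f a)
  | ex φ ih =>
    intro m f a
    refine exists_congr fun v => ?_
    rw [ih, ext_comp_lift1]
  | stc φ i j ih =>
    intro m f a
    have : (fun p q => Sat R (φ.rename (lift1 (lift1 f))) (ext (ext a p) q) ∨
        Sat R (φ.rename (lift1 (lift1 f))) (ext (ext a q) p)) =
        fun p q => Sat R φ (ext (ext (a ∘ f) p) q) ∨ Sat R φ (ext (ext (a ∘ f) q) p) := by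
      funext p q
      rw [ih, ih, ext_comp_lift1, ext_comp_lift1, ext_comp_lift1, ext_comp_lift1]
    simp only [Fml.rename, Sat, Function.comp_apply]
    rw [this]

/-- The two variables of a binary formula. -/
def pair {V : Type} (x y : V) : Fin 2 → V := ![x, y]

/-- Binary relations on the vertices of digraphs that are expressible in first-order logic
with symmetric transitive closure over the arc relation. -/
def Def2 (P : ∀ V : Type, (V → V → Prop) → V → V → Prop) : Prop :=
  ∃ φ : Fml Unit 2, ∀ (V : Type) (E : V → V → Prop) (x y : V),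
    Sat (fun _ => E) φ (pair x y) ↔ P V E x y

theorem Def2.congr {P Q : ∀ V : Type, (V → V → Prop) → V → V → Prop} (h : Def2 P)
    (hPQ : ∀ V E x y, P V E x y ↔ Q V E x y) : Def2 Q := by
  obtain ⟨φ, hφ⟩ := h
  exact ⟨φ, fun V E x y => (hφ V E x y).trans (hPQ V E x y)⟩

theorem Def2.arc : Def2 fun _ E x y => E x y :=
  ⟨.rel () 0 1, fun _ _ _ _ => Iff.rfl⟩

theorem Def2.eq : Def2 fun _ _ x y => x = y :=
  ⟨.eq 0 1, fun _ _ _ _ => Iff.rfl⟩

theorem Def2.not {P : ∀ V : Type, (V → V → Prop) → V → V → Prop} (h : Def2 P) :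
    Def2 fun V E x y => ¬ P V E x y := by
  obtain ⟨φ, hφ⟩ := h
  exact ⟨.neg φ, fun V E x y => not_congr (hφ V E x y)⟩

theorem Def2.and {P Q : ∀ V : Type, (V → V → Prop) → V → V → Prop} (hP : Def2 P)
    (hQ : Def2 Q) : Def2 fun V E x y => P V E x y ∧ Q V E x y := by
  obtain ⟨φ, hφ⟩ := hP
  obtain ⟨ψ, hψ⟩ := hQ
  exact ⟨.and φ ψ, fun V E x y => and_congr (hφ V E x y) (hψ V E x y)⟩

theorem Def2.or {P Q : ∀ V : Type, (V → V → Prop) → V → V → Prop} (hP : Def2 P)
    (hQ : Def2 Q) : Def2 fun V E x y => P V E x y ∨ Q V E x y :=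
  (hP.not.and hQ.not).not.congr fun V E x y => by tauto

theorem Def2.inv {P : ∀ V : Type, (V → V → Prop) → V → V → Prop} (h : Def2 P) :
    Def2 fun V E x y => P V E y x := by
  obtain ⟨φ, hφ⟩ := h
  refine ⟨φ.rename ![1, 0], fun V E x y => ?_⟩
  refine Iff.trans ?_ (hφ V E y x)
  have : pair x y ∘ ![1, 0] = pair y x := by
    funext i
    fin_cases i <;> rfl
  rw [sat_rename, this]

theorem Def2.comp {P Q : ∀ V : Type, (V → V → Prop) → V → V → Prop} (hP : Def2 P)
    (hQ : Def2 Q) : Def2 fun V E x y => ∃ z, P V E x z ∧ Q V E z y := by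
  obtain ⟨φ, hφ⟩ := hP
  obtain ⟨ψ, hψ⟩ := hQ
  refine ⟨.ex (.and (φ.rename ![0, 2]) (ψ.rename ![2, 1])), fun V E x y => ?_⟩
  refine exists_congr fun z => ?_
  simp only [Sat]
  rw [sat_rename, sat_rename, ← hφ V E x z, ← hψ V E z y]
  have h1 : ext (pair x y) z ∘ ![0, 2] = pair x z := by
    funext i
    fin_cases i <;> rfl
  have h2 : ext (pair x y) z ∘ ![2, 1] = pair z y := by
    funext i
    fin_cases i <;> rfl
  rw [h1, h2]

/-- Undirected reachability along a relation. -/
def Sym {V : Type} (P : V → V → Prop) (x y : V) : Prop := P x y ∨ P y x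

theorem Def2.stc {P : ∀ V : Type, (V → V → Prop) → V → V → Prop} (h : Def2 P) :
    Def2 fun V E x y => Relation.ReflTransGen (Sym (P V E)) x y := by
  obtain ⟨φ, hφ⟩ := h
  refine ⟨.stc (φ.rename ![2, 3]) 0 1, fun V E x y => ?_⟩
  have : (fun p q => Sat (fun _ => E) (φ.rename ![2, 3]) (ext (ext (pair x y) p) q) ∨
      Sat (fun _ => E) (φ.rename ![2, 3]) (ext (ext (pair x y) q) p)) = Sym (P V E) := by
    funext p q
    have h1 : ∀ p q : V, ext (ext (pair x y) p) q ∘ ![2, 3] = pair p q := by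
      intro p q
      funext i
      fin_cases i <;> rfl
    rw [sat_rename, sat_rename, h1, h1, hφ, hφ]
    rfl
  simp only [Sat]
  rw [this]
  rfl

end Pool.Agent.Lib.Pe46137h7
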