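import Pool.Agent.Lib.Pe46137h7.Cut

/-!
# Reachability on digraphs with finitely many forbidden subgraphs

The reachability problem is complete for nondeterministic logarithmic space.  For every finite
list of finite digraphs, its restriction to the digraphs having none of them as a subgraph is
either expressible in first-order logic with symmetric transitive closure, hence in
deterministic logarithmic space, or still complete under first-order reductions.  The first case
holds exactly when some digraph of the list is a disjoint union of subgraphs of directed
spiders: three directed paths sharing one end, two of them leaving it and one entering it, or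
conversely.
-/

namespace Pool.Agent.Lib.Pe46137h7.MonotoneDichotomy

open Pool.Agent.Lib.Pe46137h7

theorem result {m : ℕ} (h : Fin m → ℕ) (H : ∀ k, Fin (h k) → Fin (h k) → Prop) :
    ((∃ k, HasSub (H k) Forest) →
      ∃ φ : Fml Unit 2, ∀ (V : Type) (E : V → V → Prop), (∀ k, ¬ HasSub (H k) E) →
        ∀ s t, Sat (fun _ => E) φ ![s, t] ↔ Relation.ReflTransGen E s t) ∧
    ((∀ k, ¬ HasSub (H k) Forest) →
      ∃ r : Reduction, r.Reduces fun _ F => ∀ k, ¬ HasSub (H k) F) := by
  constructor
  · rintro ⟨k, hk⟩
    obtain ⟨φ, hφ⟩ := Mono.definable_of_forest hk
    exact ⟨φ, fun V E hE => hφ V E (hE k)⟩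
  · intro hH
    exact ⟨Mono.subdiv (Finset.univ.sup h),
      Mono.subdiv_reduces (fun k => Finset.le_sup (Finset.mem_univ k)) hH⟩

end Pool.Agent.Lib.Pe46137h7.MonotoneDichotomy
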