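import Pool.Agent.Lib.Pe46137h7.OutSemi

/-!
# Digraphs with few pairwise non-adjacent induced directed paths on four vertices
-/

namespace Pool.Agent.Lib.Pe46137h7

variable {V : Type}

/-- `Jump E S j a b`: there is a chain from `a` to `b` using at most `j` arcs of `E` and
arbitrarily many steps of `S`. -/
def Jump (E S : V → V → Prop) : ℕ → V → V → Prop
  | 0, a, b => S a b
  | j + 1, a, b => Jump E S j a b ∨ ∃ x, Jump E S j a x ∧ ∃ y, E x y ∧ S y b

/-- The arcs whose ends are joined backwards by a chain with at most `c` arcs. -/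
def Back (E S : V → V → Prop) (c : ℕ) (a b : V) : Prop := E a b ∧ Jump E S c b a

/-- The hierarchy of equivalence relations refining strong connectivity. -/
def Lv (E : V → V → Prop) (c : ℕ) : ℕ → V → V → Prop
  | 0 => fun a b => a = b
  | k + 1 => Relation.ReflTransGen fun a b => Back E (Lv E c k) c a b ∨ Back E (Lv E c k) c b a

theorem Jump.reach {E S : V → V → Prop} (hS : ∀ a b, S a b → Reach E a b) {j : ℕ} {a b : V}
    (h : Jump E S j a b) : Reach E a b := by
  induction j generalizing b with
  | zero => exact hS a b h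
  | succ j ih =>
    rcases h with h | ⟨x, h1, y, h2, h3⟩
    · exact ih h
    · exact (ih h1).trans (.head h2 (hS _ _ h3))

theorem Lv.reach {E : V → V → Prop} {c k : ℕ} {a b : V} (h : Lv E c k a b) :
    Reach E a b ∧ Reach E b a := by
  induction k generalizing a b with
  | zero => rw [show a = b from h]; exact ⟨.refl, .refl⟩
  | succ k ih =>
    have hS : ∀ a b, Lv E c k a b → Reach E a b := fun a b h => (ih h).1
    have hB : ∀ {a b}, Back E (Lv E c k) c a b → Reach E a b ∧ Reach E b a :=
      fun h => ⟨.single h.1, h.2.reach hS⟩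
    induction h with
    | refl => exact ⟨.refl, .refl⟩
    | tail _ h1 ih2 =>
      rcases h1 with h1 | h1
      · exact ⟨ih2.1.trans (hB h1).1, (hB h1).2.trans ih2.2⟩
      · exact ⟨ih2.1.trans (hB h1).2, (hB h1).1.trans ih2.2⟩

theorem Jump.mono {E S S' : V → V → Prop} (hS : ∀ a b, S a b → S' a b) {j : ℕ} {a b : V}
    (h : Jump E S j a b) : Jump E S' j a b := by
  induction j generalizing b with
  | zero => exact hS a b h
  | succ j ih =>
    rcases h with h | ⟨x, h1, y, h2, h3⟩
    · exact Or.inl (ih h)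
    · exact Or.inr ⟨x, ih h1, y, h2, hS _ _ h3⟩

theorem Jump.le {E S : V → V → Prop} {i j : ℕ} (hij : i ≤ j) {a b : V}
    (h : Jump E S i a b) : Jump E S j a b := by
  obtain ⟨d, rfl⟩ := Nat.exists_eq_add_of_le hij
  clear hij
  induction d with
  | zero => exact h
  | succ d ih => exact Or.inl ih

theorem Jump.move {E S : V → V → Prop} (hS : ∀ a b c, S a b → S b c → S a c) {j : ℕ}
    {a b c : V} (h : Jump E S j a b) (h' : S b c) : Jump E S j a c := by
  cases j with
  | zero => exact hS _ _ _ h h'
  | succ j =>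
    induction j with
    | zero =>
      rcases h with h | ⟨x, h1, y, h2, h3⟩
      · exact Or.inl (hS _ _ _ h h')
      · exact Or.inr ⟨x, h1, y, h2, hS _ _ _ h3 h'⟩
    | succ j ih =>
      rcases h with h | ⟨x, h1, y, h2, h3⟩
      · exact Or.inl (ih h)
      · exact Or.inr ⟨x, h1, y, h2, hS _ _ _ h3 h'⟩

theorem Jump.trans {E S : V → V → Prop} (hS : ∀ a b c, S a b → S b c → S a c) {i j : ℕ}
    {a b c : V} (h : Jump E S i a b) (h' : Jump E S j b c) : Jump E S (i + j) a c := by
  induction j generalizing c with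
  | zero => exact h.move hS h'
  | succ j ih =>
    rcases h' with h' | ⟨x, h1, y, h2, h3⟩
    · exact Or.inl (ih h')
    · exact Or.inr ⟨x, ih h1, y, h2, h3⟩

theorem Jump.tail {E S : V → V → Prop} (hS : ∀ a, S a a) {i : ℕ}
    {a b c : V} (h : Jump E S i a b) (h' : E b c) : Jump E S (i + 1) a c :=
  Or.inr ⟨b, h, c, h', hS c⟩

theorem Lv.refl {E : V → V → Prop} {c k : ℕ} (a : V) : Lv E c k a a := by
  cases k with
  | zero => rfl
  | succ k => exact Relation.ReflTransGen.refl

theorem Lv.trans {E : V → V → Prop} {c k : ℕ} (x y z : V) (h : Lv E c k x y)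
    (h' : Lv E c k y z) : Lv E c k x z := by
  cases k with
  | zero => exact Eq.trans h h'
  | succ k => exact Relation.ReflTransGen.trans h h'

theorem Lv.symm {E : V → V → Prop} {c k : ℕ} {x y : V} (h : Lv E c k x y) :
    Lv E c k y x := by
  cases k with
  | zero => exact Eq.symm h
  | succ k =>
    induction h with
    | refl => exact Relation.ReflTransGen.refl
    | tail _ h1 ih => exact Relation.ReflTransGen.head h1.symm ih

theorem Lv.succ {E : V → V → Prop} {c : ℕ} (k : ℕ) : ∀ (x y : V), Lv E c k x y →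
    Lv E c (k + 1) x y := by
  induction k with
  | zero => intro x y h; rw [show x = y from h]; exact Lv.refl y
  | succ k ih =>
    intro x y h
    induction h with
    | refl => exact Relation.ReflTransGen.refl
    | tail _ h1 ih2 =>
      refine Relation.ReflTransGen.tail ih2 ?_
      rcases h1 with h1 | h1
      · exact Or.inl ⟨h1.1, h1.2.mono ih⟩
      · exact Or.inr ⟨h1.1, h1.2.mono ih⟩

/-- The thresholds `3, 8, 18, …`. -/
def thr (k : ℕ) : ℕ := 5 * 2 ^ k - 2

theorem thr_succ (k : ℕ) : thr (k + 1) = 2 * thr k + 2 := by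
  have : 1 ≤ 2 ^ k := Nat.one_le_two_pow
  unfold thr
  rw [pow_succ]
  omega

theorem thr_zero : thr 0 = 3 := rfl

theorem thr_mono {k l : ℕ} (h : k ≤ l) : thr k ≤ thr l := by
  have : 2 ^ k ≤ 2 ^ l := Nat.pow_le_pow_right (by omega) h
  unfold thr
  omega

/-- The element of a set of positions with exactly `M` smaller elements. -/
theorem exists_rank (S : Finset ℕ) (M : ℕ) (hM : M < S.card) :
    ∃ i ∈ S, (S.filter (· < i)).card = M := by
  classical
  obtain ⟨e⟩ : Nonempty (Fin S.card ≃o S) := ⟨S.orderIsoOfFin rfl⟩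
  refine ⟨e ⟨M, hM⟩, (e ⟨M, hM⟩).2, ?_⟩
  have : S.filter (· < (e ⟨M, hM⟩ : ℕ)) =
      (Finset.univ.filter fun j : Fin S.card => j < ⟨M, hM⟩).map
        ⟨fun j => (e j : ℕ), fun a b hab => e.injective (Subtype.ext hab)⟩ := by
    ext x
    simp only [Finset.mem_filter, Finset.mem_map, Finset.mem_univ, true_and,
      Function.Embedding.coeFn_mk]
    constructor
    · rintro ⟨hx, hlt⟩
      refine ⟨e.symm ⟨x, hx⟩, ?_, congrArg Subtype.val (e.apply_symm_apply ⟨x, hx⟩)⟩
      rw [OrderIso.symm_apply_lt]
      exact hlt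
    · rintro ⟨j, hj, rfl⟩
      exact ⟨(e j).2, e.strictMono hj⟩
  rw [this, Finset.card_map]
  have h3 : (Finset.univ.filter fun j : Fin S.card => j < ⟨M, hM⟩) = Finset.Iio ⟨M, hM⟩ := by
    ext j; simp
  rw [h3, Fin.card_Iio]

/-! ### The analysis of a shortest path -/

section Path

variable (E : V → V → Prop) (c : ℕ) (p : ℕ → V)

open Classical in
/-- The positions in `[a, b)` whose arc is not inside a class of level `k`. -/
noncomputable def U (k a b : ℕ) : Finset ℕ :=
  (Finset.Ico a b).filter fun i => ¬ Lv E c k (p i) (p (i + 1))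

variable {E c p}

theorem mem_U {k a b i : ℕ} : i ∈ U E c p k a b ↔ (a ≤ i ∧ i < b) ∧
    ¬ Lv E c k (p i) (p (i + 1)) := by
  classical
  simp [U, Finset.mem_filter, Finset.mem_Ico]

theorem U_union {k a b d : ℕ} (h1 : a ≤ b) (h2 : b ≤ d) :
    (U E c p k a d).card = (U E c p k a b).card + (U E c p k b d).card := by
  classical
  rw [← Finset.card_union_of_disjoint]
  · congr 1
    ext i
    simp only [mem_U, Finset.mem_union]
    constructor
    · rintro ⟨⟨h3, h4⟩, h5⟩
      rcases Nat.lt_or_ge i b with h6 | h6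
      · exact Or.inl ⟨⟨h3, h6⟩, h5⟩
      · exact Or.inr ⟨⟨h6, h4⟩, h5⟩
    · rintro (⟨⟨h3, h4⟩, h5⟩ | ⟨⟨h3, h4⟩, h5⟩)
      · exact ⟨⟨h3, by omega⟩, h5⟩
      · exact ⟨⟨by omega, h4⟩, h5⟩
  · rw [Finset.disjoint_left]
    intro i hi hi'
    have h3 := (mem_U.1 hi).1.2
    have h4 := (mem_U.1 hi').1.1
    omega

theorem U_card_le {k a b : ℕ} : (U E c p k a b).card ≤ b - a := by
  classical
  calc (U E c p k a b).card ≤ (Finset.Ico a b).card := Finset.card_filter_le _ _
    _ = b - a := Nat.card_Ico a b

theorem U_self {k a : ℕ} : (U E c p k a a).card = 0 := by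
  have := U_card_le (E := E) (c := c) (p := p) (k := k) (a := a) (b := a)
  omega

variable {n : ℕ} (h2 : ∀ i < n, E (p i) (p (i + 1)))
include h2

theorem jump_along {k a b : ℕ} (hab : a ≤ b) (hb : b ≤ n) :
    Jump E (Lv E c k) (U E c p k a b).card (p a) (p b) := by
  obtain ⟨d, rfl⟩ := Nat.exists_eq_add_of_le hab
  clear hab
  induction d with
  | zero =>
    rw [Nat.add_zero, U_self]
    exact Lv.refl (k := k) (p a)
  | succ d ih =>
    have ih := ih (by omega)
    have e0 := U_union (E := E) (c := c) (p := p) (k := k) (a := a) (b := a + d)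
      (d := a + d + 1) (by omega) (by omega)
    rw [← Nat.add_assoc, e0]
    by_cases hL : Lv E c k (p (a + d)) (p (a + d + 1))
    · exact (ih.move (Lv.trans) hL).le (Nat.le_add_right _ _)
    · have : 1 ≤ (U E c p k (a + d) (a + d + 1)).card :=
        Finset.card_pos.2 ⟨a + d, mem_U.2 ⟨⟨le_rfl, by omega⟩, hL⟩⟩
      exact (ih.tail (Lv.refl) (h2 (a + d) (by omega))).le (by omega)

/-- A backward arc covers the arcs below it at the next level. -/
theorem covered {k x y i : ℕ} (hy : y ≤ n) (hxi : x ≤ i) (hiy : i < y)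
    (hE : E (p y) (p x)) (hc : (U E c p k x y).card ≤ c) :
    Lv E c (k + 1) (p i) (p (i + 1)) := by
  by_cases hL : Lv E c k (p i) (p (i + 1))
  · exact Lv.succ k _ _ hL
  · refine Relation.ReflTransGen.single (Or.inl ⟨h2 i (by omega), ?_⟩)
    have j1 := jump_along h2 (k := k) (c := c) (a := i + 1) (b := y) (by omega) hy
    have j2 := jump_along h2 (k := k) (c := c) (a := x) (b := i) hxi (by omega)
    have j3 := (j1.tail (Lv.refl) hE).trans (Lv.trans) j2
    refine j3.le ?_
    have e1 := U_union (E := E) (c := c) (p := p) (k := k) (a := x) (b := i) (d := y) hxi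
      (by omega)
    have e2 := U_union (E := E) (c := c) (p := p) (k := k) (a := i) (b := i + 1) (d := y)
      (by omega) (by omega)
    have : 1 ≤ (U E c p k i (i + 1)).card :=
      Finset.card_pos.2 ⟨i, mem_U.2 ⟨⟨le_rfl, by omega⟩, hL⟩⟩
    omega

/-- A position in the middle of an uncovered window has no short backward chords. -/
theorem window {i x y : ℕ} (hc : 3 ≤ c) (hi1 : 1 ≤ i) (hi2 : i + 2 ≤ n)
    (hL : ¬ Lv E c 1 (p i) (p (i + 1))) (hx : i - 1 ≤ x) (hxi : x ≤ i) (hiy : i < y)
    (hy : y ≤ i + 2) : ¬ E (p y) (p x) := by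
  intro hE
  refine hL (covered h2 (k := 0) (by omega) hxi hiy hE ?_)
  have := U_card_le (E := E) (c := c) (p := p) (k := 0) (a := x) (b := y)
  omega

variable (E c p) in
/-- A set of centres of windows inside `[a, b]` that are uncovered at level one and pairwise
non-adjacent. -/
def Good (a b : ℕ) (I : Finset ℕ) : Prop :=
  (∀ i ∈ I, a + 1 ≤ i ∧ i + 2 ≤ b ∧ ¬ Lv E c 1 (p i) (p (i + 1))) ∧
  ∀ i ∈ I, ∀ j ∈ I, i < j → i + 5 ≤ j ∧
    ∀ x y, i ≤ x + 1 → x ≤ i + 2 → j ≤ y + 1 → y ≤ j + 2 → ¬ E (p y) (p x)

omit h2 in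
/-- Intermediate value: the number of uncovered positions changes by at most one. -/
theorem exists_left {k a i M : ℕ} (hai : a ≤ i) (hM : M ≤ (U E c p k a i).card) :
    ∃ a', a ≤ a' ∧ a' ≤ i ∧ (U E c p k a' i).card = M := by
  obtain ⟨d, rfl⟩ := Nat.exists_eq_add_of_le hai
  clear hai
  induction d generalizing a with
  | zero =>
    refine ⟨a, le_rfl, le_rfl, ?_⟩
    have : (U E c p k a (a + 0)).card = 0 := U_self
    omega
  | succ d ih =>
    by_cases hM' : M = (U E c p k a (a + (d + 1))).card
    · exact ⟨a, le_rfl, by omega, hM'.symm⟩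
    · have e1 := U_union (E := E) (c := c) (p := p) (k := k) (a := a) (b := a + 1)
        (d := a + (d + 1)) (by omega) (by omega)
      have e2 := U_card_le (E := E) (c := c) (p := p) (k := k) (a := a) (b := a + 1)
      have e3 : a + 1 + d = a + (d + 1) := by omega
      obtain ⟨a', h3, h4, h5⟩ := ih (a := a + 1) (by rw [e3]; omega)
      rw [e3] at h4 h5
      exact ⟨a', by omega, h4, h5⟩

omit h2 in
theorem exists_right {k b i M : ℕ} (hib : i ≤ b) (hM : M ≤ (U E c p k i b).card) :
    ∃ b', i ≤ b' ∧ b' ≤ b ∧ (U E c p k i b').card = M := by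
  obtain ⟨d, rfl⟩ := Nat.exists_eq_add_of_le hib
  clear hib
  induction d with
  | zero =>
    refine ⟨i, le_rfl, le_rfl, ?_⟩
    have : (U E c p k i (i + 0)).card = 0 := U_self
    have h3 : (U E c p k i i).card = 0 := U_self
    omega
  | succ d ih =>
    by_cases hM' : M = (U E c p k i (i + (d + 1))).card
    · exact ⟨i + (d + 1), by omega, le_rfl, hM'.symm⟩
    · have e1 := U_union (E := E) (c := c) (p := p) (k := k) (a := i) (b := i + d)
        (d := i + (d + 1)) (by omega) (by omega)
      have e2 := U_card_le (E := E) (c := c) (p := p) (k := k) (a := i + d)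
        (b := i + (d + 1))
      obtain ⟨b', h3, h4, h5⟩ := ih (by omega)
      exact ⟨b', h3, by omega, h5⟩

/-- **Doubling**: many positions uncovered at level `k + 1` give `2 ^ k` pairwise
non-adjacent windows. -/
theorem many_windows (K : ℕ) (hK : thr K ≤ c)
    (hfwd : ∀ i j, i + 2 ≤ j → j ≤ n → ¬ E (p i) (p j)) :
    ∀ k ≤ K, ∀ a b, a ≤ b → b ≤ n → thr k ≤ (U E c p (k + 1) a b).card →
      ∃ I : Finset ℕ, I.card = 2 ^ k ∧ Good E c p a b I := by
  classical
  intro k
  induction k with
  | zero =>
    intro _ a b hab hb hU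
    rw [thr_zero, zero_add] at hU
    obtain ⟨i, hi, hcard⟩ := exists_rank (U E c p 1 a b) 1 (by omega)
    obtain ⟨⟨hi1, hi2⟩, hi3⟩ := mem_U.1 hi
    have ha : a + 1 ≤ i := by
      by_contra hcon
      have : (U E c p 1 a b).filter (· < i) = ∅ := by
        rw [Finset.filter_eq_empty_iff]
        intro x hx
        have := (mem_U.1 hx).1.1
        omega
      rw [this] at hcard
      simp at hcard
    have hb' : i + 2 ≤ b := by
      by_contra hcon
      have h3 : (U E c p 1 a b) = insert i ((U E c p 1 a b).filter (· < i)) := by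
        ext x
        simp only [Finset.mem_insert, Finset.mem_filter]
        constructor
        · intro hx
          have := (mem_U.1 hx).1.2
          rcases Nat.lt_or_ge x i with h4 | h4
          · exact Or.inr ⟨hx, h4⟩
          · exact Or.inl (by omega)
        · rintro (rfl | h4)
          · exact hi
          · exact h4.1
      have h4 := congrArg Finset.card h3
      have h5 := Finset.card_insert_le i ((U E c p 1 a b).filter (· < i))
      omega
    refine ⟨{i}, by simp, fun j hj => ?_, fun j hj j' hj' hlt => ?_⟩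
    · rw [Finset.mem_singleton] at hj
      subst hj
      exact ⟨ha, hb', hi3⟩
    · rw [Finset.mem_singleton] at hj hj'
      omega
  | succ k ih =>
    intro hkK a b hab hb hU
    have hsub : ∀ a b, U E c p (k + 2) a b ⊆ U E c p (k + 1) a b := by
      intro a b i hi
      obtain ⟨h3, h4⟩ := mem_U.1 hi
      exact mem_U.2 ⟨h3, fun h5 => h4 (Lv.succ _ _ _ h5)⟩
    rw [thr_succ] at hU
    change 2 * thr k + 2 ≤ (U E c p (k + 2) a b).card at hU
    obtain ⟨i, hi, hcard⟩ := exists_rank (U E c p (k + 2) a b) (thr k) (by omega)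
    obtain ⟨⟨hi1, hi2⟩, hi3⟩ := mem_U.1 hi
    have hleft : thr k ≤ (U E c p (k + 1) a i).card := by
      rw [← hcard]
      refine Finset.card_le_card ?_
      intro x hx
      obtain ⟨h3, h4⟩ := Finset.mem_filter.1 hx
      exact hsub a i (mem_U.2 ⟨⟨(mem_U.1 h3).1.1, h4⟩, (mem_U.1 h3).2⟩)
    have hright : thr k ≤ (U E c p (k + 1) (i + 2) b).card ∧ i + 2 ≤ b := by
      have h3 : (U E c p (k + 2) a b) ⊆ insert (i + 1) (insert i
          ((U E c p (k + 2) a b).filter (· < i) ∪ U E c p (k + 1) (i + 2) b)) := by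
        intro x hx
        simp only [Finset.mem_insert, Finset.mem_union, Finset.mem_filter]
        have h4 := (mem_U.1 hx).1
        rcases Nat.lt_or_ge x i with h5 | h5
        · exact Or.inr (Or.inr (Or.inl ⟨hx, h5⟩))
        · rcases Nat.lt_or_ge x (i + 2) with h6 | h6
          · rcases Nat.lt_or_ge x (i + 1) with h7 | h7
            · exact Or.inr (Or.inl (by omega))
            · exact Or.inl (by omega)
          · exact Or.inr (Or.inr (Or.inr (hsub _ _ (mem_U.2 ⟨⟨h6, h4.2⟩, (mem_U.1 hx).2⟩))))
      have h4 := Finset.card_le_card h3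
      have h5 := Finset.card_insert_le (i + 1) (insert i
          ((U E c p (k + 2) a b).filter (· < i) ∪ U E c p (k + 1) (i + 2) b))
      have h6 := Finset.card_insert_le i
          ((U E c p (k + 2) a b).filter (· < i) ∪ U E c p (k + 1) (i + 2) b)
      have h7 := Finset.card_union_le ((U E c p (k + 2) a b).filter (· < i))
        (U E c p (k + 1) (i + 2) b)
      have h8 : thr k ≤ (U E c p (k + 1) (i + 2) b).card := by omega
      refine ⟨h8, ?_⟩
      by_contra hcon
      have h9 := U_card_le (E := E) (c := c) (p := p) (k := k + 1) (a := i + 2) (b := b)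
      have : thr k ≤ 0 := by omega
      have h10 : 1 ≤ 2 ^ k := Nat.one_le_two_pow
      unfold thr at this
      omega
    obtain ⟨a', ha1, ha2, ha3⟩ := exists_left hi1 hleft
    obtain ⟨b', hb1, hb2, hb3⟩ := exists_right hright.2 hright.1
    obtain ⟨I, hI, hgI⟩ := ih (by omega) a' i ha2 (by omega) (by omega)
    obtain ⟨J, hJ, hgJ⟩ := ih (by omega) (i + 2) b' hb1 (by omega) (by omega)
    have hcross : ∀ x y, a' ≤ x → x ≤ i → i < y → y ≤ b' → ¬ E (p y) (p x) := by
      intro x y hx1 hx2 hy1 hy2 hE
      refine hi3 (covered h2 (k := k + 1) (by omega) hx2 hy1 hE ?_)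
      have e1 := U_union (E := E) (c := c) (p := p) (k := k + 1) (a := a') (b := x) (d := b')
        hx1 (by omega)
      have e2 := U_union (E := E) (c := c) (p := p) (k := k + 1) (a := x) (b := y) (d := b')
        (by omega) hy2
      have e3 := U_union (E := E) (c := c) (p := p) (k := k + 1) (a := a') (b := i) (d := b')
        ha2 (by omega)
      have e4 := U_union (E := E) (c := c) (p := p) (k := k + 1) (a := i) (b := i + 2)
        (d := b') (by omega) hb1
      have e5 := U_card_le (E := E) (c := c) (p := p) (k := k + 1) (a := i) (b := i + 2)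
      have e6 := thr_succ k
      have e7 := thr_mono hkK
      omega
    refine ⟨I ∪ J, ?_, ?_, ?_⟩
    · rw [Finset.card_union_of_disjoint, hI, hJ, pow_succ]
      · ring
      · rw [Finset.disjoint_left]
        intro x hx hx'
        have := (hgI.1 x hx).2.1
        have := (hgJ.1 x hx').1
        omega
    · intro x hx
      rcases Finset.mem_union.1 hx with hx | hx
      · have := hgI.1 x hx
        exact ⟨by omega, by omega, this.2.2⟩
      · have := hgJ.1 x hx
        exact ⟨by omega, by omega, this.2.2⟩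
    · intro x hx y hy hxy
      rcases Finset.mem_union.1 hx with hx | hx
      · rcases Finset.mem_union.1 hy with hy | hy
        · exact hgI.2 x hx y hy hxy
        · have h3 := hgI.1 x hx
          have h4 := hgJ.1 y hy
          refine ⟨by omega, fun x' y' h5 h6 h7 h8 => ?_⟩
          exact hcross x' y' (by omega) (by omega) (by omega) (by omega)
      · rcases Finset.mem_union.1 hy with hy | hy
        · have h3 := hgI.1 y hy
          have h4 := hgJ.1 x hx
          omega
        · exact hgJ.2 x hx y hy hxy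

end Path

end Pool.Agent.Lib.Pe46137h7
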