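import Pool.Agent.Lib.Pe46137h7.Paths
import Pool.Agent.Lib.Pe46137h7.Logic

/-!
# Digraphs avoiding a disjoint union of directed paths on at most four vertices
-/

namespace Pool.Agent.Lib.Pe46137h7

variable {V : Type}

/-- `m` pairwise non-adjacent copies of the directed path on four vertices. -/
def HasPaths (E : V → V → Prop) (m : ℕ) : Prop :=
  ∃ c : Fin m → Fin 4 → V, (∀ j x j' x', c j x = c j' x' → j = j' ∧ x = x') ∧
    (∀ (j : Fin m) (x y : Fin 4), x.val + 1 = y.val → E (c j x) (c j y)) ∧
    ∀ (j : Fin m) (x : Fin 4) (j' : Fin m) (x' : Fin 4),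
      (j ≠ j' ∨ x.val + 2 ≤ x'.val) → ¬ Adj E (c j x) (c j' x')

theorem hasPaths_of_good {E : V → V → Prop} {a b : V} {n : ℕ} {p : ℕ → V} (h0 : p 0 = a)
    (h1 : p n = b) (h2 : ∀ i < n, E (p i) (p (i + 1))) (hmin : ∀ m, Walk E m a b → n ≤ m)
    {c : ℕ} (hc : 3 ≤ c) {I : Finset ℕ} (hI : Good E c p 0 n I) {m : ℕ} (hm : m ≤ I.card) :
    HasPaths E m := by
  classical
  let e := I.orderEmbOfFin rfl
  let w : Fin m → ℕ := fun j => e (Fin.castLE hm j)
  have hwI : ∀ j, w j ∈ I := fun j => Finset.orderEmbOfFin_mem I rfl _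
  have hwinj : ∀ j j', j < j' → w j < w j' := fun j j' hj => e.strictMono hj
  have hpos : ∀ j (x : Fin 4), w j - 1 + x.val ≤ n := by
    intro j x
    have := hI.1 _ (hwI j)
    have := x.2
    omega
  have hfar : ∀ j j', j < j' → ∀ x x' : Fin 4, w j - 1 + x.val + 2 ≤ w j' - 1 + x'.val := by
    intro j j' hj x x'
    have h3 := (hI.2 _ (hwI j) _ (hwI j') (hwinj j j' hj)).1
    have h4 := hI.1 _ (hwI j)
    have := x.2
    omega
  have hback : ∀ j j', j < j' → ∀ x x' : Fin 4,
      ¬ E (p (w j' - 1 + x'.val)) (p (w j - 1 + x.val)) := by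
    intro j j' hj x x'
    have h3 := (hI.2 _ (hwI j) _ (hwI j') (hwinj j j' hj)).2
    have h4 := hI.1 _ (hwI j)
    have h5 := hI.1 _ (hwI j')
    have := x.2
    have := x'.2
    exact h3 _ _ (by omega) (by omega) (by omega) (by omega)
  refine ⟨fun j x => p (w j - 1 + x.val), ?_, ?_, ?_⟩
  · intro j x j' x' heq
    rcases lt_trichotomy j j' with hj | hj | hj
    · exact absurd heq (path_ne h0 h1 h2 hmin (by have := hfar j j' hj x x'; omega)
        (hpos j' x'))
    · subst hj
      refine ⟨rfl, ?_⟩
      rcases lt_trichotomy x x' with hx | hx | hx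
      · exact absurd heq (path_ne h0 h1 h2 hmin (by simpa using hx) (hpos j x'))
      · exact hx
      · exact absurd heq.symm (path_ne h0 h1 h2 hmin (by simpa using hx) (hpos j x))
    · exact absurd heq.symm (path_ne h0 h1 h2 hmin (by have := hfar j' j hj x' x; omega)
        (hpos j x))
  · intro j x y hxy
    have h3 := h2 (w j - 1 + x.val) (by have := hpos j y; omega)
    have h4 : w j - 1 + x.val + 1 = w j - 1 + y.val := by omega
    rwa [h4] at h3
  · intro j x j' x' hor hadj
    rcases lt_trichotomy j j' with hj | hj | hj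
    · rcases hadj with h3 | h3
      · exact no_chord h0 h1 h2 hmin (hfar j j' hj x x') (hpos j' x') h3
      · exact hback j j' hj x x' h3
    · subst hj
      have hxx : x.val + 2 ≤ x'.val := by
        rcases hor with h3 | h3
        · exact absurd rfl h3
        · exact h3
      have h4 := hI.1 _ (hwI j)
      have := x'.2
      rcases hadj with h3 | h3
      · exact no_chord h0 h1 h2 hmin (i := w j - 1 + x.val) (j := w j - 1 + x'.val)
          (by omega) (hpos j x') h3
      · exact window h2 hc (i := w j) (by omega) (by omega) h4.2.2 (x := w j - 1 + x.val)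
          (y := w j - 1 + x'.val) (by omega) (by omega) (by omega) (by omega) h3
    · rcases hadj with h3 | h3
      · exact hback j' j hj x' x h3
      · exact no_chord h0 h1 h2 hmin (hfar j' j hj x' x) (hpos j x) h3

/-- Every digraph with few non-adjacent induced four-vertex paths has its reachability
relation captured by bounded jumps. -/
theorem reach_iff_jump {E : V → V → Prop} (K : ℕ) (hE : ¬ HasPaths E (2 ^ K)) (s t : V) :
    Reach E s t ↔ Jump E (Lv E (thr K) (K + 1)) (thr K) s t := by
  constructor
  · intro h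
    obtain ⟨n, p, h0, h1, h2, hmin⟩ := exists_shortest h
    have hj := jump_along h2 (c := thr K) (k := K + 1) (a := 0) (b := n) (Nat.zero_le _) le_rfl
    rw [h0, h1] at hj
    refine hj.le ?_
    by_contra hcon
    obtain ⟨I, hI, hg⟩ := many_windows h2 K le_rfl
      (fun i j hij hj => no_chord h0 h1 h2 hmin hij hj) K le_rfl 0 n (Nat.zero_le _) le_rfl
      (by omega)
    have hthr : 3 ≤ thr K := by
      have := thr_mono (Nat.zero_le K)
      rwa [thr_zero] at this
    exact hE (hasPaths_of_good h0 h1 h2 hmin hthr hg (le_of_eq hI.symm))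
  · exact fun h => h.reach fun a b hab => hab.reach.1

/-! ### Embedding disjoint unions of short directed paths -/

theorem walk_snoc {E : V → V → Prop} {n : ℕ} {a b c : V} (h : Walk E n a b) (h' : E b c) :
    Walk E (n + 1) a c := by
  have := h.append (.cons h' (.nil c))
  simpa using this

theorem walk_last {E : V → V → Prop} {n : ℕ} {a c : V} (h : Walk E (n + 1) a c) :
    ∃ b, Walk E n a b ∧ E b c := by
  induction n generalizing a with
  | zero =>
    cases h with
    | cons h1 h2 => cases h2 with
      | nil => exact ⟨a, .nil a, h1⟩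
  | succ n ih =>
    cases h with
    | cons h1 h2 =>
      obtain ⟨b, h3, h4⟩ := ih h2
      exact ⟨b, .cons h1 h3, h4⟩

/-- Splitting a walk. -/
theorem walk_split {E : V → V → Prop} {m n : ℕ} {a c : V} (h : Walk E (m + n) a c) :
    ∃ b, Walk E m a b ∧ Walk E n b c := by
  induction m generalizing a with
  | zero => exact ⟨a, .nil a, by simpa using h⟩
  | succ m ih =>
    have h' : Walk E ((m + n) + 1) a c := by
      have e : m + 1 + n = (m + n) + 1 := by omega
      rwa [e] at h
    cases h' with
    | cons h1 h2 =>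
      obtain ⟨b, h3, h4⟩ := ih h2
      exact ⟨b, .cons h1 h3, h4⟩

section Embed

variable {h : ℕ} {H : Fin h → Fin h → Prop}

/-- Out-degree at most one makes walks deterministic. -/
theorem walk_out_unique (hout : ∀ i j k, H i j → H i k → j = k) {n : ℕ} {a b b' : Fin h}
    (h1 : Walk H n a b) (h2 : Walk H n a b') : b = b' := by
  induction n generalizing b b' with
  | zero => cases h1; cases h2; rfl
  | succ n ih =>
    obtain ⟨c, h3, h4⟩ := walk_last h1
    obtain ⟨c', h5, h6⟩ := walk_last h2
    obtain rfl := ih h3 h5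
    exact hout _ _ _ h4 h6

/-- In-degree at most one: backward walks are deterministic, and they end at a source. -/
theorem walk_in_unique (hin : ∀ i j k, H i k → H j k → i = j) {m n : ℕ} {a a' b : Fin h}
    (h1 : Walk H m a b) (h2 : Walk H n a' b) (ha : ∀ j, ¬ H j a) (ha' : ∀ j, ¬ H j a') :
    m = n ∧ a = a' := by
  induction m generalizing n b with
  | zero =>
    cases h1
    cases n with
    | zero => cases h2; exact ⟨rfl, rfl⟩
    | succ n =>
      obtain ⟨c, _, h4⟩ := walk_last h2
      exact absurd h4 (ha c)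
  | succ m ih =>
    obtain ⟨c, h3, h4⟩ := walk_last h1
    cases n with
    | zero => cases h2; exact absurd h4 (ha' c)
    | succ n =>
      obtain ⟨c', h5, h6⟩ := walk_last h2
      obtain rfl := hin _ _ _ h4 h6
      obtain ⟨h7, h8⟩ := ih h3 h5
      exact ⟨by omega, h8⟩

theorem exists_source (h4 : ∀ a b, ¬ Walk H 4 a b) (b : Fin h) :
    ∃ a, ∃ k : Fin 4, Walk H k.val a b ∧ ∀ j, ¬ H j a := by
  classical
  by_contra hcon
  push Not at hcon
  have key : ∀ k, k ≤ 4 → ∃ a, Walk H k a b := by
    intro k
    induction k with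
    | zero => intro _; exact ⟨b, .nil b⟩
    | succ k ih =>
      intro hk
      obtain ⟨a, ha⟩ := ih (by omega)
      obtain ⟨j, hj⟩ := hcon a ⟨k, by omega⟩ ha
      exact ⟨j, .cons hj ha⟩
  obtain ⟨a, ha⟩ := key 4 le_rfl
  exact h4 a b ha

/-- A disjoint union of directed paths on at most four vertices embeds into sufficiently many
non-adjacent four-vertex paths. -/
theorem not_avoids_of_hasPaths (hout : ∀ i j k, H i j → H i k → j = k)
    (hin : ∀ i j k, H i k → H j k → i = j) (h4 : ∀ a b, ¬ Walk H 4 a b)
    {E : V → V → Prop} (hE : HasPaths E h) : ¬ Avoids H E := by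
  classical
  obtain ⟨c, hc1, hc2, hc3⟩ := hE
  choose r k hw hs using exists_source h4
  intro hav
  refine hav ⟨fun i => c (r i) (k i), ?_, ?_, ?_⟩
  · intro i j hij
    obtain ⟨h1, h2⟩ := hc1 _ _ _ _ hij
    have h3 := hw i
    rw [h1, h2] at h3
    exact walk_out_unique hout h3 (hw j)
  · intro i j hij
    have h1 : Walk H ((k i).val + 1) (r i) j := walk_snoc (hw i) hij
    obtain ⟨h2, h3⟩ := walk_in_unique hin h1 (hw j) (hs i) (hs j)
    have := hc2 (r i) (k i) (k j) h2
    change E (c (r i) (k i)) (c (r j) (k j))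
    rw [← h3]
    exact this
  · intro i j hij hnadj
    have hcase : ∀ i j, i ≠ j → ¬ Adj H i j → r i = r j → (k i).val < (k j).val →
        (k i).val + 2 ≤ (k j).val := by
      intro i j hij hnadj hr hlt
      by_contra hcon
      have h1 : (k j).val = (k i).val + 1 := by omega
      have h2 := hw j
      rw [h1] at h2
      obtain ⟨b, h3, h5⟩ := walk_last h2
      have h6 := hw i
      rw [hr] at h6
      obtain rfl := walk_out_unique hout h3 h6
      exact hnadj (Or.inl h5)
    by_cases hr : r i = r j
    · rcases lt_trichotomy (k i).val (k j).val with hlt | heq | hlt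
      · exact hc3 _ _ _ _ (Or.inr (hcase i j hij hnadj hr hlt))
      · exfalso
        have h1 := hw i
        rw [hr, heq] at h1
        exact hij (walk_out_unique hout h1 (hw j))
      · have := hc3 (r j) (k j) (r i) (k i)
          (Or.inr (hcase j i hij.symm (fun h => hnadj h.symm) hr.symm hlt))
        exact fun h => this h.symm
    · exact hc3 _ _ _ _ (Or.inl hr)

end Embed

/-! ### Definability -/

theorem Def2.jump {S : ∀ V : Type, (V → V → Prop) → V → V → Prop} (hS : Def2 S) (j : ℕ) :
    Def2 fun V E => Jump E (S V E) j := by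
  induction j with
  | zero => exact hS
  | succ j ih => exact ih.or (ih.comp (Def2.arc.comp hS))

theorem Def2.lv (c k : ℕ) : Def2 fun _ E => Lv E c k := by
  induction k with
  | zero => exact Def2.eq
  | succ k ih => exact (Def2.arc.and (ih.jump c).inv).stc

/-- Reachability on digraphs avoiding a disjoint union of directed paths on at most four
vertices is expressible in first-order logic with symmetric transitive closure. -/
theorem definable_of_short {h : ℕ} {H : Fin h → Fin h → Prop}
    (hout : ∀ i j k, H i j → H i k → j = k)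
    (hin : ∀ i j k, H i k → H j k → i = j) (h4 : ∀ a b, ¬ Walk H 4 a b) :
    ∃ φ : Fml Unit 2, ∀ (V : Type) (E : V → V → Prop), Avoids H E →
      ∀ s t, Sat (fun _ => E) φ (pair s t) ↔ Reach E s t := by
  obtain ⟨φ, hφ⟩ := (Def2.lv (thr h) (h + 1)).jump (thr h)
  refine ⟨φ, fun V E hav s t => ?_⟩
  rw [hφ]
  refine (reach_iff_jump h (fun hP => ?_) s t).symm
  refine not_avoids_of_hasPaths hout hin h4 ?_ hav
  obtain ⟨c, h1, h2, h3⟩ := hP
  have hle : h ≤ 2 ^ h := Nat.lt_two_pow_self.le
  refine ⟨fun j => c (Fin.castLE hle j), ?_, ?_, ?_⟩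
  · intro j x j' x' heq
    obtain ⟨h5, h6⟩ := h1 _ _ _ _ heq
    exact ⟨Fin.castLE_injective hle h5, h6⟩
  · intro j x y hxy
    exact h2 _ _ _ hxy
  · intro j x j' x' hor
    refine h3 _ _ _ _ ?_
    rcases hor with h5 | h5
    · exact Or.inl fun h6 => h5 (Fin.castLE_injective hle h6)
    · exact Or.inr h5

end Pool.Agent.Lib.Pe46137h7
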