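import Pool.Agent.Lib.Pe46137h7.PathsMain
import Pool.Agent.Lib.Pe46137h7.DefN
import Pool.Agent.Lib.Pe46137h7.MonoDefs

/-!
# Reachability in digraphs without a spider with three legs of length `c`
-/

namespace Pool.Agent.Lib.Pe46137h7.Mono

variable {V : Type}

/-- A spider with an incoming leg `q` and outgoing legs `x`, `y`, all of length `c`. -/
def HasOut (c : ℕ) (E : V → V → Prop) : Prop :=
  ∃ q x y : ℕ → V, q 0 = x 0 ∧ q 0 = y 0 ∧
    (∀ k < c, E (q (k + 1)) (q k) ∧ E (x k) (x (k + 1)) ∧ E (y k) (y (k + 1))) ∧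
    (∀ i j, i < j → j ≤ c → q i ≠ q j ∧ x i ≠ x j ∧ y i ≠ y j) ∧
    ∀ i j, 0 < i → i ≤ c → 0 < j → j ≤ c → q i ≠ x j ∧ q i ≠ y j ∧ x i ≠ y j

section Defs

variable (E : V → V → Prop) (c : ℕ)

/-- `x` and `y` lie on a closed walk of length at most `2 * c`. -/
def Short (x y : V) : Prop := ∃ i ≤ 2 * c, ∃ j ≤ 2 * c - i, Walk E i x y ∧ Walk E j y x

/-- The equivalence relation generated by short closed walks. -/
def Cls (x y : V) : Prop := Relation.ReflTransGen (Sym (Short E c)) x y

/-- There is a walk of length `n` from the class of `u` to `y`. -/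
def Out (n : ℕ) (u y : V) : Prop := ∃ z, Cls E c u z ∧ Walk E n z y

/-- The distance from the class of `u` to `y` is `n`. -/
def Lev (n : ℕ) (u y : V) : Prop := Out E c n u y ∧ ∀ m < n, ¬ Out E c m u y

/-- `x` lies at distance `c - k` from the class of `u` and starts a path of length `k` along
which the distance increases. -/
def Ext : ℕ → V → V → Prop
  | 0, u, x => Lev E c c u x
  | k + 1, u, x => Lev E c (c - (k + 1)) u x ∧ ∃ x', Ext k u x' ∧ E x x'

/-- `x` and `y` start disjoint paths of length `k` along which the distance from the class of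
`u` increases up to `c`. -/
def Dis : ℕ → V → V → V → Prop
  | 0, u, x, y => Lev E c c u x ∧ Lev E c c u y ∧ x ≠ y
  | k + 1, u, x, y => Lev E c (c - (k + 1)) u x ∧ Lev E c (c - (k + 1)) u y ∧ x ≠ y ∧
      ∃ x' y', (E x x' ∧ E y y') ∧ Dis k u x' y'

/-- The class of `u` has two disjoint geodesic exits of length `c`. -/
def Bad (u : V) : Prop := ∃ x y, Dis E c (c - 1) u x y

/-- `t` is within distance `c` of the class of `u`. -/
def Near (u t : V) : Prop := ∃ n ≤ c, Out E c n u t

/-- The exits that are two-way for the target `t`. -/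
def Edge (t u x : V) : Prop := ¬ Bad E c u ∧ ¬ Near E c u t ∧ Ext E c (c - 1) u x

/-- Undirected connectivity by closed walks and two-way exits. -/
def Conn (t u x : V) : Prop := Relation.ReflTransGen
  (fun p q => (Short E c p q ∨ Edge E c t p q) ∨ (Short E c q p ∨ Edge E c t q p)) u x

/-- `j` arcs separated by moves inside classes. -/
def Chain : ℕ → V → V → Prop
  | 0, s, p => s = p
  | j + 1, s, p => ∃ q, Chain j s q ∧ Out E c 1 q p

/-- The target is captured from the start of a long chain. -/
def Far (s t : V) : Prop := ∃ u, Conn E c t s u ∧ Near E c u t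

/-- The candidate for reachability. -/
def Capt (s t : V) : Prop :=
  (∃ j ≤ c, ∃ p, Chain E c j s p ∧ Near E c p t) ∨ ∃ p, Chain E c c s p ∧ Far E c p t

end Defs

variable {E : V → V → Prop} {c : ℕ}

theorem Walk.reach {n : ℕ} {x y : V} (h : Walk E n x y) : Reach E x y :=
  reach_iff_walk.2 ⟨n, h⟩

theorem Short.symm {x y : V} (h : Short E c x y) : Short E c y x := by
  obtain ⟨i, hi, j, hj, h1, h2⟩ := h
  exact ⟨j, by omega, i, by omega, h2, h1⟩

theorem Short.reach {x y : V} (h : Short E c x y) : Reach E x y := by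
  obtain ⟨i, hi, j, hj, h1, h2⟩ := h
  exact Walk.reach h1

theorem Cls.refl (x : V) : Cls E c x x := Relation.ReflTransGen.refl

theorem Cls.symm {x y : V} (h : Cls E c x y) : Cls E c y x := by
  induction h with
  | refl => exact Relation.ReflTransGen.refl
  | tail _ h1 ih => exact Relation.ReflTransGen.head h1.symm ih

theorem Cls.trans {x y z : V} (h : Cls E c x y) (h' : Cls E c y z) : Cls E c x z :=
  Relation.ReflTransGen.trans h h'

theorem Cls.of_short {x y : V} (h : Short E c x y) : Cls E c x y := .single (Or.inl h)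

theorem Cls.reach {x y : V} (h : Cls E c x y) : Reach E x y := by
  induction h with
  | refl => exact .refl
  | tail _ h1 ih =>
    rcases h1 with h1 | h1
    · exact ih.trans h1.reach
    · exact ih.trans h1.symm.reach

theorem Out.reach {n : ℕ} {u y : V} (h : Out E c n u y) : Reach E u y := by
  obtain ⟨z, h1, h2⟩ := h
  exact h1.reach.trans (Walk.reach h2)

theorem Out.congr {n : ℕ} {u u' y : V} (h : Out E c n u y) (hu : Cls E c u u') :
    Out E c n u' y := by
  obtain ⟨z, h1, h2⟩ := h
  exact ⟨z, hu.symm.trans h1, h2⟩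

theorem Out.append {n m : ℕ} {u y z : V} (h : Out E c n u y) (h' : Walk E m y z) :
    Out E c (n + m) u z := by
  obtain ⟨w, h1, h2⟩ := h
  exact ⟨w, h1, h2.append h'⟩

theorem Lev.unique {n m : ℕ} {u y : V} (h : Lev E c n u y) (h' : Lev E c m u y) : n = m := by
  rcases lt_trichotomy n m with h1 | h1 | h1
  · exact absurd h.1 (h'.2 n h1)
  · exact h1
  · exact absurd h'.1 (h.2 m h1)

/-- Classes are strongly connected. -/
theorem Cls.inside {x y : V} (h : Cls E c x y) :
    Reach (fun p q => E p q ∧ Cls E c x p ∧ Cls E c x q) x y := by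
  have key : ∀ {p q : V} {n m : ℕ}, n + m ≤ 2 * c → Walk E n p q → Walk E m q p →
      Cls E c x p → Reach (fun p q => E p q ∧ Cls E c x p ∧ Cls E c x q) p q := by
    intro p q n m hnm h1 h2 hp
    induction h1 generalizing m with
    | nil => exact .refl
    | @cons n a b d hab h3 ih =>
      have h4 : Short E c a b := by
        refine ⟨1, by omega, n + m, by omega, ?_, h3.append h2⟩
        exact .cons hab (.nil _)
      have hb : Cls E c x b := hp.trans (.of_short h4)
      have h5 := ih (m := m + 1) (by omega) (walk_snoc h2 hab) hb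
      exact .head ⟨hab, hp, hb⟩ h5
  induction h with
  | refl => exact .refl
  | @tail b d h1 h2 ih =>
    refine ih.trans ?_
    have h3 : Short E c b d := by
      rcases h2 with h2 | h2
      · exact h2
      · exact h2.symm
    obtain ⟨i, hi, j, hj, h4, h5⟩ := h3
    exact key (by omega) h4 h5 h1

/-- A shortest walk from the class of `u` to `t`. -/
theorem exists_geodesic {u t : V} (h : Reach E u t) :
    ∃ (n : ℕ) (w : ℕ → V), Cls E c u (w 0) ∧ w n = t ∧ (∀ i < n, E (w i) (w (i + 1))) ∧
      (∀ i ≤ n, Lev E c i u (w i)) := by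
  classical
  have hex : ∃ n, Out E c n u t := by
    obtain ⟨n, hn⟩ := reach_iff_walk.1 h
    exact ⟨n, u, Cls.refl u, hn⟩
  obtain ⟨z, h1, h2⟩ := Nat.find_spec hex
  obtain ⟨w, h3, h4, h5⟩ := exists_path h2
  refine ⟨Nat.find hex, w, by rwa [h3], h4, h5, ?_⟩
  intro i hi
  have h6 := walk_of_path h5 0 i (Nat.zero_le _) hi
  have h7 := walk_of_path h5 i _ hi le_rfl
  refine ⟨⟨z, h1, by rw [h3] at h6; simpa using h6⟩, ?_⟩
  intro m hm hout
  have h8 := hout.append h7
  rw [h4] at h8
  have := Nat.find_min' hex h8
  omega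

/-- If two paths with increasing distances cannot be disjoint then one reaches what the other
reaches. -/
theorem reach_of_not_dis {u : V} {t : V} : ∀ (k : ℕ) (x : V) (w : ℕ → V), k ≤ c →
    Ext E c k u x → (∀ i < k, E (w i) (w (i + 1))) → (∀ i ≤ k, Lev E c (c - k + i) u (w i)) →
    Reach E (w k) t → ¬ Dis E c k u x (w 0) → Reach E x t := by
  intro k
  induction k with
  | zero =>
    intro x w _ hx _ hlev hr hd
    by_cases hxw : x = w 0
    · rw [hxw]; exact hr
    · exfalso
      apply hd
      refine ⟨hx, ?_, hxw⟩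
      have := hlev 0 le_rfl
      simpa using this
  | succ k ih =>
    intro x w hk hx hw hlev hr hd
    by_cases hxw : x = w 0
    · rw [hxw]
      have h1 := walk_of_path hw 0 (k + 1) (Nat.zero_le _) le_rfl
      exact (Walk.reach h1).trans hr
    · obtain ⟨hx1, x', hx2, hx3⟩ := hx
      refine .head hx3 (ih x' (fun i => w (i + 1)) (by omega) hx2
        (fun i hi => hw (i + 1) (by omega)) (fun i hi => ?_) hr fun hd' => ?_)
      · have h1 := hlev (i + 1) (by omega)
        have h2 : c - (k + 1) + (i + 1) = c - k + i := by omega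
        rwa [h2] at h1
      · apply hd
        refine ⟨hx1, ?_, hxw, x', w 1, ⟨hx3, hw 0 (by omega)⟩, hd'⟩
        have := hlev 0 (Nat.zero_le _)
        simpa using this

theorem Ext.lev {k : ℕ} {u x : V} (hk : k ≤ c) (h : Ext E c k u x) : Lev E c (c - k) u x := by
  cases k with
  | zero => rw [Nat.sub_zero]; exact h
  | succ k => exact h.1

/-- The two-way exits are two-way. -/
theorem Edge.iff (hc : 0 < c) {t u x : V} (h : Edge E c t u x) : Reach E u t ↔ Reach E x t := by
  obtain ⟨h1, h2, h3⟩ := h
  constructor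
  · intro hr
    obtain ⟨n, w, hw0, hw1, hw2, hw3⟩ := exists_geodesic (c := c) hr
    have hn : c < n := by
      by_contra hcon
      exact h2 ⟨n, by omega, by rw [← hw1]; exact (hw3 n le_rfl).1⟩
    refine reach_of_not_dis (c - 1) x (fun i => w (i + 1)) (by omega) h3
      (fun i hi => hw2 _ (by omega)) (fun i hi => ?_) ?_ fun hd => h1 ⟨x, _, hd⟩
    · have h4 : c - (c - 1) + i = i + 1 := by omega
      rw [h4]
      exact hw3 _ (by omega)
    · have h4 : c - 1 + 1 = c := by omega
      simp only [h4]
      have h5 := walk_of_path hw2 c n (by omega) le_rfl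
      rw [hw1] at h5
      exact Walk.reach h5
  · intro hr
    exact (Out.reach (h3.lev (by omega)).1).trans hr

theorem Conn.reach (hc : 0 < c) {t u x : V} (h : Conn E c t u x) (hx : Reach E x t) :
    Reach E u t := by
  induction h using Relation.ReflTransGen.head_induction_on with
  | refl => exact hx
  | @head a b hab _ ih =>
    rcases hab with (hab | hab) | (hab | hab)
    · exact hab.reach.trans ih
    · exact (hab.iff hc).2 ih
    · exact hab.symm.reach.trans ih
    · exact (hab.iff hc).1 ih

theorem Near.reach {u t : V} (h : Near E c u t) : Reach E u t := by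
  obtain ⟨n, _, h1⟩ := h
  exact h1.reach

theorem Chain.reach {j : ℕ} {s p : V} (h : Chain E c j s p) : Reach E s p := by
  induction j generalizing p with
  | zero => rw [show s = p from h]
  | succ j ih =>
    obtain ⟨q, h1, h2⟩ := h
    exact (ih h1).trans h2.reach

/-- **Soundness**, for every digraph. -/
theorem Capt.reach (hc : 0 < c) {s t : V} (h : Capt E c s t) : Reach E s t := by
  rcases h with ⟨j, _, p, h1, h2⟩ | ⟨p, h1, u, h2, h3⟩
  · exact h1.reach.trans h2.reach
  · exact h1.reach.trans (h2.reach hc h3.reach)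

end Pool.Agent.Lib.Pe46137h7.Mono
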