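import Pool.Agent.Lib.Pe46137h7.Spider

/-!
# Building a spider from two disjoint exits of a class entered by a path
-/

namespace Pool.Agent.Lib.Pe46137h7.Mono

variable {V : Type} {E : V → V → Prop} {c : ℕ}

/-- A path of length `k` into `e` whose vertices other than `e` satisfy `P`. -/
def InLeg (E : V → V → Prop) (k : ℕ) (e : V) (P : V → Prop) : Prop :=
  ∃ q : ℕ → V, q 0 = e ∧ (∀ i < k, E (q (i + 1)) (q i)) ∧
    (∀ i j, i < j → j ≤ k → q i ≠ q j) ∧ ∀ i, 0 < i → i ≤ k → P (q i)

theorem InLeg.mono {k l : ℕ} {e : V} {P Q : V → Prop} (h : InLeg E k e P) (hl : l ≤ k)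
    (hPQ : ∀ v, P v → Q v) : InLeg E l e Q := by
  obtain ⟨q, h0, h1, h2, h3⟩ := h
  exact ⟨q, h0, fun i hi => h1 i (by omega), fun i j hij hj => h2 i j hij (by omega),
    fun i hi hil => hPQ _ (h3 i hi (by omega))⟩

theorem Dis.paths {u : V} : ∀ (k : ℕ) (x y : V), k ≤ c → Dis E c k u x y →
    ∃ f g : ℕ → V, f 0 = x ∧ g 0 = y ∧ (∀ i < k, E (f i) (f (i + 1)) ∧ E (g i) (g (i + 1))) ∧
      ∀ i ≤ k, Lev E c (c - k + i) u (f i) ∧ Lev E c (c - k + i) u (g i) ∧ f i ≠ g i := by
  intro k
  induction k with
  | zero =>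
    intro x y _ h
    refine ⟨fun _ => x, fun _ => y, rfl, rfl, fun i hi => absurd hi (Nat.not_lt_zero _), ?_⟩
    intro i hi
    obtain rfl : i = 0 := by omega
    have h' : Lev E c c u x ∧ Lev E c c u y ∧ x ≠ y := h
    simpa using h'
  | succ k ih =>
    intro x y hk h
    obtain ⟨h1, h2, h3, x', y', ⟨h4, h5⟩, h6⟩ := h
    obtain ⟨f, g, hf, hg, hE, hlev⟩ := ih x' y' (by omega) h6
    refine ⟨fun i => if i = 0 then x else f (i - 1), fun i => if i = 0 then y else g (i - 1),
      by simp, by simp, ?_, ?_⟩
    · intro i hi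
      rcases Nat.eq_zero_or_pos i with rfl | hpos
      · simpa [hf, hg] using ⟨h4, h5⟩
      · have := hE (i - 1) (by omega)
        have e1 : i - 1 + 1 = i := by omega
        have e2 : i ≠ 0 := by omega
        rw [e1] at this
        simpa [e2] using this
    · intro i hi
      rcases Nat.eq_zero_or_pos i with rfl | hpos
      · simpa using ⟨h1, h2, h3⟩
      · have := hlev (i - 1) (by omega)
        have e1 : c - k + (i - 1) = c - (k + 1) + i := by omega
        have e2 : i ≠ 0 := by omega
        rw [e1] at this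
        simpa [e2] using this

/-- A path inside a class. -/
theorem Cls.path {x y : V} (h : Cls E c x y) : ∃ (n : ℕ) (b : ℕ → V), b 0 = x ∧ b n = y ∧
    (∀ i < n, E (b i) (b (i + 1))) ∧ (∀ i j, i < j → j ≤ n → b i ≠ b j) ∧
      ∀ i ≤ n, Cls E c x (b i) := by
  obtain ⟨n, b, h0, h1, h2, hmin⟩ := exists_shortest h.inside
  refine ⟨n, b, h0, h1, fun i hi => (h2 i hi).1,
    fun i j hij hj => path_ne h0 h1 h2 hmin hij hj, ?_⟩
  intro i hi
  rcases Nat.eq_zero_or_pos i with rfl | hpos
  · rw [h0]; exact Cls.refl x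
  · have := (h2 (i - 1) (by omega)).2.2
    have e1 : i - 1 + 1 = i := by omega
    rwa [e1] at this

theorem walk_back {q : ℕ → V} {k : ℕ} (h : ∀ i < k, E (q (i + 1)) (q i)) :
    ∀ i ≤ k, Walk E i (q i) (q 0) := by
  intro i
  induction i with
  | zero => intro _; exact .nil _
  | succ i ih => intro hi; exact .cons (h i (by omega)) (ih (by omega))

/-- **Two disjoint exits of a class entered by a path give a spider.** -/
theorem hasOut_of_bad (hc : 0 < c) {u e : V} (he : Cls E c u e)
    (hq : InLeg E c e fun v => ¬ Cls E c u v) (hb : Bad E c u) : HasOut c E := by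
  classical
  obtain ⟨x1, y1, hd⟩ := hb
  obtain ⟨f, g, hf0, hg0, hfg, hlev⟩ := hd.paths _ _ _ (by omega)
  have hlev' : ∀ i < c, Lev E c (i + 1) u (f i) ∧ Lev E c (i + 1) u (g i) ∧ f i ≠ g i := by
    intro i hi
    have := hlev i (by omega)
    have e1 : c - (c - 1) + i = i + 1 := by omega
    rwa [e1] at this
  obtain ⟨q, hq0, hq1, hq2, hq3⟩ := hq
  obtain ⟨zx, hzx, hzx'⟩ := (hlev' 0 hc).1.1
  obtain ⟨zy, hzy, hzy'⟩ := (hlev' 0 hc).2.1.1
  have hEx : E zx (f 0) := by
    cases hzx' with
    | cons h1 h2 => cases h2 with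
      | nil => exact h1
  have hEy : E zy (g 0) := by
    cases hzy' with
    | cons h1 h2 => cases h2 with
      | nil => exact h1
  -- the vertices of the exits are outside the class
  have hfU : ∀ i < c, ¬ Cls E c u (f i) := fun i hi hcls =>
    (hlev' i hi).1.2 0 (by omega) ⟨f i, hcls, .nil _⟩
  have hgU : ∀ i < c, ¬ Cls E c u (g i) := fun i hi hcls =>
    (hlev' i hi).2.1.2 0 (by omega) ⟨g i, hcls, .nil _⟩
  have hff : ∀ i j, i < j → j < c → f i ≠ f j := by
    intro i j hij hj heq
    have h1 := (hlev' i (by omega)).1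
    rw [heq] at h1
    have := h1.unique (hlev' j hj).1
    omega
  have hgg : ∀ i j, i < j → j < c → g i ≠ g j := by
    intro i j hij hj heq
    have h1 := (hlev' i (by omega)).2.1
    rw [heq] at h1
    have := h1.unique (hlev' j hj).2.1
    omega
  have hfgne : ∀ i j, i < c → j < c → f i ≠ g j := by
    intro i j hi hj heq
    have h1 := (hlev' i hi).1
    rw [heq] at h1
    have := h1.unique (hlev' j hj).2.1
    obtain rfl : i = j := by omega
    exact (hlev' i hi).2.2 heq
  -- paths inside the class
  obtain ⟨m, b, hb0, hbm, hb1, hb2, hb3⟩ := (he.symm.trans hzx).path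
  obtain ⟨n, d, hd0, hdn, hd1, hd2, hd3⟩ := (he.symm.trans hzy).path
  have hbU : ∀ i ≤ m, Cls E c u (b i) := fun i hi => he.trans (hb3 i hi)
  have hdU : ∀ i ≤ n, Cls E c u (d i) := fun i hi => he.trans (hd3 i hi)
  -- the last vertex of the first path on the second path
  have hex : ∃ k, k ≤ m ∧ ∃ j ≤ n, b (m - k) = d j :=
    ⟨m, le_rfl, 0, Nat.zero_le _, by rw [Nat.sub_self, hb0, hd0]⟩
  obtain ⟨hβ, α, hα, hαb⟩ := Nat.find_spec hex
  have hmax : ∀ k < Nat.find hex, ∀ j ≤ n, b (m - k) ≠ d j := by
    intro k hk j hj heq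
    exact Nat.find_min hex hk ⟨by omega, j, hj, heq⟩
  generalize Nat.find hex = β at hβ hαb hmax
  clear hex
  set i0 := m - β with hi0
  set γ := n - α with hγ
  have hlate : ∀ k, 0 < k → k ≤ β → ∀ j ≤ n, b (i0 + k) ≠ d j := by
    intro k hk hkβ j hj
    have := hmax (β - k) (by omega) j hj
    have e1 : m - (β - k) = i0 + k := by omega
    rwa [e1] at this
  -- the legs
  let q' : ℕ → V := fun k => if k ≤ α then d (α - k) else q (k - α)
  let x' : ℕ → V := fun k => if k ≤ β then b (i0 + k) else f (k - β - 1)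
  let y' : ℕ → V := fun k => if k ≤ γ then d (α + k) else g (k - γ - 1)
  have q1 : ∀ k, k ≤ α → q' k = d (α - k) := fun k hk => by simp [q', hk]
  have q2 : ∀ k, α < k → q' k = q (k - α) := fun k hk => by
    have : ¬ k ≤ α := by omega
    simp [q', this]
  have q3 : ∀ k, α ≤ k → q' k = q (k - α) := fun k hk => by
    rcases Nat.eq_or_lt_of_le hk with h | h
    · rw [← h, q1 α le_rfl, Nat.sub_self, hd0, hq0]
    · exact q2 k h
  have x1' : ∀ k, k ≤ β → x' k = b (i0 + k) := fun k hk => by simp [x', hk]
  have x2 : ∀ k, β < k → x' k = f (k - β - 1) := fun k hk => by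
    have : ¬ k ≤ β := by omega
    simp [x', this]
  have y1' : ∀ k, k ≤ γ → y' k = d (α + k) := fun k hk => by simp [y', hk]
  have y2 : ∀ k, γ < k → y' k = g (k - γ - 1) := fun k hk => by
    have : ¬ k ≤ γ := by omega
    simp [y', this]
  -- the walks from `e` to the outer parts
  have hwalkb : Walk E (α + β) e zx := by
    have h1 := walk_of_path hd1 0 α (Nat.zero_le _) hα
    have h2 := walk_of_path hb1 i0 m (by omega) le_rfl
    rw [hd0, ← hαb] at h1
    rw [hbm] at h2
    have h3 := h1.append h2
    have e1 : α - 0 + (m - i0) = α + β := by omega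
    rwa [e1] at h3
  have hwalkd : Walk E (α + γ) e zy := by
    have h1 := walk_of_path hd1 0 n (Nat.zero_le _) le_rfl
    rw [hd0, hdn] at h1
    have e1 : n - 0 = α + γ := by omega
    rwa [e1] at h1
  have hwalkf : ∀ j < c, Walk E (α + β + (j + 1)) e (f j) := by
    intro j hj
    have h1 := walk_of_path (E := E) (p := f) (n := c - 1) (fun i hi => (hfg i hi).1) 0 j
      (Nat.zero_le _) (by omega)
    have h2 := hwalkb.append (.cons hEx h1)
    have e1 : j - 0 + 1 = j + 1 := by omega
    rwa [e1] at h2
  have hwalkg : ∀ j < c, Walk E (α + γ + (j + 1)) e (g j) := by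
    intro j hj
    have h1 := walk_of_path (E := E) (p := g) (n := c - 1) (fun i hi => (hfg i hi).2) 0 j
      (Nat.zero_le _) (by omega)
    have h2 := hwalkd.append (.cons hEy h1)
    have e1 : j - 0 + 1 = j + 1 := by omega
    rwa [e1] at h2
  have hqf : ∀ i j, 0 < i → i ≤ c → j < c → α + β + (j + 1) + i ≤ 2 * c → q i ≠ f j := by
    intro i j hi hic hj hle heq
    have h1 := walk_back hq1 i hic
    rw [hq0] at h1
    have h2 := hwalkf j hj
    rw [← heq] at h2
    exact hq3 i hi hic (he.trans (.of_short ⟨_, by omega, i, by omega, h2, h1⟩))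
  have hqg : ∀ i j, 0 < i → i ≤ c → j < c → α + γ + (j + 1) + i ≤ 2 * c → q i ≠ g j := by
    intro i j hi hic hj hle heq
    have h1 := walk_back hq1 i hic
    rw [hq0] at h1
    have h2 := hwalkg j hj
    rw [← heq] at h2
    exact hq3 i hi hic (he.trans (.of_short ⟨_, by omega, i, by omega, h2, h1⟩))
  refine ⟨q', x', y', ?_, ?_, ?_, ?_, ?_⟩
  · rw [q1 0 (Nat.zero_le _), x1' 0 (Nat.zero_le _)]
    simpa using hαb.symm
  · rw [q1 0 (Nat.zero_le _), y1' 0 (Nat.zero_le _)]
    simp
  · intro k hk
    refine ⟨?_, ?_, ?_⟩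
    · rcases Nat.lt_or_ge k α with h | h
      · rw [q1 (k + 1) (by omega), q1 k (by omega)]
        have := hd1 (α - (k + 1)) (by omega)
        have e1 : α - (k + 1) + 1 = α - k := by omega
        rwa [e1] at this
      · rw [q3 (k + 1) (by omega), q3 k h]
        have e1 : k + 1 - α = k - α + 1 := by omega
        rw [e1]
        exact hq1 _ (by omega)
    · rcases Nat.lt_or_ge k β with h | h
      · rw [x1' (k + 1) (by omega), x1' k (by omega)]
        exact hb1 _ (by omega)
      · rcases Nat.eq_or_lt_of_le h with h' | h'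
        · rw [← h', x1' β le_rfl, x2 (β + 1) (by omega)]
          have e1 : i0 + β = m := by omega
          have e2 : β + 1 - β - 1 = 0 := by omega
          rw [e1, e2, hbm]
          exact hEx
        · rw [x2 (k + 1) (by omega), x2 k h']
          have e1 : k + 1 - β - 1 = k - β - 1 + 1 := by omega
          rw [e1]
          exact (hfg _ (by omega)).1
    · rcases Nat.lt_or_ge k γ with h | h
      · rw [y1' (k + 1) (by omega), y1' k (by omega)]
        exact hd1 _ (by omega)
      · rcases Nat.eq_or_lt_of_le h with h' | h'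
        · rw [← h', y1' γ le_rfl, y2 (γ + 1) (by omega)]
          have e1 : α + γ = n := by omega
          have e2 : γ + 1 - γ - 1 = 0 := by omega
          rw [e1, e2, hdn]
          exact hEy
        · rw [y2 (k + 1) (by omega), y2 k h']
          have e1 : k + 1 - γ - 1 = k - γ - 1 + 1 := by omega
          rw [e1]
          exact (hfg _ (by omega)).2
  · intro i j hij hj
    refine ⟨?_, ?_, ?_⟩
    · rcases Nat.lt_or_ge α j with h | h
      · rcases Nat.lt_or_ge α i with h' | h'
        · rw [q2 i h', q2 j h]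
          exact hq2 _ _ (by omega) (by omega)
        · rw [q1 i h', q2 j h]
          intro heq
          exact hq3 _ (by omega) (by omega) (heq ▸ hdU _ (by omega))
      · rw [q1 i (by omega), q1 j h]
        exact (hd2 _ _ (by omega) (by omega)).symm
    · rcases Nat.lt_or_ge β j with h | h
      · rcases Nat.lt_or_ge β i with h' | h'
        · rw [x2 i h', x2 j h]
          exact hff _ _ (by omega) (by omega)
        · rw [x1' i h', x2 j h]
          intro heq
          exact hfU _ (by omega) (heq ▸ hbU _ (by omega))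
      · rw [x1' i (by omega), x1' j h]
        exact hb2 _ _ (by omega) (by omega)
    · rcases Nat.lt_or_ge γ j with h | h
      · rcases Nat.lt_or_ge γ i with h' | h'
        · rw [y2 i h', y2 j h]
          exact hgg _ _ (by omega) (by omega)
        · rw [y1' i h', y2 j h]
          intro heq
          exact hgU _ (by omega) (heq ▸ hdU _ (by omega))
      · rw [y1' i (by omega), y1' j h]
        exact hd2 _ _ (by omega) (by omega)
  · intro i j hi hic hj hjc
    refine ⟨?_, ?_, ?_⟩
    · rcases Nat.lt_or_ge α i with h | h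
      · rw [q2 i h]
        rcases Nat.lt_or_ge β j with h' | h'
        · rw [x2 j h']
          exact hqf _ _ (by omega) (by omega) (by omega) (by omega)
        · rw [x1' j h']
          intro heq
          exact hq3 _ (by omega) (by omega) (heq ▸ hbU _ (by omega))
      · rw [q1 i h]
        rcases Nat.lt_or_ge β j with h' | h'
        · rw [x2 j h']
          intro heq
          exact hfU _ (by omega) (heq ▸ hdU _ (by omega))
        · rw [x1' j h']
          exact (hlate j hj h' _ (by omega)).symm
    · rcases Nat.lt_or_ge α i with h | h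
      · rw [q2 i h]
        rcases Nat.lt_or_ge γ j with h' | h'
        · rw [y2 j h']
          exact hqg _ _ (by omega) (by omega) (by omega) (by omega)
        · rw [y1' j h']
          intro heq
          exact hq3 _ (by omega) (by omega) (heq ▸ hdU _ (by omega))
      · rw [q1 i h]
        rcases Nat.lt_or_ge γ j with h' | h'
        · rw [y2 j h']
          intro heq
          exact hgU _ (by omega) (heq ▸ hdU _ (by omega))
        · rw [y1' j h']
          exact hd2 _ _ (by omega) (by omega)
    · rcases Nat.lt_or_ge β i with h | h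
      · rw [x2 i h]
        rcases Nat.lt_or_ge γ j with h' | h'
        · rw [y2 j h']
          exact hfgne _ _ (by omega) (by omega)
        · rw [y1' j h']
          intro heq
          exact hfU _ (by omega) (heq ▸ hdU _ (by omega))
      · rw [x1' i h]
        rcases Nat.lt_or_ge γ j with h' | h'
        · rw [y2 j h']
          intro heq
          exact hgU _ (by omega) (heq ▸ hbU _ (by omega))
        · rw [y1' j h']
          exact hlate i hi h _ (by omega)

/-! ### Completeness -/

theorem ext_of_geodesic {u : V} {w : ℕ → V} (hE : ∀ i < c, E (w i) (w (i + 1)))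
    (hlev : ∀ i ≤ c, Lev E c i u (w i)) : ∀ k ≤ c, Ext E c k u (w (c - k)) := by
  intro k
  induction k with
  | zero => intro _; exact hlev c le_rfl
  | succ k ih =>
    intro hk
    refine ⟨hlev _ (by omega), w (c - k), ih (by omega), ?_⟩
    have := hE (c - (k + 1)) (by omega)
    have e1 : c - (k + 1) + 1 = c - k := by omega
    rwa [e1] at this

/-- One step towards the target. -/
theorem step {u t : V} {n j : ℕ} (hn : 0 < n) (hlev : Lev E c n u t)
    (hq : InLeg E j u fun v => ∀ m ≤ n, ¬ Out E c m v t) :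
    ∃ p n', n' < n ∧ Lev E c n' p t ∧ Out E c 1 u p ∧ (c < n → 0 < c → Ext E c (c - 1) u p) ∧
      InLeg E (j + 1) p fun v => ∀ m ≤ n', ¬ Out E c m v t := by
  obtain ⟨N, w, hw0, hw1, hw2, hw3⟩ := exists_geodesic (c := c) hlev.1.reach
  obtain rfl : N = n := (hw1 ▸ hw3 N le_rfl : Lev E c N u t).unique hlev
  obtain ⟨n', w', hv0, hv1, hv2, hv3⟩ := exists_geodesic (E := E) (c := c) (u := w 1) (t := t) (by
    have := walk_of_path hw2 1 N hn le_rfl
    rw [hw1] at this
    exact Walk.reach this)
  have hlev' : Lev E c n' (w 1) t := hv1 ▸ hv3 n' le_rfl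
  have hlt : n' < N := by
    have h1 := walk_of_path hw2 1 N hn le_rfl
    rw [hw1] at h1
    by_contra hcon
    exact hlev'.2 (N - 1) (by omega) ⟨w 1, Cls.refl _, h1⟩
  refine ⟨w 1, n', hlt, hlev', (hw3 1 hn).1, ?_, ?_⟩
  · intro hcN hc
    have := ext_of_geodesic (c := c) (fun i hi => hw2 i (by omega))
      (fun i hi => hw3 i (by omega)) (c - 1) (by omega)
    have e1 : c - (c - 1) = 1 := by omega
    rwa [e1] at this
  · obtain ⟨m, b, hb0, hbm, hb1, hb2, hb3⟩ := hw0.path
    obtain ⟨q, hq0, hq1, hq2, hq3⟩ := hq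
    have hbout : ∀ i ≤ m, ∀ k ≤ n', ¬ Out E c k (b i) t := fun i hi k hk hout =>
      hlev.2 k (by omega) (hout.congr (hb3 i hi).symm)
    have hqout : ∀ i, 0 < i → i ≤ j → ∀ k ≤ n', ¬ Out E c k (q i) t := fun i hi hij k hk =>
      hq3 i hi hij k (by omega)
    have hbq : ∀ i i', i ≤ m → 0 < i' → i' ≤ j → b i ≠ q i' := by
      intro i i' hi hi' hij heq
      refine hq3 i' hi' hij N le_rfl ?_
      rw [← heq]
      exact hlev.1.congr (hb3 i hi)
    let q' : ℕ → V := fun k => if k = 0 then w 1 else
      if k - 1 ≤ m then b (m - (k - 1)) else q (k - 1 - m)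
    have h0 : q' 0 = w 1 := by simp [q']
    have h1 : ∀ k, k ≤ m → q' (k + 1) = b (m - k) := fun k hk => by simp [q', hk]
    have h2 : ∀ k, m ≤ k → q' (k + 1) = q (k - m) := fun k hk => by
      rcases Nat.eq_or_lt_of_le hk with h | h
      · rw [← h, h1 m le_rfl, Nat.sub_self, hb0, hq0]
      · have : ¬ k ≤ m := by omega
        simp [q', this]
    have hP : ∀ k ≤ m + j, ∀ l ≤ n', ¬ Out E c l (q' (k + 1)) t := by
      intro k hk
      rcases Nat.lt_or_ge m k with h | h
      · rw [h2 k h.le]
        exact hqout _ (by omega) (by omega)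
      · rw [h1 k h]
        exact hbout _ (by omega)
    have key : InLeg E (m + j + 1) (w 1) fun v => ∀ m ≤ n', ¬ Out E c m v t := by
      refine ⟨q', h0, ?_, ?_, ?_⟩
      · intro i hi
        rcases Nat.eq_zero_or_pos i with rfl | hpos
        · rw [h0, h1 0 (Nat.zero_le _), Nat.sub_zero, hbm]
          exact hw2 0 hn
        · obtain ⟨i, rfl⟩ : ∃ i', i = i' + 1 := ⟨i - 1, by omega⟩
          rcases Nat.lt_or_ge i m with h | h
          · rw [h1 (i + 1) h, h1 i h.le]
            have := hb1 (m - (i + 1)) (by omega)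
            have e1 : m - (i + 1) + 1 = m - i := by omega
            rwa [e1] at this
          · rw [h2 (i + 1) (by omega), h2 i h]
            have e1 : i + 1 - m = i - m + 1 := by omega
            rw [e1]
            exact hq1 _ (by omega)
      · intro i i' hii hi'
        obtain ⟨i', rfl⟩ : ∃ k, i' = k + 1 := ⟨i' - 1, by omega⟩
        rcases Nat.eq_zero_or_pos i with rfl | hpos
        · rw [h0]
          intro heq
          refine hP i' (by omega) n' le_rfl ?_
          rw [← heq]
          exact hlev'.1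
        · obtain ⟨i, rfl⟩ : ∃ k, i = k + 1 := ⟨i - 1, by omega⟩
          rcases Nat.lt_or_ge m i' with h | h
          · rw [h2 i' h.le]
            rcases Nat.lt_or_ge m i with h' | h'
            · rw [h2 i h'.le]
              exact hq2 _ _ (by omega) (by omega)
            · rw [h1 i h']
              exact hbq _ _ (by omega) (by omega) (by omega)
          · rw [h1 i' h, h1 i (by omega)]
            exact (hb2 _ _ (by omega) (by omega)).symm
      · intro i hi hi'
        obtain ⟨i, rfl⟩ : ∃ k, i = k + 1 := ⟨i - 1, by omega⟩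
        exact hP i (by omega)
    exact key.mono (by omega) fun v hv => hv

/-- Deep vertices capture their far targets. -/
theorem far_of_deep (hc : 0 < c) (hE : ¬ HasOut c E) : ∀ (n : ℕ) (u t : V), Lev E c n u t →
    InLeg E c u (fun v => ∀ m ≤ n, ¬ Out E c m v t) → Far E c u t := by
  intro n
  induction n using Nat.strong_induction_on with
  | _ n ih =>
    intro u t hlev hq
    rcases Nat.lt_or_ge c n with h | h
    · obtain ⟨p, n', h1, h2, _, h4, h5⟩ := step (by omega) hlev hq
      obtain ⟨u', h6, h7⟩ := ih n' h1 p t h2 (h5.mono (by omega) fun v hv => hv)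
      refine ⟨u', Relation.ReflTransGen.head (Or.inl (Or.inr ⟨?_, ?_, h4 h hc⟩)) h6, h7⟩
      · refine fun hb => hE (hasOut_of_bad hc (Cls.refl u) (hq.mono le_rfl fun v hv hcls => ?_) hb)
        exact hv n le_rfl (hlev.1.congr hcls)
      · rintro ⟨m, hm, hout⟩
        exact hlev.2 m (by omega) hout
    · exact ⟨u, Relation.ReflTransGen.refl, n, h, hlev.1⟩

/-- **Completeness**, for digraphs without a spider with legs of length `c`. -/
theorem capt_of_reach (hc : 0 < c) (hE : ¬ HasOut c E) {s t : V} (h : Reach E s t) :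
    Capt E c s t := by
  have key : ∀ (k j n : ℕ) (u : V), j + k = c → Chain E c j s u → Lev E c n u t →
      InLeg E j u (fun v => ∀ m ≤ n, ¬ Out E c m v t) → Capt E c s t := by
    intro k
    induction k with
    | zero =>
      intro j n u hj hch hlev hq
      obtain rfl : j = c := by omega
      exact Or.inr ⟨u, hch, far_of_deep hc hE n u t hlev hq⟩
    | succ k ih =>
      intro j n u hj hch hlev hq
      rcases Nat.lt_or_ge c n with h1 | h1
      · obtain ⟨p, n', _, h2, h3, _, h5⟩ := step (by omega) hlev hq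
        exact ih (j + 1) n' p (by omega) ⟨u, hch, h3⟩ h2 h5
      · exact Or.inl ⟨j, by omega, u, hch, n, h1, hlev.1⟩
  obtain ⟨n, w, _, hw1, _, hw3⟩ := exists_geodesic (c := c) h
  refine key c 0 n s (by omega) rfl (hw1 ▸ hw3 n le_rfl) ⟨fun _ => s, rfl, ?_, ?_, ?_⟩
  · intro i hi; omega
  · intro i j hij hj; omega
  · intro i hi hi'; omega

theorem capt_iff (hc : 0 < c) (hE : ¬ HasOut c E) (s t : V) : Capt E c s t ↔ Reach E s t :=
  ⟨fun h => h.reach hc, fun h => capt_of_reach hc hE h⟩

end Pool.Agent.Lib.Pe46137h7.Mono
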