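import Pool.Agent.Lib.Pe46137h7.SpiderBuild

/-!
# Definability of the capture relation
-/

namespace Pool.Agent.Lib.Pe46137h7.Mono

open Pool.Agent.Lib.Pe46137h7

theorem def_exists_le {P : ℕ → ∀ V : Type, (V → V → Prop) → V → V → Prop}
    (h : ∀ i, Def2 (P i)) (N : ℕ) : Def2 fun V E x y => ∃ i ≤ N, P i V E x y := by
  induction N with
  | zero => exact (h 0).congr fun V E x y => by simp
  | succ N ih =>
    refine (ih.or (h (N + 1))).congr fun V E x y => ?_
    constructor
    · rintro (⟨i, hi, h1⟩ | h1)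
      · exact ⟨i, by omega, h1⟩
      · exact ⟨N + 1, le_rfl, h1⟩
    · rintro ⟨i, hi, h1⟩
      rcases Nat.lt_or_ge i (N + 1) with h2 | h2
      · exact Or.inl ⟨i, by omega, h1⟩
      · obtain rfl : i = N + 1 := by omega
        exact Or.inr h1

theorem def_forall_lt {P : ℕ → ∀ V : Type, (V → V → Prop) → V → V → Prop}
    (h : ∀ i, Def2 (P i)) (N : ℕ) : Def2 fun V E x y => ∀ i < N, ¬ P i V E x y := by
  cases N with
  | zero => exact (Def2.arc.or Def2.arc.not).congr fun V E x y => by simp; tauto
  | succ N =>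
    refine (def_exists_le h N).not.congr fun V E x y => ?_
    constructor
    · intro h1 i hi h2
      exact h1 ⟨i, by omega, h2⟩
    · rintro h1 ⟨i, hi, h2⟩
      exact h1 i (by omega) h2

theorem def_walk (n : ℕ) : Def2 fun _ E x y => Walk E n x y := by
  induction n with
  | zero =>
    refine Def2.eq.congr fun V E x y => ?_
    constructor
    · rintro rfl; exact .nil _
    · intro h; cases h; rfl
  | succ n ih =>
    refine (Def2.arc.comp ih).congr fun V E x y => ?_
    constructor
    · rintro ⟨z, h1, h2⟩; exact .cons h1 h2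
    · intro h
      cases h with
      | cons h1 h2 => exact ⟨_, h1, h2⟩

variable (c : ℕ)

theorem def_short : Def2 fun _ E => Short E c := by
  have h : ∀ i, Def2 fun _ E x y => ∃ j ≤ 2 * c - i, Walk E i x y ∧ Walk E j y x := fun i =>
    def_exists_le (P := fun j _ E x y => Walk E i x y ∧ Walk E j y x)
      (fun j => (def_walk i).and (def_walk j).inv) _
  exact def_exists_le (P := fun i _ E x y => ∃ j ≤ 2 * c - i, Walk E i x y ∧ Walk E j y x) h _

theorem def_cls : Def2 fun _ E => Cls E c := (def_short c).stc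

theorem def_out (n : ℕ) : Def2 fun _ E => Out E c n := (def_cls c).comp (def_walk n)

theorem def_lev (n : ℕ) : Def2 fun _ E => Lev E c n :=
  (def_out c n).and (def_forall_lt (P := fun m _ E => Out E c m) (def_out c) n)

theorem def_ext (k : ℕ) : Def2 fun _ E => Ext E c k := by
  induction k with
  | zero => exact def_lev c c
  | succ k ih => exact (def_lev c _).and (ih.comp Def2.arc.inv)

theorem def_near : Def2 fun _ E => Near E c :=
  def_exists_le (P := fun n _ E => Out E c n) (def_out c) c

theorem def_dis (k : ℕ) : DefN 3 fun _ E a => Dis E c k (a 0) (a 1) (a 2) := by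
  induction k with
  | zero =>
    exact (DefN.of2 (def_lev c c) 0 1).and ((DefN.of2 (def_lev c c) 0 2).and
      (DefN.of2 Def2.eq 1 2).not)
  | succ k ih =>
    have h1 : DefN 5 fun _ E a => (E (a 1) (a 3) ∧ E (a 2) (a 4)) ∧
        Dis E c k (a 0) (a 3) (a 4) :=
      ((DefN.of2 Def2.arc 1 3).and (DefN.of2 Def2.arc 2 4)).and (ih.rename ![0, 3, 4])
    exact (DefN.of2 (def_lev c _) 0 1).and ((DefN.of2 (def_lev c _) 0 2).and
      ((DefN.of2 Def2.eq 1 2).not.and h1.ex.ex))

theorem def_bad : DefN 3 fun _ E a => Bad E c (a 1) := by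
  have h1 : DefN 5 fun _ E a => Dis E c (c - 1) (a 1) (a 3) (a 4) :=
    (def_dis c (c - 1)).rename ![1, 3, 4]
  exact h1.ex.ex

theorem def_edge : DefN 3 fun _ E a => Edge E c (a 0) (a 1) (a 2) :=
  (def_bad c).not.and ((DefN.of2 (def_near c) 1 0).not.and (DefN.of2 (def_ext c (c - 1)) 1 2))

theorem def_conn : DefN 3 fun _ E a => Conn E c (a 0) (a 1) (a 2) := by
  have h1 : DefN 5 fun _ E a => Short E c (a 3) (a 4) ∨ Edge E c (a 0) (a 3) (a 4) :=
    (DefN.of2 (def_short c) 3 4).or ((def_edge c).rename ![0, 3, 4])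
  exact h1.stc 1 2

theorem def_far : Def2 fun _ E => Far E c := by
  have h1 : DefN 3 fun _ E a => Conn E c (a 1) (a 0) (a 2) ∧ Near E c (a 2) (a 1) :=
    ((def_conn c).rename ![1, 0, 2]).and (DefN.of2 (def_near c) 2 1)
  exact DefN.to2 h1.ex

theorem def_chain (j : ℕ) : Def2 fun _ E => Chain E c j := by
  induction j with
  | zero => exact Def2.eq
  | succ j ih => exact ih.comp (def_out c 1)

theorem def_capt : Def2 fun _ E => Capt E c :=
  (def_exists_le (P := fun j _ E s t => ∃ p, Chain E c j s p ∧ Near E c p t)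
    (fun j => (def_chain c j).comp (def_near c)) c).or ((def_chain c c).comp (def_far c))

end Pool.Agent.Lib.Pe46137h7.Mono
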