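import Pool.Agent.Lib.Pe46137h7.Hardness
import Pool.Agent.Lib.Pe46137h7.Hitting

/-!
# A first-order reduction to digraphs whose branching vertices are far apart

Every vertex `u` of the given ordered digraph becomes an outgoing list `A(u, w)` and an incoming
list `B(v, u)`; lists and arcs are subdivided into lines with `L` vertices.
-/

namespace Pool.Agent.Lib.Pe46137h7.Mono

open Pool.Agent.Lib.Pe46137h7

/-- A formula under a condition on the copies. -/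
def guard {ρ : Type} {n : ℕ} (b : Prop) [Decidable b] (φ : Fml ρ (n + 1)) : Fml ρ (n + 1) :=
  if b then φ else Fml.bot

theorem sat_guard {ρ V : Type} (R : ρ → V → V → Prop) {n : ℕ} (b : Prop) [Decidable b]
    (φ : Fml ρ (n + 1)) (a : Fin (n + 1) → V) : Sat R (guard b φ) a ↔ b ∧ Sat R φ a := by
  unfold guard
  split
  · simp [*]
  · rename_i h
    exact ⟨fun h' => absurd h' (sat_bot R a), fun h' => absurd h'.1 h⟩

theorem fo_guard {ρ : Type} {n : ℕ} {b : Prop} [Decidable b] {φ : Fml ρ (n + 1)}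
    (h : φ.FirstOrder) : (guard b φ).FirstOrder := by
  unfold guard
  split
  · exact h
  · trivial

theorem fo_or {ρ : Type} {n : ℕ} {φ ψ : Fml ρ n} (h : φ.FirstOrder) (h' : ψ.FirstOrder) :
    (φ.or ψ).FirstOrder := ⟨h, h'⟩

/-- Equality of the two pairs of vertices. -/
def sameF : Fml OrdVoc 4 := .and (.eq 0 2) (.eq 1 3)

/-- The vertex `j` covers the vertex `i`. -/
def covF (i j : Fin 4) : Fml OrdVoc 4 :=
  .and (.rel .lt i j) (.neg (.ex (.and (.rel .lt i.castSucc 4) (.rel .lt 4 j.castSucc))))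

/-- The vertex `i` is the last one. -/
def maxF (i : Fin 4) : Fml OrdVoc 4 := .neg (.ex (.rel .lt i.castSucc 4))

/-- The vertex `i` is the first one. -/
def minF (i : Fin 4) : Fml OrdVoc 4 := .neg (.ex (.rel .lt 4 i.castSucc))

section Sat

variable {V : Type} [LinearOrder V] {E : V → V → Prop}

theorem sat_sameF (a : Fin 4 → V) :
    Sat (ordStr E) sameF a ↔ a 0 = a 2 ∧ a 1 = a 3 := Iff.rfl

theorem sat_covF (i j : Fin 4) (a : Fin 4 → V) :
    Sat (ordStr E) (covF i j) a ↔ a i ⋖ a j := by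
  have h : ∀ z, ext a z 4 = z := fun z => ext_last a z
  simp only [covF, Sat, ordStr, ext_castSucc, h, CovBy]
  refine and_congr Iff.rfl ?_
  push Not
  rfl

theorem sat_maxF (i : Fin 4) (a : Fin 4 → V) :
    Sat (ordStr E) (maxF i) a ↔ ∀ z, z ≤ a i := by
  have h : ∀ z, ext a z 4 = z := fun z => ext_last a z
  simp only [maxF, Sat, ordStr, ext_castSucc, h]
  push Not
  rfl

theorem sat_minF (i : Fin 4) (a : Fin 4 → V) :
    Sat (ordStr E) (minF i) a ↔ ∀ z, a i ≤ z := by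
  have h : ∀ z, ext a z 4 = z := fun z => ext_last a z
  simp only [minF, Sat, ordStr, ext_castSucc, h]
  push Not
  rfl

end Sat

/-- The arcs of the subdivided digraph; the first component is the line and the position. -/
def SArc (L : ℕ) {V : Type} [LinearOrder V] (E : V → V → Prop)
    (p q : (Fin 3 × Fin L) × V × V) : Prop :=
  ((p.1.1 = q.1.1 ∧ p.1.2.val + 1 = q.1.2.val) ∧ p.2.1 = q.2.1 ∧ p.2.2 = q.2.2) ∨
  (((p.1.1 = 0 ∧ p.1.2.val = 0) ∧ q.1.1 = 1 ∧ q.1.2.val = 0) ∧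
    p.2.1 = q.2.1 ∧ p.2.2 = q.2.2) ∨
  (((p.1.1 = 0 ∧ p.1.2.val + 1 = L) ∧ q.1.1 = 0 ∧ q.1.2.val = 0) ∧
    p.2.1 = q.2.1 ∧ p.2.2 ⋖ q.2.2) ∨
  (((p.1.1 = 1 ∧ p.1.2.val + 1 = L) ∧ q.1.1 = 2 ∧ q.1.2.val = 0) ∧
    (p.2.1 = q.2.1 ∧ p.2.2 = q.2.2) ∧ E p.2.1 p.2.2) ∨
  (((p.1.1 = 2 ∧ p.1.2.val + 1 = L) ∧ q.1.1 = 2 ∧ q.1.2.val = 0) ∧
    p.2.2 = q.2.2 ∧ p.2.1 ⋖ q.2.1) ∨
  (((p.1.1 = 2 ∧ p.1.2.val + 1 = L) ∧ q.1.1 = 0 ∧ q.1.2.val = 0) ∧
    p.2.2 = q.2.1 ∧ (∀ z, z ≤ p.2.1) ∧ ∀ z, q.2.2 ≤ z)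

/-- The arc formulas. -/
def arcF {L : ℕ} (p q : Fin 3 × Fin L) : Fml OrdVoc 4 :=
  (guard (p.1 = q.1 ∧ p.2.val + 1 = q.2.val) sameF).or <|
  (guard ((p.1 = 0 ∧ p.2.val = 0) ∧ q.1 = 1 ∧ q.2.val = 0) sameF).or <|
  (guard ((p.1 = 0 ∧ p.2.val + 1 = L) ∧ q.1 = 0 ∧ q.2.val = 0)
    (.and (.eq 0 2) (covF 1 3))).or <|
  (guard ((p.1 = 1 ∧ p.2.val + 1 = L) ∧ q.1 = 2 ∧ q.2.val = 0)
    (.and sameF (.rel .arc 0 1))).or <|
  (guard ((p.1 = 2 ∧ p.2.val + 1 = L) ∧ q.1 = 2 ∧ q.2.val = 0)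
    (.and (.eq 1 3) (covF 0 2))).or <|
  guard ((p.1 = 2 ∧ p.2.val + 1 = L) ∧ q.1 = 0 ∧ q.2.val = 0)
    (.and (.eq 1 2) (.and (maxF 0) (minF 3)))

theorem fo_arcF {L : ℕ} (p q : Fin 3 × Fin L) : (arcF p q).FirstOrder := by
  unfold arcF
  refine fo_or (fo_guard ?_) (fo_or (fo_guard ?_) (fo_or (fo_guard ?_) (fo_or (fo_guard ?_)
    (fo_or (fo_guard ?_) (fo_guard ?_))))) <;>
  simp [Fml.FirstOrder, sameF, covF, maxF, minF]

theorem sat_arcF {L : ℕ} {V : Type} [LinearOrder V] {E : V → V → Prop}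
    (p q : (Fin 3 × Fin L) × V × V) :
    Sat (ordStr E) (arcF p.1 q.1) ![p.2.1, p.2.2, q.2.1, q.2.2] ↔ SArc L E p q := by
  unfold arcF SArc
  simp only [sat_or, sat_guard]
  refine or_congr Iff.rfl (or_congr Iff.rfl (or_congr ?_ (or_congr ?_ (or_congr ?_ ?_))))
  · refine and_congr Iff.rfl (and_congr Iff.rfl ?_)
    rw [sat_covF]; rfl
  · exact Iff.rfl
  · refine and_congr Iff.rfl (and_congr Iff.rfl ?_)
    rw [sat_covF]; rfl
  · refine and_congr Iff.rfl (and_congr Iff.rfl (and_congr ?_ ?_))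
    · rw [sat_maxF]; rfl
    · rw [sat_minF]; rfl

/-- Line and position of a copy. -/
def place (l : ℕ) : Fin (3 * (l + 2)) ≃ Fin 3 × Fin (l + 2) := finProdFinEquiv.symm

/-- The reduction with lines of `l + 2` vertices. -/
abbrev subdiv (l : ℕ) : Reduction where
  copies := 3 * (l + 2)
  arc := fun i j => arcF (place l i) (place l j)
  src := .and (.eq 0 1) (.neg (.ex (.rel .lt 3 2)))
  tgt := .and (.eq 0 1) (.neg (.ex (.rel .lt 3 2)))
  srcCopy := (place l).symm (0, 0)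
  tgtCopy := (place l).symm (0, 0)
  arc_fo := fun i j => fo_arcF _ _
  src_fo := by simp [Fml.FirstOrder]
  tgt_fo := by simp [Fml.FirstOrder]

section Subdiv

variable {V : Type} [LinearOrder V] {E : V → V → Prop} {l : ℕ}

theorem out_iff (p q : Fin (3 * (l + 2)) × V × V) : (subdiv l).out E p q ↔
    SArc (l + 2) E (place l p.1, p.2) (place l q.1, q.2) :=
  sat_arcF (place l p.1, p.2) (place l q.1, q.2)

theorem SArc.asymm {p q : (Fin 3 × Fin (l + 2)) × V × V} (h : SArc (l + 2) E p q) :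
    ¬ SArc (l + 2) E q p := by
  obtain ⟨⟨τ, k⟩, u, w⟩ := p
  obtain ⟨⟨τ', k'⟩, u', w'⟩ := q
  unfold SArc at h ⊢
  simp only at h ⊢
  rintro h'
  rcases h with ⟨⟨h1, h2⟩, r⟩ | ⟨⟨⟨h1, h2⟩, h3, h4⟩, r⟩ | ⟨⟨⟨h1, h2⟩, h3, h4⟩, r⟩ |
    ⟨⟨⟨h1, h2⟩, h3, h4⟩, r⟩ | ⟨⟨⟨h1, h2⟩, h3, h4⟩, r⟩ | ⟨⟨⟨h1, h2⟩, h3, h4⟩, r⟩ <;>
  rcases h' with ⟨⟨h5, h6⟩, r'⟩ | ⟨⟨⟨h5, h6⟩, h7, h8⟩, r'⟩ | ⟨⟨⟨h5, h6⟩, h7, h8⟩, r'⟩ |
    ⟨⟨⟨h5, h6⟩, h7, h8⟩, r'⟩ | ⟨⟨⟨h5, h6⟩, h7, h8⟩, r'⟩ | ⟨⟨⟨h5, h6⟩, h7, h8⟩, r'⟩ <;>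
  first
    | omega
    | exact absurd (h1.symm.trans h7) (by decide)
    | exact absurd (h5.symm.trans h3) (by decide)
    | exact absurd (r.2 ▸ r'.2.lt) (lt_irrefl _)
    | exact absurd (r.1 ▸ r'.2.lt) (lt_irrefl _)
    | exact absurd (r'.2 ▸ r.2.lt) (lt_irrefl _)
    | exact absurd (r'.1 ▸ r.2.lt) (lt_irrefl _)

/-! ### Correctness -/

/-- The vertex of the given digraph at which a vertex of the subdivided digraph sits. -/
def owner (p : (Fin 3 × Fin (l + 2)) × V × V) : V := if p.1.1 = 2 then p.2.2 else p.2.1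

theorem SArc.owner {p q : (Fin 3 × Fin (l + 2)) × V × V} (h : SArc (l + 2) E p q) :
    owner p = owner q ∨ E (owner p) (owner q) := by
  obtain ⟨⟨τ, k⟩, u, w⟩ := p
  obtain ⟨⟨τ', k'⟩, u', w'⟩ := q
  unfold SArc at h
  simp only at h
  unfold Mono.owner
  simp only
  rcases h with ⟨⟨rfl, _⟩, rfl, rfl⟩ | ⟨⟨⟨rfl, _⟩, rfl, _⟩, rfl, rfl⟩ |
    ⟨⟨⟨rfl, _⟩, rfl, _⟩, rfl, _⟩ | ⟨⟨⟨rfl, _⟩, rfl, _⟩, ⟨rfl, rfl⟩, h⟩ |
    ⟨⟨⟨rfl, _⟩, rfl, _⟩, rfl, _⟩ | ⟨⟨⟨rfl, _⟩, rfl, _⟩, rfl, _⟩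
  · exact Or.inl rfl
  · left; simp
  · left; simp
  · right; simpa using h
  · left; simp
  · left; simp

/-- Moving along a line. -/
theorem line_reach (τ : Fin 3) (u w : V) : ∀ (j : ℕ) (hj : j < l + 2),
    Reach (SArc (l + 2) E) ((τ, 0), u, w) ((τ, ⟨j, hj⟩), u, w) := by
  intro j
  induction j with
  | zero => intro _; exact .refl
  | succ j ih =>
    intro hj
    exact (ih (by omega)).tail (Or.inl ⟨⟨rfl, rfl⟩, rfl, rfl⟩)

/-- Moving along the outgoing list. -/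
theorem out_list [Finite V] (u m : V) (hm : ∀ z, m ≤ z) (w : V) :
    Reach (SArc (l + 2) E) ((0, 0), u, m) ((0, 0), u, w) := by
  induction w using WellFoundedLT.induction with
  | _ w ih =>
    by_cases hw : IsMin w
    · rw [show m = w from le_antisymm (hm w) (hw (hm w))]
    · obtain ⟨w', hw'⟩ := exists_covBy_of_wellFoundedGT hw
      refine (ih w' hw'.1).trans ((line_reach 0 u w' (l + 1) (by omega)).tail ?_)
      exact Or.inr (Or.inr (Or.inl ⟨⟨⟨rfl, rfl⟩, rfl, rfl⟩, rfl, hw'⟩))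

/-- Moving along the incoming list. -/
theorem in_list [Finite V] (M w : V) (hM : ∀ z, z ≤ M) (u : V) :
    Reach (SArc (l + 2) E) ((2, 0), u, w) ((2, 0), M, w) := by
  induction u using WellFoundedGT.induction with
  | _ u ih =>
    by_cases hu : IsMax u
    · rw [show u = M from le_antisymm (hM u) (hu (hM u))]
    · obtain ⟨u', hu'⟩ := exists_covBy_of_wellFoundedLT hu
      refine ((line_reach 2 u w (l + 1) (by omega)).tail ?_).trans (ih u' hu'.1)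
      exact Or.inr (Or.inr (Or.inr (Or.inr (Or.inl ⟨⟨⟨rfl, rfl⟩, rfl, rfl⟩, rfl, hu'⟩))))

theorem arc_reach [Finite V] {m : V} (hm : ∀ z, m ≤ z) {u w : V} (h : E u w) :
    Reach (SArc (l + 2) E) ((0, 0), u, m) ((0, 0), w, m) := by
  obtain ⟨M, hM⟩ : ∃ M : V, ∀ z, z ≤ M := by
    have : Nonempty V := ⟨m⟩
    exact Finite.exists_max (id : V → V)
  refine (out_list u m hm w).trans ?_
  refine Relation.ReflTransGen.head (b := ((1, 0), u, w))
    (Or.inr (Or.inl ⟨⟨⟨rfl, rfl⟩, rfl, rfl⟩, rfl, rfl⟩)) ?_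
  refine (line_reach 1 u w (l + 1) (by omega)).trans ?_
  refine Relation.ReflTransGen.head (b := ((2, 0), u, w))
    (Or.inr (Or.inr (Or.inr (Or.inl ⟨⟨⟨rfl, rfl⟩, rfl, rfl⟩, ⟨rfl, rfl⟩, h⟩)))) ?_
  refine (in_list M w hM u).trans ((line_reach 2 M w (l + 1) (by omega)).tail ?_)
  exact Or.inr (Or.inr (Or.inr (Or.inr (Or.inr ⟨⟨⟨rfl, rfl⟩, rfl, rfl⟩, rfl, hM, hm⟩))))

theorem sarc_reach [Finite V] {m : V} (hm : ∀ z, m ≤ z) (s t : V) :
    Reach (SArc (l + 2) E) ((0, 0), s, m) ((0, 0), t, m) ↔ Reach E s t := by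
  constructor
  · intro h
    have key : ∀ p q : (Fin 3 × Fin (l + 2)) × V × V, Reach (SArc (l + 2) E) p q →
        Reach E (owner p) (owner q) := by
      intro p q h
      induction h with
      | refl => exact .refl
      | tail _ h1 ih =>
        rcases h1.owner with h2 | h2
        · rwa [← h2]
        · exact ih.tail h2
    exact key _ _ h
  · intro h
    induction h with
    | refl => exact .refl
    | tail _ h1 ih => exact ih.trans (arc_reach hm h1)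

theorem out_reach (p q : Fin (3 * (l + 2)) × V × V) :
    Relation.ReflTransGen ((subdiv l).out E) p q ↔
      Reach (SArc (l + 2) E) (place l p.1, p.2) (place l q.1, q.2) := by
  constructor
  · intro h
    induction h with
    | refl => exact .refl
    | tail _ h1 ih => exact ih.tail ((out_iff _ _).1 h1)
  · intro h
    have key : ∀ x y : (Fin 3 × Fin (l + 2)) × V × V, Reach (SArc (l + 2) E) x y →
        Relation.ReflTransGen ((subdiv l).out E) ((place l).symm x.1, x.2)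
          ((place l).symm y.1, y.2) := by
      intro x y h
      induction h with
      | refl => exact .refl
      | tail _ h1 ih =>
        refine ih.tail ((out_iff _ _).2 ?_)
        simpa using h1
    simpa using key _ _ h

end Subdiv

end Pool.Agent.Lib.Pe46137h7.Mono
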